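import Pool.Agent.SRC.Bern
import Pool.Agent.SRC.Loops

/-!
Box product bound for the pair of copies `(n1, n2, c)` with sources.
-/

namespace Pool.Agent.Drt

open Finset Pool.Agent.SRC

set_option linter.unusedSectionVars false

variable {d : ℕ}

/-- unnormalised expectation of `(n1, n2, c)` with sources `A1`, `A2`. -/
noncomputable def Q3 (x q : ℝ) (E : Finset (Ed d)) (A1 A2 : Vx d → ZMod 2)
    (K : Finset (Ed d) → Finset (Ed d) → Finset (Ed d) → ℝ) : ℝ :=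
  EL (loopM x) E A1 (fun n1 => EL (loopM x) E A2 (fun n2 => EB q E (fun c => K n1 n2 c)))

/-- weight of the triple -/
noncomputable def w3 (x q : ℝ) (E : Finset (Ed d)) (A1 A2 : Vx d → ZMod 2)
    (n1 n2 c : Finset (Ed d)) : ℝ :=
  ind (bd n1 = A1) * x ^ n1.card * (ind (bd n2 = A2) * x ^ n2.card) *
    (q ^ c.card * (1 - q) ^ (E \ c).card)

theorem EL_loop (x : ℝ) (E : Finset (Ed d)) (A : Vx d → ZMod 2) (f : Finset (Ed d) → ℝ) :
    EL (loopM x) E A f = ∑ η ∈ E.powerset, ind (bd η = A) * x ^ η.card * f η := by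
  unfold EL loopM
  refine sum_congr rfl fun η _ => ?_
  simp only [one_smul, one_pow, mul_one]

theorem Q3_sum (x q : ℝ) (E : Finset (Ed d)) (A1 A2 : Vx d → ZMod 2)
    (K : Finset (Ed d) → Finset (Ed d) → Finset (Ed d) → ℝ) :
    Q3 x q E A1 A2 K = ∑ n1 ∈ E.powerset, ∑ n2 ∈ E.powerset, ∑ c ∈ E.powerset,
      w3 x q E A1 A2 n1 n2 c * K n1 n2 c := by
  unfold Q3
  rw [EL_loop]
  refine sum_congr rfl fun n1 _ => ?_
  rw [EL_loop, mul_sum]
  refine sum_congr rfl fun n2 _ => ?_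
  unfold EB
  rw [mul_sum, mul_sum]
  refine sum_congr rfl fun c _ => ?_
  unfold w3
  ring

theorem sum_split {α : Type*} [DecidableEq α] {E U : Finset α} (hU : U ⊆ E) (f : Finset α → ℝ) :
    ∑ s ∈ E.powerset, f s = ∑ a ∈ (E \ U).powerset, ∑ b ∈ U.powerset, f (a ∪ b) := by
  rw [← sum_product']
  symm
  refine sum_bij' (fun q _ => q.1 ∪ q.2) (fun s _ => (s \ U, s ∩ U)) ?_ ?_ ?_ ?_ ?_
  · intro q hq
    rw [mem_product, mem_powerset, mem_powerset] at hq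
    rw [mem_powerset]
    exact union_subset (hq.1.trans sdiff_subset) (hq.2.trans hU)
  · intro s hs
    rw [mem_powerset] at hs
    rw [mem_product, mem_powerset, mem_powerset]
    exact ⟨sdiff_subset_sdiff hs Subset.rfl, inter_subset_right⟩
  · intro q hq
    rw [mem_product, mem_powerset, mem_powerset] at hq
    obtain ⟨h1, h2⟩ := hq
    refine Prod.ext ?_ ?_
    · ext e
      simp only [mem_sdiff, mem_union]
      constructor
      · rintro ⟨h3 | h3, h4⟩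
        · exact h3
        · exact absurd (h2 h3) h4
      · intro h3
        exact ⟨Or.inl h3, (mem_sdiff.1 (h1 h3)).2⟩
    · ext e
      simp only [mem_inter, mem_union]
      constructor
      · rintro ⟨h3 | h3, h4⟩
        · exact absurd h4 (mem_sdiff.1 (h1 h3)).2
        · exact h3
      · intro h3
        exact ⟨Or.inr h3, h2 h3⟩
  · intro s _
    ext e
    simp only [mem_union, mem_sdiff, mem_inter]
    tauto
  · intro q _
    rfl

theorem bd_union {a b : Finset (Ed d)} (h : Disjoint a b) : bd (a ∪ b) = bd a + bd b := by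
  unfold bd
  exact sum_union h

theorem split_facts {α : Type*} [DecidableEq α] {E U a b : Finset α} (hU : U ⊆ E)
    (ha : a ⊆ E \ U) (hb : b ⊆ U) :
    Disjoint a b ∧ (a ∪ b).card = a.card + b.card ∧
      (E \ (a ∪ b)).card = ((E \ U) \ a).card + (U \ b).card ∧ (a ∪ b) \ U = a ∧
      (a ∪ b) ∩ U = b := by
  have hd : Disjoint a b := by
    rw [Finset.disjoint_left]
    intro e h1 h2
    exact (mem_sdiff.1 (ha h1)).2 (hb h2)
  refine ⟨hd, card_union_of_disjoint hd, ?_, ?_, ?_⟩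
  · rw [← card_union_of_disjoint]
    · congr 1
      ext e
      simp only [mem_sdiff, mem_union]
      have h1 := @ha e
      have h2 := @hb e
      have h3 := @hU e
      rw [mem_sdiff] at h1
      tauto
    · rw [Finset.disjoint_left]
      intro e h1 h2
      exact (mem_sdiff.1 (mem_sdiff.1 h1).1).2 (mem_sdiff.1 h2).1
  · ext e
    simp only [mem_sdiff, mem_union]
    have h1 := @ha e
    have h2 := @hb e
    rw [mem_sdiff] at h1
    tauto
  · ext e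
    simp only [mem_inter, mem_union]
    have h1 := @ha e
    have h2 := @hb e
    rw [mem_sdiff] at h1
    tauto

theorem w3_split (x q : ℝ) {E U : Finset (Ed d)} (hU : U ⊆ E) (A1 A2 : Vx d → ZMod 2)
    {a1 b1 a2 b2 a3 b3 : Finset (Ed d)} (ha1 : a1 ⊆ E \ U) (hb1 : b1 ⊆ U) (ha2 : a2 ⊆ E \ U)
    (hb2 : b2 ⊆ U) (ha3 : a3 ⊆ E \ U) (hb3 : b3 ⊆ U) :
    w3 x q E A1 A2 (a1 ∪ b1) (a2 ∪ b2) (a3 ∪ b3) =
      (x ^ a1.card * x ^ a2.card * (q ^ a3.card * (1 - q) ^ ((E \ U) \ a3).card)) *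
        w3 x q U (A1 + bd a1) (A2 + bd a2) b1 b2 b3 := by
  obtain ⟨d1, c1, _, _, _⟩ := split_facts hU ha1 hb1
  obtain ⟨d2, c2, _, _, _⟩ := split_facts hU ha2 hb2
  obtain ⟨_, c3, c3', _, _⟩ := split_facts hU ha3 hb3
  have hbd : ∀ {a b : Finset (Ed d)} (A : Vx d → ZMod 2), Disjoint a b →
      ind (bd (a ∪ b) = A) = ind (bd b = A + bd a) := by
    intro a b A h
    apply ind_congr
    rw [bd_union h]
    have h2 : bd a + bd a = 0 := by
      funext v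
      exact CharTwo.add_self_eq_zero _
    constructor
    · intro h1
      rw [← h1]
      calc bd b = bd b + 0 := by rw [add_zero]
        _ = bd b + (bd a + bd a) := by rw [h2]
        _ = _ := by abel
    · intro h1
      rw [h1]
      calc bd a + (A + bd a) = A + (bd a + bd a) := by abel
        _ = A := by rw [h2, add_zero]
  unfold w3
  rw [hbd A1 d1, hbd A2 d2, c1, c2, c3, c3']
  simp only [pow_add]
  ring

theorem reorder {α β : Type*} (A : Finset α) (B : Finset β) (g : α → β → α → β → α → β → ℝ) :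
    ∑ a1 ∈ A, ∑ b1 ∈ B, ∑ a2 ∈ A, ∑ b2 ∈ B, ∑ a3 ∈ A, ∑ b3 ∈ B, g a1 b1 a2 b2 a3 b3 =
      ∑ a1 ∈ A, ∑ a2 ∈ A, ∑ a3 ∈ A, ∑ b1 ∈ B, ∑ b2 ∈ B, ∑ b3 ∈ B, g a1 b1 a2 b2 a3 b3 := by
  refine sum_congr rfl fun a1 _ => ?_
  rw [sum_comm]
  refine sum_congr rfl fun a2 _ => ?_
  have h1 : ∀ b1 ∈ B, ∑ b2 ∈ B, ∑ a3 ∈ A, ∑ b3 ∈ B, g a1 b1 a2 b2 a3 b3 =
      ∑ a3 ∈ A, ∑ b2 ∈ B, ∑ b3 ∈ B, g a1 b1 a2 b2 a3 b3 := fun b1 _ => sum_comm
  rw [sum_congr rfl h1, sum_comm]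

theorem key (x q : ℝ) {E U : Finset (Ed d)} (hU : U ⊆ E) (A1 A2 : Vx d → ZMod 2)
    (K : Finset (Ed d) → Finset (Ed d) → Finset (Ed d) → ℝ)
    (B : Finset (Ed d) → Finset (Ed d) → Finset (Ed d) → ℝ) :
    Q3 x q E A1 A2 (fun n1 n2 c => K (n1 \ U) (n2 \ U) (c \ U) * B (n1 ∩ U) (n2 ∩ U) (c ∩ U)) =
      ∑ a1 ∈ (E \ U).powerset, ∑ a2 ∈ (E \ U).powerset, ∑ a3 ∈ (E \ U).powerset,
        (x ^ a1.card * x ^ a2.card * (q ^ a3.card * (1 - q) ^ ((E \ U) \ a3).card)) *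
          K a1 a2 a3 * Q3 x q U (A1 + bd a1) (A2 + bd a2) B := by
  rw [Q3_sum, sum_split hU]
  simp only [sum_split hU]
  rw [reorder]
  refine sum_congr rfl fun a1 ha1 => sum_congr rfl fun a2 ha2 => sum_congr rfl fun a3 ha3 => ?_
  rw [mem_powerset] at ha1 ha2 ha3
  rw [Q3_sum, mul_sum]
  refine sum_congr rfl fun b1 hb1 => ?_
  rw [mul_sum]
  refine sum_congr rfl fun b2 hb2 => ?_
  rw [mul_sum]
  refine sum_congr rfl fun b3 hb3 => ?_
  rw [mem_powerset] at hb1 hb2 hb3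
  obtain ⟨_, _, _, e1, e1'⟩ := split_facts hU ha1 hb1
  obtain ⟨_, _, _, e2, e2'⟩ := split_facts hU ha2 hb2
  obtain ⟨_, _, _, e3, e3'⟩ := split_facts hU ha3 hb3
  rw [e1, e1', e2, e2', e3, e3', w3_split x q hU A1 A2 ha1 hb1 ha2 hb2 ha3 hb3]
  ring

/-- sources which vanish at the vertices all of whose edges are in `U` -/
def OutS (U : Finset (Ed d)) (S : Vx d → ZMod 2) : Prop :=
  ∀ v, (∀ e : Ed d, (e.1 = v ∨ tip e = v) → e ∈ U) → S v = 0

theorem OutS_zero (U : Finset (Ed d)) : OutS U (0 : Vx d → ZMod 2) := fun _ _ => rfl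

theorem bde_off {e : Ed d} {v : Vx d} (h1 : e.1 ≠ v) (h2 : tip e ≠ v) : bde e v = 0 := by
  unfold bde
  rw [Pi.add_apply, Pi.single_eq_of_ne' h1, Pi.single_eq_of_ne' h2, add_zero]

theorem OutS_bd {U a : Finset (Ed d)} (h : Disjoint a U) {S : Vx d → ZMod 2} (hS : OutS U S) :
    OutS U (S + bd a) := by
  intro v hv
  rw [Pi.add_apply, hS v hv, zero_add]
  unfold bd
  rw [Finset.sum_apply]
  refine sum_eq_zero fun e he => ?_
  have h1 : e ∉ U := fun h2 => (Finset.disjoint_left.1 h) he h2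
  exact bde_off (fun h2 => h1 (hv e (Or.inl h2))) (fun h2 => h1 (hv e (Or.inr h2)))

/-- one box -/
theorem Q3_step {x q : ℝ} (hx : 0 ≤ x) (hq : 0 ≤ q) (hq1 : q ≤ 1) {E U : Finset (Ed d)}
    (hU : U ⊆ E) (A1 A2 : Vx d → ZMod 2) (hA1 : OutS U A1) (hA2 : OutS U A2)
    (K : Finset (Ed d) → Finset (Ed d) → Finset (Ed d) → ℝ) (hK : ∀ n1 n2 c, 0 ≤ K n1 n2 c)
    (B : Finset (Ed d) → Finset (Ed d) → Finset (Ed d) → ℝ) {ε : ℝ}
    (hB : ∀ S1 S2, OutS U S1 → OutS U S2 →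
      Q3 x q U S1 S2 B ≤ ε * Q3 x q U S1 S2 (fun _ _ _ => 1)) :
    Q3 x q E A1 A2 (fun n1 n2 c => K (n1 \ U) (n2 \ U) (c \ U) * B (n1 ∩ U) (n2 ∩ U) (c ∩ U)) ≤
      ε * Q3 x q E A1 A2 (fun n1 n2 c => K (n1 \ U) (n2 \ U) (c \ U)) := by
  have h1 : Q3 x q E A1 A2 (fun n1 n2 c => K (n1 \ U) (n2 \ U) (c \ U)) =
      Q3 x q E A1 A2 (fun n1 n2 c => K (n1 \ U) (n2 \ U) (c \ U) *
        (fun _ _ _ => (1 : ℝ)) (n1 ∩ U) (n2 ∩ U) (c ∩ U)) := by
    simp only [mul_one]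
  rw [h1, key x q hU A1 A2 K B, key x q hU A1 A2 K (fun _ _ _ => (1 : ℝ)), mul_sum]
  refine sum_le_sum fun a1 ha1 => ?_
  rw [mul_sum]
  refine sum_le_sum fun a2 ha2 => ?_
  rw [mul_sum]
  refine sum_le_sum fun a3 _ => ?_
  rw [mem_powerset] at ha1 ha2
  have hd1 : Disjoint a1 U := Finset.disjoint_left.2 fun e h => (mem_sdiff.1 (ha1 h)).2
  have hd2 : Disjoint a2 U := Finset.disjoint_left.2 fun e h => (mem_sdiff.1 (ha2 h)).2
  have h2 : 0 ≤ (x ^ a1.card * x ^ a2.card * (q ^ a3.card * (1 - q) ^ ((E \ U) \ a3).card)) *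
      K a1 a2 a3 := by
    have h3 : 0 ≤ 1 - q := by linarith
    have := hK a1 a2 a3
    positivity
  have h4 := mul_le_mul_of_nonneg_left
    (hB (A1 + bd a1) (A2 + bd a2) (OutS_bd hd1 hA1) (OutS_bd hd2 hA2)) h2
  calc _ ≤ _ := h4
    _ = _ := by ring

theorem Q3_congr (x q : ℝ) (E : Finset (Ed d)) (A1 A2 : Vx d → ZMod 2)
    {K K' : Finset (Ed d) → Finset (Ed d) → Finset (Ed d) → ℝ}
    (h : ∀ n1 n2 c, n1 ⊆ E → n2 ⊆ E → c ⊆ E → K n1 n2 c = K' n1 n2 c) :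
    Q3 x q E A1 A2 K = Q3 x q E A1 A2 K' := by
  rw [Q3_sum, Q3_sum]
  refine sum_congr rfl fun n1 h1 => sum_congr rfl fun n2 h2 => sum_congr rfl fun c h3 => ?_
  rw [mem_powerset] at h1 h2 h3
  rw [h n1 n2 c h1 h2 h3]

/-- many boxes: `K` does not depend on the edges of the boxes `U i`, `i ∈ J`. -/
theorem Q3_prod {ι : Type*} [DecidableEq ι] {x q : ℝ} (hx : 0 ≤ x) (hq : 0 ≤ q) (hq1 : q ≤ 1)
    (E : Finset (Ed d)) (J : Finset ι) (U : ι → Finset (Ed d)) (hU : ∀ i ∈ J, U i ⊆ E)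
    (hd : ∀ i ∈ J, ∀ j ∈ J, i ≠ j → Disjoint (U i) (U j)) (A1 A2 : Vx d → ZMod 2)
    (hA : ∀ i ∈ J, OutS (U i) A1 ∧ OutS (U i) A2)
    (K : Finset (Ed d) → Finset (Ed d) → Finset (Ed d) → ℝ) (hK : ∀ n1 n2 c, 0 ≤ K n1 n2 c)
    (hKU : ∀ i ∈ J, ∀ n1 n2 c, K n1 n2 c = K (n1 \ U i) (n2 \ U i) (c \ U i))
    (B : ι → Finset (Ed d) → Finset (Ed d) → Finset (Ed d) → ℝ)
    (hB0 : ∀ i ∈ J, ∀ n1 n2 c, 0 ≤ B i n1 n2 c) {ε : ℝ} (hε : 0 ≤ ε)
    (hB : ∀ i ∈ J, ∀ S1 S2, OutS (U i) S1 → OutS (U i) S2 → Q3 x q (U i) S1 S2 (B i) ≤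
      ε * Q3 x q (U i) S1 S2 (fun _ _ _ => 1)) :
    Q3 x q E A1 A2 (fun n1 n2 c => K n1 n2 c *
        ∏ i ∈ J, B i (n1 ∩ U i) (n2 ∩ U i) (c ∩ U i)) ≤ ε ^ J.card * Q3 x q E A1 A2 K := by
  induction J using Finset.induction_on with
  | empty =>
    simp only [prod_empty, mul_one, card_empty, pow_zero, one_mul]
    exact le_rfl
  | insert i J hi ih =>
    have hi' := mem_insert_self i J
    have ih' := ih (fun j hj => hU j (mem_insert_of_mem hj))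
      (fun j hj k hk hjk => hd j (mem_insert_of_mem hj) k (mem_insert_of_mem hk) hjk)
      (fun j hj => hA j (mem_insert_of_mem hj))
      (fun j hj => hKU j (mem_insert_of_mem hj)) (fun j hj => hB0 j (mem_insert_of_mem hj))
      (fun j hj => hB j (mem_insert_of_mem hj))
    set K' : Finset (Ed d) → Finset (Ed d) → Finset (Ed d) → ℝ := fun n1 n2 c =>
      K n1 n2 c * ∏ j ∈ J, B j (n1 ∩ U j) (n2 ∩ U j) (c ∩ U j) with hK'
    have hinv : ∀ j ∈ J, ∀ s : Finset (Ed d), (s \ U i) ∩ U j = s ∩ U j := by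
      intro j hj s
      have hij : i ≠ j := fun hh => hi (hh ▸ hj)
      have hdis := hd i hi' j (mem_insert_of_mem hj) hij
      ext e
      simp only [mem_inter, mem_sdiff]
      constructor
      · rintro ⟨⟨h1, _⟩, h3⟩
        exact ⟨h1, h3⟩
      · rintro ⟨h1, h3⟩
        exact ⟨⟨h1, fun h4 => (Finset.disjoint_left.1 hdis) h4 h3⟩, h3⟩
    have hK'U : ∀ n1 n2 c, K' n1 n2 c = K' (n1 \ U i) (n2 \ U i) (c \ U i) := by
      intro n1 n2 c
      simp only [hK']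
      rw [← hKU i hi' n1 n2 c]
      congr 1
      refine prod_congr rfl fun j hj => ?_
      rw [hinv j hj, hinv j hj, hinv j hj]
    have hK'0 : ∀ n1 n2 c, 0 ≤ K' n1 n2 c := by
      intro n1 n2 c
      exact mul_nonneg (hK _ _ _) (prod_nonneg fun j hj => hB0 j (mem_insert_of_mem hj) _ _ _)
    have h1 : Q3 x q E A1 A2 (fun n1 n2 c => K n1 n2 c *
        ∏ j ∈ insert i J, B j (n1 ∩ U j) (n2 ∩ U j) (c ∩ U j)) =
        Q3 x q E A1 A2 (fun n1 n2 c => K' (n1 \ U i) (n2 \ U i) (c \ U i) *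
          B i (n1 ∩ U i) (n2 ∩ U i) (c ∩ U i)) := by
      congr 1
      funext n1 n2 c
      rw [← hK'U, prod_insert hi]
      simp only [hK']
      ring
    have h2 : Q3 x q E A1 A2 (fun n1 n2 c => K' (n1 \ U i) (n2 \ U i) (c \ U i)) =
        Q3 x q E A1 A2 K' := by
      congr 1
      funext n1 n2 c
      exact (hK'U n1 n2 c).symm
    rw [h1]
    refine (Q3_step hx hq hq1 (hU i hi') A1 A2 (hA i hi').1 (hA i hi').2 K' hK'0 (B i)
      (hB i hi')).trans ?_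
    rw [h2, card_insert_of_notMem hi, pow_succ]
    calc ε * Q3 x q E A1 A2 K' ≤ ε * (ε ^ J.card * Q3 x q E A1 A2 K) :=
          mul_le_mul_of_nonneg_left ih' hε
      _ = _ := by ring

end Pool.Agent.Drt
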