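import Pool.Agent.Drt.BGm
import Pool.Agent.Bg.Brg

/-! From `Bg.BGP` (helper9, helper60) to `BGall`. -/

namespace Pool.Agent.Drt

open Finset Pool.Agent.SRC Pool.Agent.Lcg

open scoped symmDiff

variable {d : ℕ}

theorem Ub_eq {K : ℕ} (hK : 0 < K) (b : ℕ) (z : Vx d) :
    Ub (K : ℤ) b z = edg (Bg.RB K b z) := by
  have hK' : (0 : ℤ) < K := by exact_mod_cast hK
  ext e
  rw [mem_Ub hK', mem_edg, Bg.mem_RB_iff hK, Bg.mem_RB_iff hK]

theorem Out_of_OutS {K : ℕ} (hK : 0 < K) (b : ℕ) (z : Vx d) {S : Vx d → ZMod 2}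
    (h : OutS (Ub (K : ℤ) b z) S) : Bg.Out K b z S := by
  intro v hv
  apply h v
  intro e he
  rw [Ub_eq hK, mem_edg]
  have hlc : ∀ i, Bg.lc K b z i = (K : ℤ) * (z i - b) := fun i => rfl
  have hsd : ((Bg.sd K b : ℕ) : ℤ) = (2 * b + 1) * K := by
    unfold Bg.sd
    push_cast
    ring
  have hv' : ∀ i, (K : ℤ) * (z i - b) < v i ∧ v i < (K : ℤ) * (z i + b + 1) - 1 := by
    intro i
    have h1 := hv i
    rw [hlc, hsd] at h1
    refine ⟨h1.1, ?_⟩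
    have h2 := h1.2
    have h3 : (K : ℤ) * (z i - b) + (2 * b + 1) * K - 1 = (K : ℤ) * (z i + b + 1) - 1 := by ring
    rwa [h3] at h2
  have key : ∀ w : Vx d, (∀ i, |w i - v i| ≤ 1) → w ∈ Bg.RB K b z := by
    intro w hw
    rw [Bg.mem_RB]
    intro i
    have h1 := abs_le.1 (hw i)
    have h2 := hv' i
    constructor <;> linarith [h1.1, h1.2, h2.1, h2.2]
  have hself : v ∈ Bg.RB K b z := key v fun i => by simp
  have htip : ∀ i, |(tip e) i - e.1 i| ≤ 1 := by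
    intro i
    unfold tip
    rw [Pi.add_apply, add_sub_cancel_left]
    exact uv_abs e.2 i
  rcases he with rfl | rfl
  · exact ⟨hself, key _ htip⟩
  · refine ⟨key _ fun i => ?_, hself⟩
    rw [abs_sub_comm]
    exact htip i

theorem LocG_ref {K : ℕ} (hK : 0 < K) : LocG (d := d) (K : ℤ) 8 (Bg.ref (K : ℤ) 5) := by
  have hK' : (0 : ℤ) < K := by exact_mod_cast hK
  intro om z w hw
  apply Bg.ref_congr
  ext e
  rw [mem_inS, mem_inS, mem_inter, mem_Ub hK']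
  constructor
  · rintro ⟨h1, h2, h3⟩
    refine ⟨⟨h1, ?_, ?_⟩, h2, h3⟩
    · exact near_mono (by norm_num) (near_trans hw h2)
    · exact near_mono (by norm_num) (near_trans hw h3)
  · rintro ⟨⟨h1, _⟩, h2, h3⟩
    exact ⟨h1, h2, h3⟩

theorem Q3_mono {x q : ℝ} (hx : 0 ≤ x) (hq : 0 ≤ q) (hq1 : q ≤ 1) (E : Finset (Ed d))
    (S1 S2 : Vx d → ZMod 2) {f g : Finset (Ed d) → Finset (Ed d) → Finset (Ed d) → ℝ}
    (h : ∀ n1 n2 c, f n1 n2 c ≤ g n1 n2 c) : Q3 x q E S1 S2 f ≤ Q3 x q E S1 S2 g := by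
  have h0 : 0 ≤ (loopM x).a := hx
  have h1 : 0 ≤ (loopM x).b := zero_le_one
  unfold Q3
  exact EL_mono _ h0 h1 _ _ _ _ fun n1 _ => EL_mono _ h0 h1 _ _ _ _ fun n2 _ =>
    EB_mono _ hq hq1 _ _ _ fun c _ => h n1 n2 c

theorem Q3_one (x q : ℝ) (E : Finset (Ed d)) (S1 S2 : Vx d → ZMod 2) :
    Q3 x q E S1 S2 (fun _ _ _ => 1) = ZZ (loopM x) E S1 * ZZ (loopM x) E S2 := by
  unfold Q3
  simp only [EB_const]
  have h1 : ∀ n1 : Finset (Ed d), EL (loopM x) E S2 (fun _ => (1 : ℝ)) = ZZ (loopM x) E S2 :=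
    fun _ => rfl
  show EL (loopM x) E S1 (fun _ => EL (loopM x) E S2 (fun _ => (1 : ℝ))) = _
  rw [EL_const, mul_comm]
  rfl

theorem BGall_of_BGP {x : ℝ} (hx : 0 ≤ x) (hx1 : x ≤ 1) (h : Bg.BGP d x) : BGall d x 6 8 := by
  intro ε hε
  obtain ⟨K0, hK0⟩ := h ε hε
  set K : ℕ := max K0 1 with hKdef
  have hK : 0 < K := lt_of_lt_of_le one_pos (le_max_right _ _)
  have hK' : (0 : ℤ) < K := by exact_mod_cast hK
  have hq : (0 : ℝ) ≤ x ^ 2 := by positivity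
  have hq1 : x ^ 2 ≤ 1 := by nlinarith
  refine ⟨K, 5 * K, Bg.ref (K : ℤ) 5, hK, ?_, LocG_ref hK, ?_⟩
  · push_cast
    linarith
  intro lo hi z _ _ S1 S2 hS1 hS2
  have h1 := hK0 K (le_max_left _ _) z S1 S2 (Out_of_OutS hK 8 z hS1) (Out_of_OutS hK 8 z hS2)
  rw [Q3_one, Ub_eq hK]
  refine le_trans (Q3_mono hx hq hq1 _ _ _ fun n1 n2 c => ind_mono fun h2 => ?_) h1
  refine Bg.BE_of_bad hK ?_ h2
  intro e he
  rw [mem_symmDiff] at he
  rw [mem_union, mem_union]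
  tauto

end Pool.Agent.Drt
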