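import Pool.Agent.Drt.H1c

/-! Monotonicity of (BG) in the radius of the boxes. -/

namespace Pool.Agent.Drt

open Finset Pool.Agent.SRC Pool.Agent.Lcg

open scoped symmDiff

variable {d : ℕ}

theorem Ub_mono {K : ℤ} (hK : 0 < K) {r ρ : ℕ} (h : r ≤ ρ) (z : Vx d) : Ub K r z ⊆ Ub K ρ z := by
  intro e he
  rw [mem_Ub hK] at *
  have h1 : (r : ℤ) ≤ ρ := by exact_mod_cast h
  exact ⟨near_mono h1 he.1, near_mono h1 he.2⟩

theorem LocG_mono {K : ℤ} (hK : 0 < K) {r ρ : ℕ} (h : r ≤ ρ)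
    {g : Finset (Ed d) → Vx d → Vx d} (hg : LocG K r g) : LocG K ρ g := by
  intro om z w hw
  rw [hg om z w hw, hg (om ∩ Ub K ρ z) z w hw]
  congr 1
  rw [Finset.inter_assoc, Finset.inter_eq_right.2 (Ub_mono hK h z)]

theorem OutS_mono {U V : Finset (Ed d)} (h : U ⊆ V) {S : Vx d → ZMod 2} (hS : OutS V S) :
    OutS U S := fun v hv => hS v fun e he => h (hv e he)

theorem BGH_mono {x : ℝ} (hx : 0 ≤ x) (hx1 : x ≤ 1) {K : ℤ} (hK : 0 < K) {a l : ℤ} {r ρ : ℕ}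
    (h : r ≤ ρ) (ha : a ≤ r) {g : Finset (Ed d) → Vx d → Vx d} (hg : LocG K r g) {ε : ℝ}
    (hB : BGH d x K a l r g ε) : BGH d x K a l ρ g ε := by
  intro lo hi z hz hzi S1 S2 hS1 hS2
  have hq : (0 : ℝ) ≤ x ^ 2 := by positivity
  have hq1 : x ^ 2 ≤ 1 := by nlinarith
  have hsub := Ub_mono hK h z
  have h1 := Q3_step hx hq hq1 hsub S1 S2 (OutS_mono hsub hS1) (OutS_mono hsub hS2)
    (fun _ _ _ => 1) (fun _ _ _ => zero_le_one)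
    (fun n1 n2 c => ind (z ∈ BadG K a l lo hi g (n1 ∪ n2 ∪ c) (n1 ∆ n2)))
    (fun T1 T2 hT1 hT2 => hB lo hi z hz hzi T1 T2 hT1 hT2)
  refine le_trans (le_of_eq ?_) h1
  congr 1
  funext n1 n2 c
  rw [one_mul]
  refine ind_congr ?_
  have h2 : ∀ n1 n2 c U : Finset (Ed d),
      (n1 ∪ n2 ∪ c) ∩ U = (n1 ∩ U) ∪ (n2 ∩ U) ∪ (c ∩ U) := inter_three
  rw [bad_local hK ha hg, h2, inter_symm]

theorem BGall_mono {x : ℝ} (hx : 0 ≤ x) (hx1 : x ≤ 1) {a r ρ : ℕ} (h : r ≤ ρ) (ha : a ≤ r)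
    (hB : BGall d x a r) : BGall d x a ρ := by
  intro ε hε
  obtain ⟨K, l, g, hK, hl, hg, h1⟩ := hB ε hε
  have hK' : (0 : ℤ) < K := by exact_mod_cast hK
  exact ⟨K, l, g, hK, hl, LocG_mono hK' h hg,
    BGH_mono hx hx1 hK' h (by exact_mod_cast ha) hg h1⟩

/-- `Inv.H1` from (BG) with any radii `a ≤ r` -/
theorem H1_of' {x a' b' : ℝ} (hx : 0 ≤ x) (hx1 : x ≤ 1) (ha' : 0 ≤ a') (hb' : b' ≤ 1)
    {a r : ℕ} (har : a ≤ r) (h : BGall d x a r) : Inv.H1 d x a' b' :=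
  H1_of hx hx1 ha' hb' (ρ := r + 2 * (a + 1)) (by omega)
    (BGall_mono hx hx1 (by omega) har h)

end Pool.Agent.Drt
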