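import Pool.Agent.SRC.Block

/-!
Connections outside a set of edges which one of two disjoint clusters does not touch.
-/

namespace Pool.Agent.Drt

open Finset Pool.Agent.SRC

variable {d : ℕ}

/-- `y` is joined to `X` -/
def jn (Y : Set (Ed d)) (X : Set (Vx d)) (y : Vx d) : Prop := ∃ x ∈ X, conn Y x y

/-- edges with both ends in `L` -/
def inn (L : Set (Vx d)) : Set (Ed d) := {e | e.1 ∈ L ∧ tip e ∈ L}

theorem jn_mono {Y Y' : Set (Ed d)} {X : Set (Vx d)} {y : Vx d} (h : Y ⊆ Y') (hy : jn Y X y) :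
    jn Y' X y := by
  obtain ⟨x, hx, h1⟩ := hy
  exact ⟨x, hx, conn_mono h h1⟩

/-- a step either uses an edge of `U` (both ends in `V`) or is a step outside `U` -/
theorem adj_or {Y U : Set (Ed d)} {V : Set (Vx d)} (hU : U ⊆ inn V) {b c : Vx d}
    (h : adj Y b c) : b ∈ V ∨ adj (Y \ U) b c := by
  obtain ⟨i, hi⟩ := h
  rcases hi with ⟨h1, h2⟩ | ⟨h1, h2⟩
  · by_cases h3 : (b, i) ∈ U
    · exact Or.inl (hU h3).1
    · exact Or.inr ⟨i, Or.inl ⟨⟨h1, h3⟩, h2⟩⟩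
  · by_cases h3 : (c, i) ∈ U
    · left
      have h4 := (hU h3).2
      have h5 : tip (c, i) = b := h2.symm
      rwa [h5] at h4
    · exact Or.inr ⟨i, Or.inr ⟨⟨h1, h3⟩, h2⟩⟩

theorem jn_avoid {Y U : Set (Ed d)} {X V : Set (Vx d)} (hU : U ⊆ inn V)
    (hV : ∀ y ∈ V, ¬ jn (Y \ U) X y) {y : Vx d} (h : jn Y X y) : jn (Y \ U) X y := by
  obtain ⟨x, hx, h1⟩ := h
  unfold conn at h1
  induction h1 with
  | refl => exact ⟨x, hx, conn_refl _ _⟩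
  | @tail b c _ h3 ih =>
    rcases adj_or hU h3 with h4 | h4
    · exact absurd ih (hV b h4)
    · obtain ⟨x', hx', h5⟩ := ih
      exact ⟨x', hx', Relation.ReflTransGen.tail h5 h4⟩

theorem first_hit {Y : Set (Ed d)} {X L : Set (Vx d)} {y : Vx d} (h : jn Y X y) (hy : y ∈ L) :
    ∃ y' ∈ L, jn (Y \ inn L) X y' := by
  have key : ∀ z, jn Y X z → jn (Y \ inn L) X z ∨ ∃ y' ∈ L, jn (Y \ inn L) X y' := by
    rintro z ⟨x, hx, h1⟩
    unfold conn at h1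
    induction h1 with
    | refl => exact Or.inl ⟨x, hx, conn_refl _ _⟩
    | @tail b c _ h3 ih =>
      rcases ih with ih | ih
      · rcases adj_or (U := inn L) (V := L) (fun _ h => h) h3 with h4 | h4
        · exact Or.inr ⟨b, h4, ih⟩
        · obtain ⟨x', hx', h5⟩ := ih
          exact Or.inl ⟨x', hx', Relation.ReflTransGen.tail h5 h4⟩
      · exact Or.inr ih
  rcases key y h with h1 | h1
  · exact ⟨y, hy, h1⟩
  · exact h1

/-- the event outside `U` -/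
def E0 (U : Set (Ed d)) (V L X Z : Set (Vx d)) (Y : Set (Ed d)) : Prop :=
  (∀ y ∈ Z, ¬ jn (Y \ U) X y) ∧ (∀ y ∈ V, ¬ jn (Y \ U) X y) ∧ (∃ y ∈ L, jn (Y \ U) X y) ∧
    ∃ y ∈ L, jn (Y \ inn L) Z y

theorem E0_in {U : Set (Ed d)} {V L X Z : Set (Vx d)} {Y : Set (Ed d)} (hU : U ⊆ inn V)
    (h1 : ∀ y ∈ Z, ¬ jn Y X y) (h2 : ∀ y ∈ V, ¬ jn Y X y) (h3 : ∃ y ∈ L, jn Y X y)
    (h4 : ∃ y ∈ L, jn Y Z y) : E0 U V L X Z Y := by
  refine ⟨fun y hy h => h1 y hy (jn_mono Set.diff_subset h),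
    fun y hy h => h2 y hy (jn_mono Set.diff_subset h), ?_, ?_⟩
  · obtain ⟨y, hy, h5⟩ := h3
    exact ⟨y, hy, jn_avoid hU (fun y hy h => h2 y hy (jn_mono Set.diff_subset h)) h5⟩
  · obtain ⟨y, hy, h5⟩ := h4
    exact first_hit h5 hy

theorem E0_out {U : Set (Ed d)} {V L X Z : Set (Vx d)} {Y : Set (Ed d)} (hU : U ⊆ inn V)
    (h : E0 U V L X Z Y) :
    (∀ y ∈ Z, ¬ jn Y X y) ∧ (∃ y ∈ L, jn Y X y) ∧ ∃ y ∈ L, jn Y Z y := by
  obtain ⟨h1, h2, ⟨y3, hy3, h3⟩, ⟨y4, hy4, h4⟩⟩ := h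
  exact ⟨fun y hy h => h1 y hy (jn_avoid hU h2 h), ⟨y3, hy3, jn_mono Set.diff_subset h3⟩,
    ⟨y4, hy4, jn_mono Set.diff_subset h4⟩⟩

theorem E0_congr {U : Set (Ed d)} {V L X Z : Set (Vx d)} {Y Y' : Set (Ed d)}
    (hUL : U ⊆ inn L) (h : Y \ U = Y' \ U) : E0 U V L X Z Y ↔ E0 U V L X Z Y' := by
  have h1 : Y \ inn L = Y' \ inn L := by
    have h2 : Y \ inn L = (Y \ U) \ inn L := by
      ext e
      constructor
      · rintro ⟨h3, h4⟩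
        exact ⟨⟨h3, fun h5 => h4 (hUL h5)⟩, h4⟩
      · rintro ⟨⟨h3, _⟩, h4⟩
        exact ⟨h3, h4⟩
    have h2' : Y' \ inn L = (Y' \ U) \ inn L := by
      ext e
      constructor
      · rintro ⟨h3, h4⟩
        exact ⟨⟨h3, fun h5 => h4 (hUL h5)⟩, h4⟩
      · rintro ⟨⟨h3, _⟩, h4⟩
        exact ⟨h3, h4⟩
    rw [h2, h2', h]
  unfold E0
  rw [h, h1]

end Pool.Agent.Drt
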