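import Pool.Agent.Drt.Out
import Pool.Agent.Drt.Prod

/-! Calculus of `QQ`. -/

namespace Pool.Agent.Drt

open Finset Pool.Agent.SRC

variable {d : ℕ}

theorem EL0_mono {x : ℝ} (hx : 0 ≤ x) (E : Finset (Ed d)) {f g : Finset (Ed d) → ℝ}
    (h : ∀ η, η ⊆ E → bd η = 0 → f η ≤ g η) :
    EL (loopM x) E 0 f ≤ EL (loopM x) E 0 g := by
  rw [EL_loop, EL_loop]
  refine sum_le_sum fun η hη => ?_
  rw [mem_powerset] at hη
  by_cases h0 : bd η = 0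
  · exact mul_le_mul_of_nonneg_left (h η hη h0) (mul_nonneg (ind_nonneg _) (pow_nonneg hx _))
  · rw [ind_false h0, zero_mul, zero_mul, zero_mul]

theorem QQ_mono {x s : ℝ} (hx : 0 ≤ x) (hx1 : x ≤ 1) (hs : 0 ≤ s) (hs1 : s ≤ 1)
    (E : Finset (Ed d))
    {f g : Finset (Ed d) → Finset (Ed d) → Finset (Ed d) → Finset (Ed d) → Finset (Ed d) → ℝ}
    (h : ∀ n1 n2 c b1 b2, n1 ⊆ E → n2 ⊆ E → c ⊆ E → b1 ⊆ E → b2 ⊆ E → bd n1 = 0 → bd n2 = 0 →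
      f n1 n2 c b1 b2 ≤ g n1 n2 c b1 b2) : QQ x s E f ≤ QQ x s E g := by
  unfold QQ
  have hq : (0 : ℝ) ≤ x ^ 2 := by positivity
  have hq1 : x ^ 2 ≤ 1 := by nlinarith
  refine EL0_mono hx E fun n1 h1 h1' => EL0_mono hx E fun n2 h2 h2' => ?_
  refine EB_mono _ hq hq1 E _ _ fun c hc => EB_mono _ hs hs1 E _ _ fun b1 hb1 =>
    EB_mono _ hs hs1 E _ _ fun b2 hb2 => ?_
  exact h n1 n2 c b1 b2 h1 h2 hc hb1 hb2 h1' h2'

theorem QQ_add (x s : ℝ) (E : Finset (Ed d))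
    (f g : Finset (Ed d) → Finset (Ed d) → Finset (Ed d) → Finset (Ed d) → Finset (Ed d) → ℝ) :
    QQ x s E (fun n1 n2 c b1 b2 => f n1 n2 c b1 b2 + g n1 n2 c b1 b2) =
      QQ x s E f + QQ x s E g := by
  unfold QQ
  simp only [EB_add, EL_add]

theorem QQ_sum {ι : Type*} (x s : ℝ) (E : Finset (Ed d)) (J : Finset ι)
    (f : ι → Finset (Ed d) → Finset (Ed d) → Finset (Ed d) → Finset (Ed d) →
      Finset (Ed d) → ℝ) :
    QQ x s E (fun n1 n2 c b1 b2 => ∑ i ∈ J, f i n1 n2 c b1 b2) = ∑ i ∈ J, QQ x s E (f i) := by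
  unfold QQ
  simp only [EB_sum, EL_sum]

theorem QQ_factor (x s : ℝ) (E : Finset (Ed d)) (F H : Finset (Ed d) → Finset (Ed d) → ℝ) :
    QQ x s E (fun n1 n2 _ b1 b2 => F n1 b1 * H n2 b2) =
      EL (loopM x) E 0 (fun η => EB s E (F η)) * EL (loopM x) E 0 (fun η => EB s E (H η)) := by
  unfold QQ
  have h1 : ∀ n1 n2 : Finset (Ed d), EB (x ^ 2) E (fun _ => EB s E (fun b1 => EB s E (fun b2 =>
      F n1 b1 * H n2 b2))) = EB s E (F n1) * EB s E (H n2) := by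
    intro n1 n2
    rw [EB_const]
    simp only [EB_smul]
    have h2 : (fun b1 => F n1 b1 * EB s E fun b2 => H n2 b2) =
        (fun b1 => (EB s E fun b2 => H n2 b2) * F n1 b1) := by
      funext b1
      exact mul_comm _ _
    rw [h2, EB_smul, mul_comm]
  simp only [h1, EL_smul]
  have h3 : (fun η => EB s E (F η) * EL (loopM x) E 0 fun η => EB s E (H η)) =
      (fun η => (EL (loopM x) E 0 fun η => EB s E (H η)) * EB s E (F η)) := by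
    funext η
    exact mul_comm _ _
  rw [h3, EL_smul, mul_comm]

theorem QQ_one (x s : ℝ) (E : Finset (Ed d)) :
    QQ x s E (fun _ _ _ _ _ => 1) = ZZ (loopM x) E 0 ^ 2 := by
  have h := QQ_factor x s E (fun _ _ => 1) (fun _ _ => 1)
  simp only [mul_one, EB_const] at h
  rw [h, sq]
  rfl

/-- product bound for `QQ` -/
theorem QQ_prod {ι : Type*} [DecidableEq ι] {x s : ℝ} (hx : 0 ≤ x) (hx1 : x ≤ 1) (hs : 0 ≤ s)
    (hs1 : s ≤ 1) (E : Finset (Ed d)) (J : Finset ι) (U : ι → Finset (Ed d))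
    (hU : ∀ i ∈ J, U i ⊆ E) (hd : ∀ i ∈ J, ∀ j ∈ J, i ≠ j → Disjoint (U i) (U j))
    (F H : Finset (Ed d) → Finset (Ed d) → ℝ) (hF0 : ∀ n b, 0 ≤ F n b) (hH0 : ∀ n b, 0 ≤ H n b)
    (hF : ∀ i ∈ J, ∀ n b, F n b = F (n \ U i) b) (hH : ∀ i ∈ J, ∀ n b, H n b = H (n \ U i) b)
    (B : ι → Finset (Ed d) → Finset (Ed d) → Finset (Ed d) → ℝ)
    (hB0 : ∀ i ∈ J, ∀ n1 n2 c, 0 ≤ B i n1 n2 c) {ε : ℝ} (hε : 0 ≤ ε)
    (hB : ∀ i ∈ J, ∀ S1 S2, OutS (U i) S1 → OutS (U i) S2 → Q3 x (x ^ 2) (U i) S1 S2 (B i) ≤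
      ε * Q3 x (x ^ 2) (U i) S1 S2 (fun _ _ _ => 1)) :
    QQ x s E (fun n1 n2 c b1 b2 => F n1 b1 * H n2 b2 *
        ∏ i ∈ J, B i (n1 ∩ U i) (n2 ∩ U i) (c ∩ U i)) ≤
      ε ^ J.card * (EL (loopM x) E 0 (fun η => EB s E (F η)) *
        EL (loopM x) E 0 (fun η => EB s E (H η))) := by
  have hq : (0 : ℝ) ≤ x ^ 2 := by positivity
  have hq1 : x ^ 2 ≤ 1 := by nlinarith
  have hEB0 : ∀ f : Finset (Ed d) → ℝ, (∀ b, 0 ≤ f b) → 0 ≤ EB s E f := by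
    intro f hf
    have h := EB_mono s hs hs1 E (fun _ => 0) f (fun b _ => hf b)
    rwa [EB_const] at h
  have h1 := Q3_prod (x := x) (q := x ^ 2) hx hq hq1 E J U hU hd 0 0
    (fun i _ => ⟨OutS_zero _, OutS_zero _⟩)
    (fun n1 n2 _ => EB s E (fun b1 => EB s E (fun b2 => F n1 b1 * H n2 b2)))
    (fun n1 n2 _ => hEB0 _ fun b1 => hEB0 _ fun b2 => mul_nonneg (hF0 _ _) (hH0 _ _))
    (fun i hi n1 n2 c => by
      congr 1
      funext b1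
      congr 1
      funext b2
      rw [hF i hi n1 b1, hH i hi n2 b2]) B hB0 hε hB
  have h2 : QQ x s E (fun n1 n2 c b1 b2 => F n1 b1 * H n2 b2 *
        ∏ i ∈ J, B i (n1 ∩ U i) (n2 ∩ U i) (c ∩ U i)) =
      Q3 x (x ^ 2) E 0 0 (fun n1 n2 c => (fun n1 n2 _ => EB s E (fun b1 => EB s E (fun b2 =>
        F n1 b1 * H n2 b2))) n1 n2 c * ∏ i ∈ J, B i (n1 ∩ U i) (n2 ∩ U i) (c ∩ U i)) := by
    unfold QQ Q3
    congr 1
    funext n1
    congr 1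
    funext n2
    congr 1
    funext c
    show (EB s E fun b1 => EB s E fun b2 =>
        F n1 b1 * H n2 b2 * ∏ i ∈ J, B i (n1 ∩ U i) (n2 ∩ U i) (c ∩ U i)) =
      (EB s E fun b1 => EB s E fun b2 => F n1 b1 * H n2 b2) *
        ∏ i ∈ J, B i (n1 ∩ U i) (n2 ∩ U i) (c ∩ U i)
    generalize ∏ i ∈ J, B i (n1 ∩ U i) (n2 ∩ U i) (c ∩ U i) = P
    have h3 : ∀ f : Finset (Ed d) → ℝ, EB s E (fun b => f b * P) = EB s E f * P := by
      intro f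
      rw [mul_comm, ← EB_smul]
      congr 1
      funext b
      exact mul_comm _ _
    have h5 : ∀ b1, EB s E (fun b2 => F n1 b1 * H n2 b2 * P) =
        EB s E (fun b2 => F n1 b1 * H n2 b2) * P := fun b1 =>
      h3 (fun b2 => F n1 b1 * H n2 b2)
    have h6 : (fun b1 => EB s E (fun b2 => F n1 b1 * H n2 b2 * P)) =
        (fun b1 => EB s E (fun b2 => F n1 b1 * H n2 b2) * P) := funext h5
    rw [h6]
    exact h3 _
  have h4 : Q3 x (x ^ 2) E 0 0 (fun n1 n2 _ => EB s E (fun b1 => EB s E (fun b2 =>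
        F n1 b1 * H n2 b2))) = EL (loopM x) E 0 (fun η => EB s E (F η)) *
        EL (loopM x) E 0 (fun η => EB s E (H η)) := QQ_factor x s E F H
  rw [h2, ← h4]
  exact h1

end Pool.Agent.Drt
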