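import Pool.Agent.Drt.Star
import Pool.Agent.Drt.Cut
import Pool.Agent.Drt.QQ
import Pool.Agent.Inv.Chn
import Pool.Agent.SRC.Inf

/-! Boxes round blocks. -/

namespace Pool.Agent.Drt

open Finset Pool.Agent.SRC Pool.Agent.Lcg

open scoped symmDiff

variable {d : ℕ}

/-- edges with both ends in blocks near `z` -/
noncomputable def Ub (K : ℤ) (ρ : ℕ) (z : Vx d) : Finset (Ed d) :=
  bx (fun i => K * (z i - ρ)) (fun i => K * (z i + ρ) + (K - 1))

theorem near_blk {K : ℤ} (hK : 0 < K) (ρ : ℕ) (z v : Vx d) :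
    near ρ z (blk K v) ↔ v ∈ Finset.Icc (fun i => K * (z i - ρ) : Vx d)
      (fun i => K * (z i + ρ) + (K - 1)) := by
  rw [Finset.mem_Icc, Pi.le_def, Pi.le_def, ← forall_and]
  refine forall_congr' fun i => ?_
  show |z i - v i / K| ≤ (ρ : ℤ) ↔ K * (z i - ρ) ≤ v i ∧ v i ≤ K * (z i + ρ) + (K - 1)
  have h1 : z i - ρ ≤ v i / K ↔ K * (z i - ρ) ≤ v i := by
    rw [Int.le_ediv_iff_mul_le hK, mul_comm]
  have h2 : v i / K < z i + ρ + 1 ↔ v i < K * (z i + ρ + 1) := by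
    rw [Int.ediv_lt_iff_lt_mul hK, mul_comm]
  rw [abs_le]
  constructor
  · rintro ⟨h3, h4⟩
    refine ⟨h1.1 (by linarith), ?_⟩
    have := h2.1 (by linarith)
    linarith
  · rintro ⟨h3, h4⟩
    have h5 := h1.2 h3
    have h6 := h2.2 (by linarith)
    constructor <;> linarith

theorem mem_Ub {K : ℤ} (hK : 0 < K) (ρ : ℕ) (z : Vx d) (e : Ed d) :
    e ∈ Ub K ρ z ↔ near ρ z (blk K e.1) ∧ near ρ z (blk K (tip e)) := by
  unfold Ub bx
  rw [mem_edg, near_blk hK, near_blk hK]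

theorem Ub_disj {K : ℤ} (hK : 0 < K) (ρ : ℕ) {z w : Vx d}
    (h : ¬ near ((2 * ρ : ℕ) : ℤ) z w) : Disjoint (Ub K ρ z) (Ub K ρ w) := by
  rw [Finset.disjoint_left]
  intro e h1 h2
  rw [mem_Ub hK] at h1 h2
  apply h
  have h3 := near_trans h1.1 (near_symm h2.1)
  push_cast
  rwa [two_mul]

theorem Ub_box {K : ℤ} (hK : 0 < K) (ρ N : ℕ) {z : Vx d}
    (h : ∀ i, K * (|z i| + ρ + 1) ≤ N) : Ub K ρ z ⊆ boxE d N := by
  intro e he
  unfold Ub at he
  unfold boxE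
  unfold bx at *
  rw [mem_edg] at *
  have key : ∀ v : Vx d, v ∈ Finset.Icc (fun i => K * (z i - ρ) : Vx d)
      (fun i => K * (z i + ρ) + (K - 1)) →
      v ∈ Finset.Icc (fun _ => -(N : ℤ) : Vx d) (fun _ => (N : ℤ)) := by
    intro v hv
    rw [Finset.mem_Icc, Pi.le_def, Pi.le_def] at *
    refine ⟨fun i => ?_, fun i => ?_⟩
    · have h1 : K * (z i - ρ) ≤ v i := hv.1 i
      have h2 := h i
      have h3 : -|z i| ≤ z i := neg_abs_le _
      show -(N : ℤ) ≤ v i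
      nlinarith
    · have h1 : v i ≤ K * (z i + ρ) + (K - 1) := hv.2 i
      have h2 := h i
      have h3 : z i ≤ |z i| := le_abs_self _
      show v i ≤ (N : ℤ)
      nlinarith
  exact ⟨key _ he.1, key _ he.2⟩

theorem blk_abs {K : ℤ} (hK : 0 < K) {v : Vx d} {n : ℕ} (h : ∀ i, |v i| ≤ n) (i : Fin d) :
    |blk K v i| ≤ n := by
  show |v i / K| ≤ (n : ℤ)
  have h1 := abs_le.1 (h i)
  rw [abs_le]
  constructor
  · rw [Int.le_ediv_iff_mul_le hK]
    nlinarith [h1.1]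
  · have h2 : v i / K < n + 1 := by
      rw [Int.ediv_lt_iff_lt_mul hK]
      nlinarith [h1.2]
    linarith

/-- the blocks of the box -/
theorem blk_box {K : ℤ} (hK : 0 < K) {N : ℕ} {e : Ed d} (he : e ∈ boxE d N) :
    blk K e.1 ∈ Finset.Icc (fun _ => -(N : ℤ) / K : Vx d) (fun _ => (N : ℤ) / K) ∧
      blk K (tip e) ∈ Finset.Icc (fun _ => -(N : ℤ) / K : Vx d) (fun _ => (N : ℤ) / K) := by
  unfold boxE bx at he
  rw [mem_edg] at he
  have key : ∀ v : Vx d, v ∈ Finset.Icc (fun _ => -(N : ℤ) : Vx d) (fun _ => (N : ℤ)) →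
      blk K v ∈ Finset.Icc (fun _ => -(N : ℤ) / K : Vx d) (fun _ => (N : ℤ) / K) := by
    intro v hv
    rw [Finset.mem_Icc, Pi.le_def, Pi.le_def] at *
    exact ⟨fun i => Int.ediv_le_ediv hK (hv.1 i), fun i => Int.ediv_le_ediv hK (hv.2 i)⟩
  exact ⟨key _ he.1, key _ he.2⟩

theorem in_box {K : ℤ} (hK : 0 < K) {N : ℕ} {z : Vx d} (h : ∀ i, K * |z i| ≤ N) :
    z ∈ Finset.Icc (fun _ => -(N : ℤ) / K : Vx d) (fun _ => (N : ℤ) / K) := by
  rw [Finset.mem_Icc, Pi.le_def, Pi.le_def]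
  refine ⟨fun i => ?_, fun i => ?_⟩
  · show -(N : ℤ) / K ≤ z i
    have h1 : -(N : ℤ) / K < z i + 1 := by
      rw [Int.ediv_lt_iff_lt_mul hK]
      have h2 := h i
      have h3 : -|z i| ≤ z i := neg_abs_le _
      nlinarith
    linarith
  · show z i ≤ (N : ℤ) / K
    rw [Int.le_ediv_iff_mul_le hK]
    have h2 := h i
    have h3 : z i ≤ |z i| := le_abs_self _
    nlinarith

/-- the cube which contains all blocks near the block of `v` -/
theorem near_cube {K : ℕ} (hK : 0 < K) {t : ℕ} {v y : Vx d}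
    (h : near (t : ℤ) (blk K v) (blk K y)) (i : Fin d) : |y i - v i| ≤ K * (t + 1) := by
  have h1 : |v i / (K : ℤ) - y i / (K : ℤ)| ≤ (t : ℤ) := h i
  have hK' : (0 : ℤ) < K := by exact_mod_cast hK
  have e1 : (K : ℤ) * (y i / K) ≤ y i := Int.mul_ediv_self_le hK'.ne'
  have e2 : y i < K * (y i / K) + K := Int.lt_mul_ediv_self_add hK'
  have e3 : (K : ℤ) * (v i / K) ≤ v i := Int.mul_ediv_self_le hK'.ne'
  have e4 : v i < K * (v i / K) + K := Int.lt_mul_ediv_self_add hK'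
  obtain ⟨h2, h3⟩ := abs_le.1 h1
  rw [abs_le]
  constructor
  · nlinarith
  · nlinarith

/-- badness is local -/
def LocG (K : ℤ) (ρ : ℕ) (g : Finset (Ed d) → Vx d → Vx d) : Prop :=
  ∀ (om : Finset (Ed d)) (z w : Vx d), Lcg.near 1 z w → g om w = g (om ∩ Ub K ρ z) w

theorem inS_inter {K : ℤ} (hK : 0 < K) {a : ℤ} {ρ : ℕ} (ha : a ≤ ρ) (om : Finset (Ed d))
    (z : Vx d) : inS K om (ball a z) = inS K (om ∩ Ub K ρ z) (ball a z) := by
  ext e
  rw [mem_inS, mem_inS, mem_inter, mem_Ub hK]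
  constructor
  · rintro ⟨h1, h2, h3⟩
    exact ⟨⟨h1, near_mono ha h2, near_mono ha h3⟩, h2, h3⟩
  · rintro ⟨⟨h1, _⟩, h2, h3⟩
    exact ⟨h1, h2, h3⟩

theorem bad_local {K : ℤ} (hK : 0 < K) {a l : ℤ} {ρ : ℕ} (ha : a ≤ ρ) {lo hi : Vx d}
    {g : Finset (Ed d) → Vx d → Vx d} (hg : LocG K ρ g) (om De : Finset (Ed d)) (z : Vx d) :
    z ∈ BadG K a l lo hi g om De ↔
      z ∈ BadG K a l lo hi g (om ∩ Ub K ρ z) (De ∩ Ub K ρ z) := by
  rw [mem_BadG, mem_BadG]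
  refine and_congr_right fun _ => not_congr ?_
  exact GoodG_congr (inS_inter hK ha om z) (inS_inter hK ha De z)
    (hg om z z (near_refl (by norm_num) z)) (fun i => hg om z (z + uv i) (near_uv z i))

/-- (BG): every block is good with high probability, whatever happens outside -/
def BGH (d : ℕ) (x : ℝ) (K a l : ℤ) (ρ : ℕ) (g : Finset (Ed d) → Vx d → Vx d) (ε : ℝ) : Prop :=
  ∀ lo hi z : Vx d, z ∈ Finset.Icc lo hi → (∀ i, z + uv i ∈ Finset.Icc lo hi) →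
    ∀ S1 S2 : Vx d → ZMod 2, OutS (Ub K ρ z) S1 → OutS (Ub K ρ z) S2 →
      Q3 x (x ^ 2) (Ub K ρ z) S1 S2
          (fun n1 n2 c => ind (z ∈ BadG K a l lo hi g (n1 ∪ n2 ∪ c) (n1 ∆ n2))) ≤
        ε * Q3 x (x ^ 2) (Ub K ρ z) S1 S2 (fun _ _ _ => 1)

end Pool.Agent.Drt
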