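import Pool.Agent.Drt.Out
import Pool.Agent.SRC.Inf

/-!
The swap inequality with exploration inside the box `[-n, n]^d` only.
-/

namespace Pool.Agent.Drt

open Finset Pool.Agent.SRC

open scoped symmDiff

set_option linter.unusedSectionVars false

variable {d : ℕ}

/-- first end of an edge of `E0`, `none` otherwise -/
noncomputable def oa (E0 : Finset (Ed d)) {E : Finset (Ed d)} (e : {e // e ∈ E}) : Option (Vx d) := by
  classical exact if e.1 ∈ E0 then some (ea e) else none

/-- second end -/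
noncomputable def ob (E0 : Finset (Ed d)) {E : Finset (Ed d)} (e : {e // e ∈ E}) : Option (Vx d) := by
  classical exact if e.1 ∈ E0 then some (eb e) else none

theorem oa_pos {E0 E : Finset (Ed d)} {e : {e // e ∈ E}} (h : e.1 ∈ E0) :
    oa E0 e = some (ea e) := by
  unfold oa
  exact if_pos h

theorem ob_pos {E0 E : Finset (Ed d)} {e : {e // e ∈ E}} (h : e.1 ∈ E0) :
    ob E0 e = some (eb e) := by
  unfold ob
  exact if_pos h

theorem oa_neg {E0 E : Finset (Ed d)} {e : {e // e ∈ E}} (h : e.1 ∉ E0) :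
    oa E0 e = none := by
  unfold oa
  exact if_neg h

theorem ob_neg {E0 E : Finset (Ed d)} {e : {e // e ∈ E}} (h : e.1 ∉ E0) :
    ob E0 e = none := by
  unfold ob
  exact if_neg h

theorem oadj_some {E0 E : Finset (Ed d)} (u : Om {e // e ∈ E}) {p : Vx d} {z : Option (Vx d)}
    (h : Adj (oa E0) (ob E0) Set.univ (tr u) (some p) z) :
    ∃ q, z = some q ∧ adj (↑(trc u ∩ E0) : Set (Ed d)) p q := by
  obtain ⟨e, _, hy, h⟩ := h
  have h0 : e.1 ∈ E0 := by
    by_contra h0
    rw [oa_neg h0, ob_neg h0] at h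
    rcases h with h | h
    · exact absurd h.1 (by simp)
    · exact absurd h.2 (by simp)
  rw [oa_pos h0, ob_pos h0] at h
  have hadj : ∀ x z : Vx d, (ea e = x ∧ eb e = z) ∨ (ea e = z ∧ eb e = x) →
      adj (↑(trc u ∩ E0) : Set (Ed d)) x z := by
    intro x z hxz
    have h1 : Adj ea eb Set.univ (tr u) x z := ⟨e, Set.mem_univ _, hy, hxz⟩
    have hmem : (e : Ed d) ∈ trc u := by
      unfold tr at hy
      rw [decide_eq_true_eq] at hy
      unfold trc
      rw [← em_union, coe_mem_em]
      exact hy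
    obtain ⟨⟨v, i⟩, he⟩ := e
    have hm2 : (v, i) ∈ trc u ∩ E0 := mem_inter.2 ⟨hmem, h0⟩
    refine ⟨i, ?_⟩
    rcases hxz with ⟨h1, h2⟩ | ⟨h1, h2⟩
    · left
      have h1' : v = x := h1
      subst h1'
      exact ⟨hm2, h2.symm⟩
    · right
      have h1' : v = z := h1
      subst h1'
      exact ⟨hm2, h2.symm⟩
  rcases h with ⟨h1, h2⟩ | ⟨h1, h2⟩
  · refine ⟨eb e, h2.symm, hadj _ _ (Or.inl ⟨Option.some_injective _ h1, rfl⟩)⟩
  · refine ⟨ea e, h1.symm, hadj _ _ (Or.inr ⟨rfl, Option.some_injective _ h2⟩)⟩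

theorem oadj_of {E0 E : Finset (Ed d)} (u : Om {e // e ∈ E}) {p q : Vx d}
    (h : adj (↑(trc u ∩ E0) : Set (Ed d)) p q) :
    Adj (oa E0) (ob E0) Set.univ (tr u) (some p) (some q) := by
  obtain ⟨i, h | h⟩ := h
  · obtain ⟨h1, h2⟩ := h
    obtain ⟨h1', h3⟩ := mem_inter.1 (mem_coe.1 h1)
    unfold trc at h1'
    rw [← em_union, mem_em] at h1'
    obtain ⟨hE, h4⟩ := h1'
    refine ⟨⟨(p, i), hE⟩, Set.mem_univ _, ?_, Or.inl ⟨?_, ?_⟩⟩
    · unfold tr
      rw [decide_eq_true_eq]
      exact h4
    · rw [oa_pos (e := ⟨(p, i), hE⟩) h3]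
      rfl
    · rw [ob_pos (e := ⟨(p, i), hE⟩) h3, h2]
      rfl
  · obtain ⟨h1, h2⟩ := h
    obtain ⟨h1', h3⟩ := mem_inter.1 (mem_coe.1 h1)
    unfold trc at h1'
    rw [← em_union, mem_em] at h1'
    obtain ⟨hE, h4⟩ := h1'
    refine ⟨⟨(q, i), hE⟩, Set.mem_univ _, ?_, Or.inr ⟨?_, ?_⟩⟩
    · unfold tr
      rw [decide_eq_true_eq]
      exact h4
    · rw [oa_pos (e := ⟨(q, i), hE⟩) h3]
      rfl
    · rw [ob_pos (e := ⟨(q, i), hE⟩) h3, h2]
      rfl

theorem oconn_some {E0 E : Finset (Ed d)} (u : Om {e // e ∈ E}) {p : Vx d} {z : Option (Vx d)}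
    (h : Conn (oa E0) (ob E0) Set.univ (tr u) (some p) z) :
    ∃ q, z = some q ∧ conn (↑(trc u ∩ E0) : Set (Ed d)) p q := by
  unfold Conn at h
  induction h with
  | refl => exact ⟨p, rfl, conn_refl _ _⟩
  | tail _ h2 ih =>
    obtain ⟨q, rfl, h3⟩ := ih
    obtain ⟨r, hr, h4⟩ := oadj_some u h2
    exact ⟨r, hr, Relation.ReflTransGen.tail h3 h4⟩

theorem oconn_iff {E0 E : Finset (Ed d)} (u : Om {e // e ∈ E}) (p q : Vx d) :
    Conn (oa E0) (ob E0) Set.univ (tr u) (some p) (some q) ↔
      conn (↑(trc u ∩ E0) : Set (Ed d)) p q := by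
  constructor
  · intro h
    obtain ⟨q', h1, h2⟩ := oconn_some u h
    rw [Option.some_injective _ h1]
    exact h2
  · intro h
    unfold conn at h
    unfold Conn
    induction h with
    | refl => exact Relation.ReflTransGen.refl
    | tail _ h2 ih => exact Relation.ReflTransGen.tail ih (oadj_of u h2)

/-- the event `Far n` is decided inside the box -/
theorem far_box {n : ℕ} (ω : Finset (Ed d)) :
    Far (n : ℤ) (↑ω : Set (Ed d)) 0 ↔ Far (n : ℤ) (↑(ω ∩ boxE d n) : Set (Ed d)) 0 := by
  constructor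
  · rintro ⟨v, h1, i, hi⟩
    -- either still inside with a path inside, or a far vertex was reached inside
    have key : ∀ v, conn (↑ω : Set (Ed d)) 0 v →
        ((∀ i, |v i| < n) ∧ conn (↑(ω ∩ boxE d n) : Set (Ed d)) 0 v) ∨
          Far (n : ℤ) (↑(ω ∩ boxE d n) : Set (Ed d)) 0 := by
      intro v hv
      unfold conn at hv
      induction hv with
      | refl =>
        by_cases hn : n = 0
        · by_cases hd : Nonempty (Fin d)
          · obtain ⟨j⟩ := hd
            right
            exact ⟨0, conn_refl _ _, j, by simp [hn]⟩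
          · left
            exact ⟨fun j => absurd ⟨j⟩ hd, conn_refl _ _⟩
        · left
          refine ⟨fun j => ?_, conn_refl _ _⟩
          have : (0 : ℤ) < n := by exact_mod_cast Nat.pos_of_ne_zero hn
          simpa using this
      | @tail p q h2 h3 ih =>
        rcases ih with ⟨h4, h5⟩ | h4
        · have hq : ∀ j, |q j| ≤ n := fun j => by
            have := adj_dist h3 j
            have := h4 j
            linarith
          -- the edge is in the box
          have hadj : adj (↑(ω ∩ boxE d n) : Set (Ed d)) p q := by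
            have hp' : p ∈ Icc (fun _ => -(n : ℤ) : Vx d) (fun _ => (n : ℤ)) := by
              rw [mem_Icc]
              exact ⟨fun j => (abs_le.1 (h4 j).le).1, fun j => (abs_le.1 (h4 j).le).2⟩
            have hq' : q ∈ Icc (fun _ => -(n : ℤ) : Vx d) (fun _ => (n : ℤ)) := by
              rw [mem_Icc]
              exact ⟨fun j => (abs_le.1 (hq j)).1, fun j => (abs_le.1 (hq j)).2⟩
            obtain ⟨i, ⟨h6, h7⟩ | ⟨h6, h7⟩⟩ := h3
            · refine ⟨i, Or.inl ⟨?_, h7⟩⟩
              rw [mem_coe, mem_inter]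
              refine ⟨h6, ?_⟩
              unfold boxE bx
              rw [mem_edg]
              refine ⟨hp', ?_⟩
              have : tip (p, i) = q := by rw [h7]; rfl
              rw [this]
              exact hq'
            · refine ⟨i, Or.inr ⟨?_, h7⟩⟩
              rw [mem_coe, mem_inter]
              refine ⟨h6, ?_⟩
              unfold boxE bx
              rw [mem_edg]
              refine ⟨hq', ?_⟩
              have : tip (q, i) = p := by rw [h7]; rfl
              rw [this]
              exact hp'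
          have h8 : conn (↑(ω ∩ boxE d n) : Set (Ed d)) 0 q := Relation.ReflTransGen.tail h5 hadj
          by_cases h9 : ∀ j, |q j| < n
          · exact Or.inl ⟨h9, h8⟩
          · push Not at h9
            obtain ⟨j, hj⟩ := h9
            right
            exact ⟨q, h8, j, by simpa using hj⟩
        · exact Or.inr h4
    rcases key v h1 with ⟨h2, _⟩ | h2
    · exfalso
      have h3 := h2 i
      have h4 : (n : ℤ) ≤ |v i| := by simpa using hi
      linarith
    · exact h2
  · rintro ⟨v, h1, h2⟩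
    exact ⟨v, conn_mono (by simp) h1, h2⟩

/-- THE SWAP INEQUALITY, queried edges in the box `[-n, n]^d` only. -/
theorem swap_box {x s : ℝ} (hx : 0 ≤ x) (hx1 : x ≤ 1) (hs : 0 ≤ s) (hs1 : s ≤ 1)
    (E : Finset (Ed d)) (G : Finset (Ed d) → Finset (Ed d) → Finset (Finset (Ed d)))
    (hG : DecL E G) {n k : ℕ} (hk : k ≤ n) :
    PE x s E (fun η b => ind (Far (n : ℤ) (↑(η ∪ b) : Set (Ed d)) 0)) *
        (1 - PE x s E (fun η b => ind (Far (n : ℤ) (↑(η ∪ b) : Set (Ed d)) 0))) ≤
      (∑ e ∈ boxE d n, QQ x s E (fun n1 n2 c b1 b2 => ind (Ev2 n k G e n1 n2 (n1 ∪ n2 ∪ c) b1 b2))) /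
        ZZ (loopM x) E 0 ^ 2 := by
  classical
  set A : Om {e // e ∈ E} → Prop := fun u => Far (n : ℤ) (↑(trc u) : Set (Ed d)) 0 with hAdef
  set Z := ZZ (loopM x) E 0 with hZ
  have hZpos : 0 < Z := lt_of_lt_of_le one_pos (ZZ_zero_ge x hx E)
  set P1 := EL (loopM x) E 0 (fun η => EB s E (fun b =>
    ind (Far (n : ℤ) (↑(η ∪ b) : Set (Ed d)) 0))) with hP1
  have hmu : ∀ u : Om {e // e ∈ E}, mu (Ev E) x s u =
      if Ev E u.1 then x ^ u.1.card * ber s u.2 else 0 := fun u => rfl
  have hS1 : (∑ u : Om {e // e ∈ E}, if A u then mu (Ev E) x s u else 0) = P1 := by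
    rw [hP1, EL_em]
    simp only [Fintype.sum_prod_type, EB_em]
    refine sum_congr rfl fun η _ => ?_
    by_cases h : Ev E η
    · rw [if_pos h, mul_sum]
      refine sum_congr rfl fun b _ => ?_
      rw [hmu, if_pos h]
      have hA' : A (η, b) ↔ Far (n : ℤ) (↑(em η ∪ em b) : Set (Ed d)) 0 := Iff.rfl
      by_cases h2 : A (η, b)
      · rw [if_pos h2, ind_true (hA'.1 h2), mul_one]
      · rw [if_neg h2, ind_false (fun h3 => h2 (hA'.2 h3)), mul_zero, mul_zero]
    · rw [if_neg h]
      apply sum_eq_zero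
      intro b _
      rw [hmu, if_neg h]
      split_ifs <;> rfl
  have hS0 : (∑ u : Om {e // e ∈ E}, mu (Ev E) x s u) = Z := by
    have h1 : Z = EL (loopM x) E 0 (fun η => EB s E (fun _ => 1)) := by
      rw [hZ]
      unfold ZZ
      congr 1
      funext η
      rw [EB_const]
    rw [h1, EL_em]
    simp only [Fintype.sum_prod_type, EB_em]
    refine sum_congr rfl fun η _ => ?_
    by_cases h : Ev E η
    · rw [if_pos h, mul_sum]
      refine sum_congr rfl fun b _ => ?_
      rw [hmu, if_pos h, mul_one]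
    · rw [if_neg h]
      apply sum_eq_zero
      intro b _
      rw [hmu, if_neg h]
  have hS2 : (∑ u : Om {e // e ∈ E}, if A u then 0 else mu (Ev E) x s u) = Z - P1 := by
    rw [← hS0, ← hS1, ← sum_sub_distrib]
    refine sum_congr rfl fun u _ => ?_
    split_ifs <;> ring
  have hPE : PE x s E (fun η b => ind (Far (n : ℤ) (↑(η ∪ b) : Set (Ed d)) 0)) = P1 / Z := rfl
  have hlhs : P1 / Z * (1 - P1 / Z) = P1 * (Z - P1) / Z ^ 2 := by
    field_simp
  rw [hPE, hlhs]
  refine div_le_div_of_nonneg_right ?_ (by positivity)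
  -- the inequality of Loop
  have htree := tree_expl (Ω := Om {e // e ∈ E}) (oa (boxE d n)) (ob (boxE d n))
    (some '' (sph d k)) tr
  have hfar : ∀ u : Om {e // e ∈ E}, A u ↔ ∃ v : Vx d, (∃ i, (n : ℤ) ≤ |v i|) ∧
      ∃ p ∈ (some '' (sph d k) : Set (Option (Vx d))),
        Conn (oa (boxE d n)) (ob (boxE d n)) Set.univ (tr u) p (some 0) ∧
          Conn (oa (boxE d n)) (ob (boxE d n)) Set.univ (tr u) p (some v) := by
    intro u
    show Far (n : ℤ) _ 0 ↔ _
    rw [far_box, far_iff hk]
    refine exists_congr fun v => and_congr_right fun _ => ?_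
    constructor
    · rintro ⟨p, hp, h1, h2⟩
      exact ⟨some p, ⟨p, hp, rfl⟩, (oconn_iff u p 0).2 h1, (oconn_iff u p v).2 h2⟩
    · rintro ⟨_, ⟨p, hp, rfl⟩, h1, h2⟩
      exact ⟨p, hp, (oconn_iff u p 0).1 h1, (oconn_iff u p v).1 h2⟩
  have hA : ∀ u v : Om {e // e ∈ E},
      (∀ e ∈ expl (oa (boxE d n)) (ob (boxE d n)) (some '' (sph d k)) (tr u)
        (Fintype.card {e // e ∈ E}), tr u e = tr v e) → (A u ↔ A v) := by
    intro u v huv
    rw [hfar, hfar]
    refine exists_congr fun w => and_congr_right fun _ => ?_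
    exact expl_decides (oa (boxE d n)) (ob (boxE d n)) (some '' (sph d k)) (tr u) (tr v)
      le_rfl huv (some 0) (some w)
  have hineq := loop_ineq (closed_Ev E) (dec_GG hG) hx hx1 hs hs1 htree
    (Fintype.card {e // e ∈ E}) A hA
  rw [hS1, hS2] at hineq
  refine hineq.trans ?_
  have hnn : ∀ e : Ed d, 0 ≤ QQ x s E (fun n1 n2 c b1 b2 =>
      ind (Ev2 n k G e n1 n2 (n1 ∪ n2 ∪ c) b1 b2)) := by
    intro e
    rw [QQ_eq x s E (fun n1 n2 om b1 b2 => ind (Ev2 n k G e n1 n2 om b1 b2))]
    refine sum_nonneg fun p _ => mul_nonneg ?_ (ind_nonneg _)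
    have hber : ∀ b : Finset {e // e ∈ E}, 0 ≤ ber s b := fun b =>
      mul_nonneg (pow_nonneg hs _) (pow_nonneg (by linarith) _)
    unfold wt
    split_ifs
    · have h1 : 0 ≤ 1 - x ^ 2 := by nlinarith
      have := hber p.2.2.2.1
      have := hber p.2.2.2.2
      positivity
    · exact le_rfl
  have hsumE : ∑ e : {e // e ∈ E}, (if e.1 ∈ boxE d n then QQ x s E (fun n1 n2 c b1 b2 =>
        ind (Ev2 n k G (e : Ed d) n1 n2 (n1 ∪ n2 ∪ c) b1 b2)) else 0) ≤
      ∑ e ∈ boxE d n, QQ x s E (fun n1 n2 c b1 b2 =>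
        ind (Ev2 n k G e n1 n2 (n1 ∪ n2 ∪ c) b1 b2)) := by
    have h1 : ∑ e : {e // e ∈ E}, (if e.1 ∈ boxE d n then QQ x s E (fun n1 n2 c b1 b2 =>
        ind (Ev2 n k G (e : Ed d) n1 n2 (n1 ∪ n2 ∪ c) b1 b2)) else 0) =
        ∑ e ∈ E, (if e ∈ boxE d n then QQ x s E (fun n1 n2 c b1 b2 =>
        ind (Ev2 n k G e n1 n2 (n1 ∪ n2 ∪ c) b1 b2)) else 0) := by
      rw [← Finset.sum_attach E]
      rfl
    rw [h1, ← sum_filter]
    refine sum_le_sum_of_subset_of_nonneg ?_ fun e _ _ => hnn e
    intro e he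
    exact (mem_filter.1 he).2
  refine le_trans ?_ hsumE
  refine sum_le_sum fun e _ => ?_
  by_cases hbox : e.1 ∈ boxE d n
  · rw [if_pos hbox]
    rw [QQ_eq x s E (fun n1 n2 om b1 b2 => ind (Ev2 n k G (e : Ed d) n1 n2 om b1 b2))]
    refine sum_le_sum fun p _ => ?_
    have hwt0 : 0 ≤ wt (Ev E) x s p := by
      have hber : ∀ b : Finset {e // e ∈ E}, 0 ≤ ber s b := fun b =>
        mul_nonneg (pow_nonneg hs _) (pow_nonneg (by linarith) _)
      unfold wt
      split_ifs
      · have h1 : 0 ≤ 1 - x ^ 2 := by nlinarith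
        have := hber p.2.2.2.1
        have := hber p.2.2.2.2
        positivity
      · exact le_rfl
    split_ifs with hc
    · by_cases hz : wt (Ev E) x s p = 0
      · rw [hz, zero_mul]
      · obtain ⟨hc1, hc2, S, hS, b', hb', hA2⟩ := hc
        -- admissibility
        have hadm : Ev E p.1 ∧ Ev E p.2.1 ∧ p.1 ⊆ p.2.2.1 ∧ p.2.1 ⊆ p.2.2.1 := by
          by_contra hn
          apply hz
          unfold wt
          exact if_neg hn
        have hDe : (p.1 ∆ p.2.1) ⊆ p.2.2.1 := by
          intro e' he'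
          rw [mem_symmDiff] at he'
          rcases he' with he' | he'
          · exact hadm.2.2.1 he'.1
          · exact hadm.2.2.2 he'.1
        have hDe2 : Ev E (p.1 ∆ p.2.1) := (closed_Ev E).symm _ _ hadm.1 hadm.2.1
        have hgood : Ev2 n k G (e : Ed d) (em p.1) (em p.2.1) (em p.2.2.1) (em p.2.2.2.1)
            (em p.2.2.2.2) := by
          refine ⟨?_, hc2, ?_⟩
          · obtain ⟨_, ⟨v, hv, rfl⟩, h1⟩ := expl_touch (oa (boxE d n)) (ob (boxE d n))
              (some '' (sph d k)) (tr (c2 p)) _ e hc1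
            rw [oa_pos hbox, ob_pos hbox, oconn_iff, oconn_iff] at h1
            refine ⟨v, hv, ?_⟩
            have hsub : (↑(trc (c2 p) ∩ boxE d n) : Set (Ed d)) ⊆
                (↑(em p.2.1 ∪ em p.2.2.2.2) : Set (Ed d)) := by
              intro e' he'
              exact mem_coe.2 (mem_inter.1 (mem_coe.1 he')).1
            exact h1.imp (conn_mono hsub) (conn_mono hsub)
          · refine far_split (ω' := (↑(trc (p.1 ∆ xsum S, b')) : Set (Ed d))) ?_ hc2 hA2
            intro e' he'
            have he'' : e' ∈ em (p.1 ∆ xsum S) ∪ em b' := he'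
            rw [mem_union] at he''
            -- the set H
            have hxs : e' ∈ em (xsum S) →
                e' ∈ HH G (em p.2.2.1) (em p.1 ∆ em p.2.1) (e : Ed d) := by
              intro h1
              rw [mem_em] at h1
              obtain ⟨hE, h2⟩ := h1
              obtain ⟨g, hg, hg2⟩ := xsum_sub h2
              have hg3 := hS hg
              rw [mem_filter] at hg3
              obtain ⟨hg4, hg5⟩ := hg3
              unfold GG at hg4
              rw [if_pos ⟨hDe, hDe2⟩, mem_image] at hg4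
              obtain ⟨g', hg6, hg7⟩ := hg4
              right
              refine ⟨g', ?_, ?_, ?_⟩
              · rw [← em_symm]
                exact hg6
              · rw [← hg7, mem_dn] at hg5
                exact hg5
              · rw [← hg7, mem_dn] at hg2
                exact hg2
            rcases he'' with he'' | he''
            · rw [em_symm, mem_symmDiff] at he''
              rcases he'' with he'' | he''
              · left
                exact mem_coe.2 (mem_union_left _ he''.1)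
              · right
                exact hxs he''.1
            · rw [mem_em] at he''
              obtain ⟨hE, h2⟩ := he''
              by_cases h3 : (⟨e', hE⟩ : {e // e ∈ E}) = e
              · right
                left
                rw [← h3]
              · left
                have h4 := (hb' _ h3).1 h2
                exact mem_coe.2 (mem_union_right _ (mem_em.2 ⟨hE, h4⟩))
        rw [ind_true hgood, mul_one]
    · exact mul_nonneg hwt0 (ind_nonneg _)
  · rw [if_neg hbox]
    apply sum_nonpos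
    intro p _
    rw [if_neg]
    rintro ⟨hc1, _⟩
    obtain ⟨_, ⟨v, hv, rfl⟩, h1⟩ := expl_touch (oa (boxE d n)) (ob (boxE d n))
      (some '' (sph d k)) (tr (c2 p)) _ e hc1
    rw [oa_neg hbox, ob_neg hbox] at h1
    rcases h1 with h1 | h1
    · obtain ⟨q, hq, _⟩ := oconn_some _ h1
      exact absurd hq (by simp)
    · obtain ⟨q, hq, _⟩ := oconn_some _ h1
      exact absurd hq (by simp)

end Pool.Agent.Drt
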