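import Pool.Agent.Drt.Blocks
import Pool.Agent.Inv.Lim

/-! The events of the sum over chains. -/

namespace Pool.Agent.Drt

open Finset Pool.Agent.SRC Pool.Agent.Lcg

open scoped symmDiff

variable {d : ℕ}

/-- chains used in the sum -/
noncomputable def CH (a : ℕ) (w : Vx d) (m : ℕ) : Finset (ℕ → Vx d) :=
  fl (Inv.chn a w m) (fun u => (∀ i ∈ Finset.Icc 1 m, ∀ j ∈ Finset.Icc 1 m, u i = u j → i = j) ∧
    ∀ i, 1 ≤ i → i ≤ m → Lcg.near ((a : ℤ) + i) w (u i))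

open Classical in
/-- the sparse subset of a chain -/
noncomputable def JJ (ρ m : ℕ) (u : ℕ → Vx d) : Finset ℕ :=
  if h : ∀ i ∈ Finset.Icc 1 m, ∀ j ∈ Finset.Icc 1 m, u i = u j → i = j then
    Classical.choose (Inv.sparse u m (2 * ρ) h) else ∅

theorem JJ_spec (ρ m : ℕ) (u : ℕ → Vx d)
    (h : ∀ i ∈ Finset.Icc 1 m, ∀ j ∈ Finset.Icc 1 m, u i = u j → i = j) :
    JJ ρ m u ⊆ Finset.Icc 1 m ∧ m ≤ (2 * (2 * ρ) + 1) ^ d * (JJ ρ m u).card ∧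
      ∀ i ∈ JJ ρ m u, ∀ j ∈ JJ ρ m u, i ≠ j → ¬ Lcg.near ((2 * ρ : ℕ) : ℤ) (u i) (u j) := by
  unfold JJ
  rw [dif_pos h]
  exact Classical.choose_spec (Inv.sparse u m (2 * ρ) h)

/-- vertices of the boxes -/
def VV (K : ℤ) (ρ : ℕ) (u : ℕ → Vx d) (J : Finset ℕ) : Set (Vx d) :=
  {y | ∃ i ∈ J, Lcg.near (ρ : ℤ) (u i) (blk K y)}

/-- edges of the boxes -/
def UU (K : ℤ) (ρ : ℕ) (u : ℕ → Vx d) (J : Finset ℕ) : Set (Ed d) :=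
  {e | ∃ i ∈ J, e ∈ Ub K ρ (u i)}

/-- the large cube -/
def LL (K : ℤ) (t : ℕ) (w : Vx d) : Set (Vx d) := {y | Lcg.near (t : ℤ) w (blk K y)}

theorem UU_VV {K : ℤ} (hK : 0 < K) (ρ : ℕ) (u : ℕ → Vx d) (J : Finset ℕ) :
    UU K ρ u J ⊆ inn (VV K ρ u J) := by
  rintro e ⟨i, hi, he⟩
  rw [mem_Ub hK] at he
  exact ⟨⟨i, hi, he.1⟩, ⟨i, hi, he.2⟩⟩

theorem VV_LL {K : ℤ} {ρ a m : ℕ} {w : Vx d} {u : ℕ → Vx d} {J : Finset ℕ}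
    (hJ : J ⊆ Finset.Icc 1 m) (hu : ∀ i, 1 ≤ i → i ≤ m → Lcg.near ((a : ℤ) + i) w (u i)) :
    VV K ρ u J ⊆ LL K (ρ + a + 1 + m) w := by
  rintro y ⟨i, hi, h1⟩
  have h2 := Finset.mem_Icc.1 (hJ hi)
  have h3 := near_trans (hu i h2.1 h2.2) h1
  refine near_mono ?_ h3
  have h4 : (i : ℤ) ≤ m := by exact_mod_cast h2.2
  push_cast
  linarith

theorem UU_LL {K : ℤ} (hK : 0 < K) {ρ a m : ℕ} {w : Vx d} {u : ℕ → Vx d} {J : Finset ℕ}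
    (hJ : J ⊆ Finset.Icc 1 m) (hu : ∀ i, 1 ≤ i → i ≤ m → Lcg.near ((a : ℤ) + i) w (u i)) :
    UU K ρ u J ⊆ inn (LL K (ρ + a + 1 + m) w) := by
  intro e he
  have h1 := UU_VV hK ρ u J he
  exact ⟨VV_LL hJ hu h1.1, VV_LL hJ hu h1.2⟩

/-- far vertices -/
def TT (d n : ℕ) : Set (Vx d) := {v | ∃ i, (n : ℤ) ≤ |v i|}

/-- both copies, for one chain -/
def Big (K : ℤ) (ρ a m k : ℕ) (w : Vx d) (u : ℕ → Vx d) (X Z : Set (Vx d))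
    (Y1 Y2 : Set (Ed d)) : Prop :=
  E0 (UU K ρ u (JJ ρ m u)) (VV K ρ u (JJ ρ m u)) (LL K (ρ + a + 1 + m) w) X Z Y1 ∧
    ∃ y ∈ LL K (ρ + a + 1 + m) w, jn (Y2 \ inn (LL K (ρ + a + 1 + m) w)) (sph d k) y

theorem mem_CH_of {a m m' : ℕ} {Bad : Finset (Vx d)} {w : Vx d} {u : ℕ → Vx d}
    (h1 : Chn a Bad w m u) (h2 : ∀ i, 1 ≤ i → i ≤ m → ∀ j, 1 ≤ j → j ≤ m → u i = u j → i = j)
    (hm : m' ≤ m) : ∃ u' ∈ CH a w m', ∀ i, 1 ≤ i → i ≤ m' → u' i = u i := by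
  obtain ⟨u', h3, h4⟩ := Inv.exists_chn a w m' u (fun h => h1.2.1 (h.trans hm))
    (fun i h h' => h1.2.2 i h (lt_of_lt_of_le h' hm))
  refine ⟨u', ?_, h4⟩
  unfold CH
  rw [mem_fl]
  refine ⟨h3, fun i hi j hj hij => ?_, fun i hi hi' => ?_⟩
  · rw [Finset.mem_Icc] at hi hj
    rw [h4 i hi.1 hi.2, h4 j hj.1 hj.2] at hij
    exact h2 i hi.1 (hi.2.trans hm) j hj.1 (hj.2.trans hm) hij
  · rw [h4 i hi hi']
    exact h1.near i hi (hi'.trans hm)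

/-- the sum over chains covers the event -/
theorem cover {K : ℤ} (hK : 0 < K) {a ρ n k : ℕ} (hρ : 2 * (a + 1) ≤ ρ) {Bad : Finset (Vx d)}
    {e : Ed d} {Y1 Y2 : Set (Ed d)}
    (hS : ∃ y, jn Y1 {0} y ∧ (Lcg.near (2 * ((a : ℤ) + 1)) (blk K e.1) (blk K y) ∨
      ∃ u ∈ Bad, ∃ v ∈ Bad, Lcg.near ((a : ℤ) + 1) (blk K e.1) u ∧ SC Bad u v ∧
        Lcg.near ((a : ℤ) + 1) v (blk K y)))
    (hT : ∃ y, jn Y1 (TT d n) y ∧ (Lcg.near (2 * ((a : ℤ) + 1)) (blk K e.1) (blk K y) ∨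
      ∃ u ∈ Bad, ∃ v ∈ Bad, Lcg.near ((a : ℤ) + 1) (blk K e.1) u ∧ SC Bad u v ∧
        Lcg.near ((a : ℤ) + 1) v (blk K y)))
    (hfar : ∀ y ∈ TT d n, ¬ jn Y1 {0} y)
    (hk : ∃ y, (y = e.1 ∨ y = tip e) ∧ jn Y2 (sph d k) y) (R : ℕ) :
    (∃ m < R, ∃ u ∈ CH a (blk K e.1) m, (∀ i ∈ JJ ρ m u, u i ∈ Bad) ∧
      (Big K ρ a m k (blk K e.1) u {0} (TT d n) Y1 Y2 ∨
        Big K ρ a m k (blk K e.1) u (TT d n) {0} Y1 Y2)) ∨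
      ∃ u ∈ CH a (blk K e.1) R, ∀ i ∈ JJ ρ R u, u i ∈ Bad := by
  have ha : (0 : ℤ) ≤ a := Int.natCast_nonneg a
  have hρ' : 2 * ((a : ℤ) + 1) ≤ ρ := by exact_mod_cast hρ
  set P : Set (Vx d) := {p | ∃ y, jn Y1 {0} y ∧ blk K y = p} with hP
  set Q : Set (Vx d) := {p | ∃ y, jn Y1 (TT d n) y ∧ blk K y = p} with hQ
  have hP1 : ∃ r, Rch a ρ Bad (blk K e.1) P r := by
    obtain ⟨y, h1, h2⟩ := hS
    exact exists_level ha hρ' ⟨y, h1, rfl⟩ h2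
  have hQ1 : ∃ r, Rch a ρ Bad (blk K e.1) Q r := by
    obtain ⟨y, h1, h2⟩ := hT
    exact exists_level ha hρ' ⟨y, h1, rfl⟩ h2
  obtain ⟨m, u, h1, h2, h3, ⟨_, ⟨yP, hyP, rfl⟩, hyP'⟩, ⟨_, ⟨yQ, hyQ, rfl⟩, hyQ'⟩⟩ :=
    rstar ha hP1 hQ1
  by_cases hm : m < R
  · left
    obtain ⟨u', hu', hu2⟩ := mem_CH_of h1 h2 le_rfl
    have hu3 := hu'
    unfold CH at hu3
    rw [mem_fl] at hu3
    obtain ⟨_, hinj, hnear⟩ := hu3
    obtain ⟨hJ, _, _⟩ := JJ_spec ρ m u' hinj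
    refine ⟨m, hm, u', hu', fun i hi => ?_, ?_⟩
    · have h4 := Finset.mem_Icc.1 (hJ hi)
      rw [hu2 i h4.1 h4.2]
      exact h1.1 i h4.1 h4.2
    · have hcast : ((ρ + a + 1 + m : ℕ) : ℤ) = (ρ : ℤ) + a + 1 + m := by push_cast; ring
      have hLP : yP ∈ LL K (ρ + a + 1 + m) (blk K e.1) := by
        show Lcg.near ((ρ + a + 1 + m : ℕ) : ℤ) _ _
        rw [hcast]
        exact hyP'
      have hLQ : yQ ∈ LL K (ρ + a + 1 + m) (blk K e.1) := by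
        show Lcg.near ((ρ + a + 1 + m : ℕ) : ℤ) _ _
        rw [hcast]
        exact hyQ'
      have hB2 : ∃ y ∈ LL K (ρ + a + 1 + m) (blk K e.1),
          jn (Y2 \ inn (LL K (ρ + a + 1 + m) (blk K e.1))) (sph d k) y := by
        obtain ⟨y, hy, h5⟩ := hk
        refine first_hit h5 ?_
        show Lcg.near ((ρ + a + 1 + m : ℕ) : ℤ) _ _
        rw [hcast]
        have h0 : (0 : ℤ) ≤ ρ := Int.natCast_nonneg ρ
        have h0' : (0 : ℤ) ≤ m := Int.natCast_nonneg m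
        rcases hy with rfl | rfl
        · exact near_mono (by linarith) (near_refl le_rfl _)
        · rcases blk_tip hK e with h6 | h6
          · rw [h6]
            exact near_mono (by linarith) (near_refl le_rfl _)
          · rw [h6]
            exact near_mono (by linarith) (near_uv _ _)
      have hVm : ∀ X : Set (Vx d), (∀ i, 1 ≤ i → i ≤ m → ∀ p ∈ {p | ∃ y, jn Y1 X y ∧ blk K y = p},
          ¬ Lcg.near (ρ : ℤ) (u i) p) → ∀ y ∈ VV K ρ u' (JJ ρ m u'), ¬ jn Y1 X y := by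
        rintro X hX y ⟨i, hi, h5⟩ h6
        have h4 := Finset.mem_Icc.1 (hJ hi)
        rw [hu2 i h4.1 h4.2] at h5
        exact hX i h4.1 h4.2 _ ⟨y, h6, rfl⟩ h5
      rcases h3 with h3 | h3
      · left
        exact ⟨E0_in (UU_VV hK ρ u' _) hfar (hVm _ h3) ⟨yP, hLP, hyP⟩ ⟨yQ, hLQ, hyQ⟩, hB2⟩
      · right
        refine ⟨E0_in (UU_VV hK ρ u' _) ?_ (hVm _ h3) ⟨yQ, hLQ, hyQ⟩ ⟨yP, hLP, hyP⟩, hB2⟩
        rintro y hy ⟨x', hx', h5⟩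
        rw [Set.mem_singleton_iff] at hy
        subst hy
        exact hfar x' hx' ⟨0, rfl, conn_symm h5⟩
  · right
    obtain ⟨u', hu', hu2⟩ := mem_CH_of h1 h2 (not_lt.1 hm)
    have hu3 := hu'
    unfold CH at hu3
    rw [mem_fl] at hu3
    obtain ⟨_, hinj, hnear⟩ := hu3
    obtain ⟨hJ, _, _⟩ := JJ_spec ρ R u' hinj
    refine ⟨u', hu', fun i hi => ?_⟩
    have h4 := Finset.mem_Icc.1 (hJ hi)
    rw [hu2 i h4.1 h4.2]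
    exact h1.1 i h4.1 (h4.2.trans (not_lt.1 hm))

end Pool.Agent.Drt
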