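import Pool.Agent.Drt.BGb
import Pool.Agent.Inv.Adp

/-! The differential inequality from (FAC), (VIS), (U) and (GLUE). -/

namespace Pool.Agent.Drt

open Pool.Agent.SRC

/-- THE DIFFERENTIAL INEQUALITY -/
theorem di_of {d : ℕ} (hd : 1 ≤ d) {x : ℝ} (hx : 0 < x) (hx1 : x ≤ 1) (hF : S1.FAC d x)
    (hV : Bg.VIS d x) (hU : Bg.UU d (x ^ 2)) (hG : S1.GLUE d x) (a b : ℝ) (ha : 0 < a)
    (hab : a < b) (hb : b < 1) : Inv.DI d x a b :=
  Inv.DI_of hd x hx.le hx1 a b ha.le hb.le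
    (H1_of' hx.le hx1 ha.le hb.le (by norm_num : 6 ≤ 8)
      (BGall_of_BGP hx.le hx1 (Bg.bgp hd hx hx1 hF hV hU)))
    (Inv.H2_of_GLUE x a b ha hab hb hG)

end Pool.Agent.Drt
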