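import Pool.Agent.Drt.Swap

/-!
Exploration of the open clusters of a set `B` of vertices as a decision tree.
-/

namespace Pool.Agent.Drt

open Finset

set_option linter.unusedSectionVars false

variable {V E : Type*} [Fintype E] [DecidableEq E]

/-- one open step along an edge of `F` -/
def Adj (a b : E → V) (F : Set E) (y : E → Bool) (x z : V) : Prop :=
  ∃ e ∈ F, y e = true ∧ ((a e = x ∧ b e = z) ∨ (a e = z ∧ b e = x))

/-- connected by open edges of `F` -/
def Conn (a b : E → V) (F : Set E) (y : E → Bool) (x z : V) : Prop :=
  Relation.ReflTransGen (Adj a b F y) x z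

theorem Adj.symm {a b : E → V} {F : Set E} {y : E → Bool} {x z : V} (h : Adj a b F y x z) :
    Adj a b F y z x := by
  obtain ⟨e, he, hy, h1 | h1⟩ := h
  · exact ⟨e, he, hy, Or.inr h1⟩
  · exact ⟨e, he, hy, Or.inl h1⟩

theorem Conn.symm {a b : E → V} {F : Set E} {y : E → Bool} {x z : V} (h : Conn a b F y x z) :
    Conn a b F y z x := by
  unfold Conn at *
  induction h with
  | refl => exact Relation.ReflTransGen.refl
  | tail _ h2 ih => exact Relation.ReflTransGen.head h2.symm ih

theorem Conn.trans {a b : E → V} {F : Set E} {y : E → Bool} {x z t : V} (h : Conn a b F y x z)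
    (h' : Conn a b F y z t) : Conn a b F y x t := Relation.ReflTransGen.trans h h'

theorem Conn.mono {a b : E → V} {F F' : Set E} {y y' : E → Bool} {x z : V}
    (hF : ∀ e ∈ F, y e = true → e ∈ F' ∧ y' e = true) (h : Conn a b F y x z) :
    Conn a b F' y' x z := by
  unfold Conn at *
  induction h with
  | refl => exact Relation.ReflTransGen.refl
  | tail _ h2 ih =>
    obtain ⟨e, he, hy, h1⟩ := h2
    exact Relation.ReflTransGen.tail ih ⟨e, (hF e he hy).1, (hF e he hy).2, h1⟩

/-- candidates for the next query: edges not in `F` touching the explored cluster of `B` -/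
def cand (a b : E → V) (B : Set V) (F : Finset E) (y : E → Bool) : Set E :=
  {e | e ∉ F ∧ ∃ s ∈ B, Conn a b (F : Set E) y s (a e) ∨ Conn a b (F : Set E) y s (b e)}

theorem cand_congr {a b : E → V} {B : Set V} {F : Finset E} {y y' : E → Bool}
    (h : ∀ e ∈ F, y e = y' e) : cand a b B F y = cand a b B F y' := by
  have hc : ∀ {y y' : E → Bool}, (∀ e ∈ F, y e = y' e) → ∀ s t, Conn a b (F : Set E) y s t →
      Conn a b (F : Set E) y' s t := by
    intro y y' h s t hst
    refine hst.mono fun e he hy => ⟨he, ?_⟩
    rw [← h e he]
    exact hy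
  ext e
  unfold cand
  constructor
  · rintro ⟨h1, s, hs, h2⟩
    exact ⟨h1, s, hs, h2.imp (hc h _ _) (hc h _ _)⟩
  · rintro ⟨h1, s, hs, h2⟩
    exact ⟨h1, s, hs, h2.imp (hc (fun e he => (h e he).symm) _ _)
      (hc (fun e he => (h e he).symm) _ _)⟩

open Classical in
/-- add one element of `s` -/
noncomputable def add (F : Finset E) (s : Set E) : Finset E :=
  if h : s.Nonempty then insert h.choose F else F

/-- the next set of queried edges -/
noncomputable def nxt (a b : E → V) (B : Set V) (F : Finset E) (y : E → Bool) : Finset E :=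
  add F (cand a b B F y)

/-- the exploration -/
noncomputable def expl (a b : E → V) (B : Set V) (y : E → Bool) : ℕ → Finset E
  | 0 => ∅
  | t + 1 => nxt a b B (expl a b B y t) y

theorem nxt_cases (a b : E → V) (B : Set V) (F : Finset E) (y : E → Bool) :
    (nxt a b B F y = F ∧ cand a b B F y = ∅) ∨
      ∃ e, e ∈ cand a b B F y ∧ nxt a b B F y = insert e F := by
  classical
  unfold nxt add
  by_cases h : (cand a b B F y).Nonempty
  · right
    rw [dif_pos h]
    exact ⟨h.choose, h.choose_spec, rfl⟩
  · left
    rw [dif_neg h]
    exact ⟨rfl, Set.not_nonempty_iff_eq_empty.1 h⟩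

theorem nxt_congr {a b : E → V} {B : Set V} {F : Finset E} {y y' : E → Bool}
    (h : ∀ e ∈ F, y e = y' e) : nxt a b B F y = nxt a b B F y' := by
  unfold nxt
  rw [cand_congr (a := a) (b := b) (B := B) h]

theorem expl_mono (a b : E → V) (B : Set V) (y : E → Bool) {s t : ℕ} (hst : s ≤ t) :
    expl a b B y s ⊆ expl a b B y t := by
  induction t, hst using Nat.le_induction with
  | base => exact Subset.rfl
  | succ n _ ih =>
    refine ih.trans ?_
    show expl a b B y n ⊆ nxt a b B (expl a b B y n) y
    rcases nxt_cases a b B (expl a b B y n) y with h | ⟨e, _, h⟩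
    · rw [h.1]
    · rw [h]
      exact subset_insert _ _

theorem expl_congr {a b : E → V} {B : Set V} {y y' : E → Bool} {t : ℕ}
    (h : ∀ e ∈ expl a b B y t, y e = y' e) {s : ℕ} (hs : s ≤ t + 1) :
    expl a b B y' s = expl a b B y s := by
  induction s with
  | zero => rfl
  | succ s ih =>
    have ih' := ih (by omega)
    show nxt a b B (expl a b B y' s) y' = nxt a b B (expl a b B y s) y
    rw [ih']
    refine (nxt_congr fun e he => ?_).symm
    exact h e (expl_mono a b B y (by omega) he)

theorem tree_expl {Ω : Type*} [Fintype Ω] (a b : E → V) (B : Set V) (val : Ω → E → Bool) :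
    Tree val (fun t u => expl a b B (val u) t) where
  zero := fun _ => rfl
  step := by
    intro t u
    show nxt a b B (expl a b B (val u) t) (val u) = _ ∨ _
    rcases nxt_cases a b B (expl a b B (val u) t) (val u) with h | ⟨e, he, h⟩
    · exact Or.inl h.1
    · exact Or.inr ⟨e, he.1, h⟩
  loc := by
    intro t u v huv
    exact expl_congr huv le_rfl

/-- every queried edge touches the open cluster of `B` -/
theorem expl_touch (a b : E → V) (B : Set V) (y : E → Bool) (t : ℕ) :
    ∀ e ∈ expl a b B y t, ∃ s ∈ B, Conn a b Set.univ y s (a e) ∨ Conn a b Set.univ y s (b e) := by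
  induction t with
  | zero => intro e he; exact absurd he (notMem_empty e)
  | succ t ih =>
    intro e he
    change e ∈ nxt a b B (expl a b B y t) y at he
    rcases nxt_cases a b B (expl a b B y t) y with h | ⟨e', he', h⟩
    · rw [h.1] at he
      exact ih e he
    · rw [h, mem_insert] at he
      rcases he with rfl | he
      · obtain ⟨_, s, hs, h2⟩ := he'
        exact ⟨s, hs, h2.imp (Conn.mono fun _ _ hy => ⟨Set.mem_univ _, hy⟩)
          (Conn.mono fun _ _ hy => ⟨Set.mem_univ _, hy⟩)⟩
      · exact ih e he

/-- after `card E` steps there are no candidates left -/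
theorem expl_final (a b : E → V) (B : Set V) (y : E → Bool) {t : ℕ} (ht : Fintype.card E ≤ t) :
    cand a b B (expl a b B y t) y = ∅ := by
  -- either the size grows or the exploration has stopped
  have key : ∀ t, cand a b B (expl a b B y t) y = ∅ ∨ t ≤ (expl a b B y t).card := by
    intro t
    induction t with
    | zero => right; exact Nat.zero_le _
    | succ t ih =>
      rcases ih with h | h
      · left
        have h1 : expl a b B y (t + 1) = expl a b B y t := by
          show nxt a b B (expl a b B y t) y = _
          rcases nxt_cases a b B (expl a b B y t) y with h2 | ⟨e, he, _⟩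
          · exact h2.1
          · rw [h] at he
            exact absurd he (Set.notMem_empty e)
        rw [h1]
        exact h
      · rcases nxt_cases a b B (expl a b B y t) y with h2 | ⟨e, he, h2⟩
        · left
          have h1 : expl a b B y (t + 1) = expl a b B y t := h2.1
          rw [h1]
          exact h2.2
        · right
          have h1 : expl a b B y (t + 1) = insert e (expl a b B y t) := h2
          rw [h1, card_insert_of_notMem he.1]
          omega
  rcases key t with h | h
  · exact h
  · have h1 : (expl a b B y t).card ≤ Fintype.card E := card_le_univ _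
    have h2 : expl a b B y t = univ := by
      rw [← card_eq_iff_eq_univ]
      omega
    rw [h2]
    ext e
    simp [cand]

/-- at the end all edges touching the open cluster of `B` have been queried -/
theorem expl_complete (a b : E → V) (B : Set V) (y : E → Bool) {t : ℕ}
    (ht : Fintype.card E ≤ t) {s z : V} (hs : s ∈ B) (h : Conn a b Set.univ y s z) :
    Conn a b (expl a b B y t : Set E) y s z := by
  have hf := expl_final a b B y ht
  unfold Conn at h ⊢
  induction h with
  | refl => exact Relation.ReflTransGen.refl
  | @tail p q _ h2 ih =>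
    obtain ⟨e, _, hy, h1⟩ := h2
    have he : e ∈ expl a b B y t := by
      by_contra hcon
      have : e ∈ cand a b B (expl a b B y t) y := by
        refine ⟨hcon, s, hs, ?_⟩
        rcases h1 with h1 | h1
        · left; rw [h1.1]; exact ih
        · right; rw [h1.2]; exact ih
      rw [hf] at this
      exact Set.notMem_empty e this
    exact Relation.ReflTransGen.tail ih ⟨e, he, hy, h1⟩

theorem expl_complete' (a b : E → V) (B : Set V) (y : E → Bool) {t : ℕ}
    (ht : Fintype.card E ≤ t) {s x z : V} (hs : s ∈ B) (hsx : Conn a b Set.univ y s x)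
    (h : Conn a b Set.univ y x z) :
    Conn a b (expl a b B y t : Set E) y x z :=
  (expl_complete a b B y ht hs hsx).symm.trans (expl_complete a b B y ht hs (hsx.trans h))

/-- The event `x` is connected to `z` through `B` is decided by the exploration. -/
theorem expl_decides (a b : E → V) (B : Set V) (y y' : E → Bool) {t : ℕ}
    (ht : Fintype.card E ≤ t) (h : ∀ e ∈ expl a b B y t, y e = y' e) (x z : V) :
    (∃ s ∈ B, Conn a b Set.univ y s x ∧ Conn a b Set.univ y s z) ↔
      (∃ s ∈ B, Conn a b Set.univ y' s x ∧ Conn a b Set.univ y' s z) := by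
  have hQ : expl a b B y' t = expl a b B y t := expl_congr h (by omega)
  have aux : ∀ {y y' : E → Bool}, (∀ e ∈ expl a b B y t, y e = y' e) → ∀ s ∈ B, ∀ q,
      Conn a b Set.univ y s q → Conn a b Set.univ y' s q := by
    intro y y' h s hs q hq
    refine (expl_complete a b B y ht hs hq).mono fun e he hy => ⟨Set.mem_univ _, ?_⟩
    rw [← h e he]
    exact hy
  have h' : ∀ e ∈ expl a b B y' t, y' e = y e := by
    intro e he
    rw [hQ] at he
    exact (h e he).symm
  constructor
  · rintro ⟨s, hs, h1, h2⟩
    exact ⟨s, hs, aux h s hs x h1, aux h s hs z h2⟩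
  · rintro ⟨s, hs, h1, h2⟩
    exact ⟨s, hs, aux h' s hs x h1, aux h' s hs z h2⟩

end Pool.Agent.Drt
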