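import Pool.Agent.Drt.Cover
import Pool.Agent.Drt.Box

/-! The output of the swap argument, `Inv.H1`, from (BG). -/

namespace Pool.Agent.Drt

open Finset Pool.Agent.SRC Pool.Agent.Lcg

open scoped symmDiff

variable {d : ℕ}

theorem nm_sph {k : ℕ} {v : Vx d} (h : v ∈ sph d k) : Inv.nm v = k := by
  obtain ⟨h1, i, hi⟩ := h
  apply le_antisymm
  · unfold Inv.nm
    refine Finset.sup_le fun j _ => ?_
    have := h1 j
    rw [Int.abs_eq_natAbs] at this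
    exact_mod_cast this
  · have h2 := Inv.le_nm v i
    rw [Int.abs_eq_natAbs] at hi
    have hi' : (v i).natAbs = k := by exact_mod_cast hi
    omega

theorem LL_cube {K : ℕ} (hK : 0 < K) (ρ a m : ℕ) (v y : Vx d)
    (h : y ∈ LL K (ρ + a + 1 + m) (blk K v)) :
    y ∈ Glu.cube v ((K * (ρ + a + 2) * (m + 1) : ℕ) : ℤ) := by
  rw [Glu.mem_cube]
  intro i
  have h1 := near_cube hK (t := ρ + a + 1 + m) h i
  refine h1.trans ?_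
  push_cast
  have h2 : (0 : ℤ) ≤ K := Int.natCast_nonneg K
  have h3 : (0 : ℤ) ≤ ρ := Int.natCast_nonneg ρ
  have h4 : (0 : ℤ) ≤ a := Int.natCast_nonneg a
  have h5 : (0 : ℤ) ≤ m := Int.natCast_nonneg m
  have h6 : (ρ : ℤ) + a + 1 + m + 1 ≤ (ρ + a + 2) * (m + 1) := by
    nlinarith [mul_nonneg h3 h5, mul_nonneg h4 h5]
  calc (K : ℤ) * (ρ + a + 1 + m + 1) ≤ K * ((ρ + a + 2) * (m + 1)) :=
        mul_le_mul_of_nonneg_left h6 h2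
    _ = _ := by ring

theorem inter_three (n1 n2 c U : Finset (Ed d)) :
    (n1 ∪ n2 ∪ c) ∩ U = (n1 ∩ U) ∪ (n2 ∩ U) ∪ (c ∩ U) := by
  ext e
  simp only [mem_inter, mem_union]
  tauto

theorem inter_symm (n1 n2 U : Finset (Ed d)) : (n1 ∆ n2) ∩ U = (n1 ∩ U) ∆ (n2 ∩ U) := by
  ext e
  simp only [mem_inter, mem_symmDiff]
  tauto

/-- the position of the boxes of a chain -/
def Pos (K : ℤ) (ρ N : ℕ) (lo hi z : Vx d) : Prop :=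
  Ub K ρ z ⊆ boxE d N ∧ z ∈ Finset.Icc lo hi ∧ ∀ j, z + uv j ∈ Finset.Icc lo hi

section terms

variable {x s : ℝ} {K : ℕ} {a ρ : ℕ} {l : ℤ} {g : Finset (Ed d) → Vx d → Vx d} {ε : ℝ}
  {lo hi : Vx d} {N n m k : ℕ}

theorem bad_eq (hK : 0 < K) (hρ : 2 * (a + 1) ≤ ρ) (hg : LocG K ρ g) (J : Finset ℕ)
    (u : ℕ → Vx d) (n1 n2 c : Finset (Ed d)) :
    ∏ i ∈ J, ind (u i ∈ BadG K a l lo hi g (n1 ∪ n2 ∪ c) (n1 ∆ n2)) =
      ∏ i ∈ J, (fun i n1 n2 c => ind (u i ∈ BadG K a l lo hi g (n1 ∪ n2 ∪ c) (n1 ∆ n2))) i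
        (n1 ∩ Ub K ρ (u i)) (n2 ∩ Ub K ρ (u i)) (c ∩ Ub K ρ (u i)) := by
  refine prod_congr rfl fun i _ => ind_congr ?_
  have hK' : (0 : ℤ) < K := by exact_mod_cast hK
  have ha : (a : ℤ) ≤ ρ := by exact_mod_cast (by omega : a ≤ ρ)
  rw [bad_local hK' ha hg, inter_three, inter_symm]

theorem term_le (hx : 0 ≤ x) (hx1 : x ≤ 1) (hs : 0 ≤ s) (hs1 : s ≤ 1) (hK : 0 < K)
    (hρ : 2 * (a + 1) ≤ ρ) (hg : LocG K ρ g) (hε : 0 ≤ ε) (hB : BGH d x K a l ρ g ε)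
    (e : Ed d) {u : ℕ → Vx d} (hu : u ∈ CH a (blk K e.1) m)
    (hpos : ∀ i, 1 ≤ i → i ≤ m → Pos K ρ N lo hi (u i)) (X Z : Set (Vx d))
    (hXZ : (X = {0} ∧ Z = TT d n) ∨ (X = TT d n ∧ Z = {0})) :
    QQ x s (boxE d N) (fun n1 n2 c b1 b2 =>
        ind (Big K ρ a m k (blk K e.1) u X Z (↑(n1 ∪ b1) : Set (Ed d)) (↑(n2 ∪ b2) : Set (Ed d))) *
          ∏ i ∈ JJ ρ m u, ind (u i ∈ BadG K a l lo hi g (n1 ∪ n2 ∪ c) (n1 ∆ n2))) ≤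
      ε ^ (JJ ρ m u).card *
        (EL (loopM x) (boxE d N) 0 (fun η => EB s (boxE d N)
            (Inv.em n (K * (ρ + a + 2) * (m + 1)) e.1 η)) *
          EL (loopM x) (boxE d N) 0 (fun η => EB s (boxE d N)
            (Inv.hb k (K * (ρ + a + 2) * (m + 1)) e.1 η))) := by
  have hK' : (0 : ℤ) < K := by exact_mod_cast hK
  unfold CH at hu
  rw [mem_fl] at hu
  obtain ⟨_, hinj, hnear⟩ := hu
  obtain ⟨hJ, _, hsep⟩ := JJ_spec ρ m u hinj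
  set J := JJ ρ m u with hJdef
  set L := LL K (ρ + a + 1 + m) (blk K e.1) with hL
  set F : Finset (Ed d) → Finset (Ed d) → ℝ := fun η b =>
    ind (E0 (UU K ρ u J) (VV K ρ u J) L X Z (↑(η ∪ b) : Set (Ed d))) with hF
  set H : Finset (Ed d) → Finset (Ed d) → ℝ := fun η b =>
    ind (∃ y ∈ L, jn ((↑(η ∪ b) : Set (Ed d)) \ inn L) (sph d k) y) with hH
  have hUL : UU K ρ u J ⊆ inn L := UU_LL hK' hJ hnear
  have hrem : ∀ i ∈ J, ∀ η b : Finset (Ed d), (↑(η ∪ b) : Set (Ed d)) \ UU K ρ u J =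
      (↑((η \ Ub K ρ (u i)) ∪ b) : Set (Ed d)) \ UU K ρ u J := by
    intro i hi η b
    ext f
    simp only [Set.mem_sdiff, mem_coe, mem_union, Finset.mem_sdiff]
    constructor
    · rintro ⟨h1, h2⟩
      refine ⟨h1.imp (fun h3 => ⟨h3, fun h4 => h2 ⟨i, hi, h4⟩⟩) id, h2⟩
    · rintro ⟨h1, h2⟩
      exact ⟨h1.imp (fun h3 => h3.1) id, h2⟩
  have h1 := QQ_prod (x := x) (s := s) hx hx1 hs hs1 (boxE d N) J (fun i => Ub K ρ (u i))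
    (fun i hiJ => (hpos i (Finset.mem_Icc.1 (hJ hiJ)).1 (Finset.mem_Icc.1 (hJ hiJ)).2).1)
    (fun i hi j hj hij => Ub_disj hK' ρ (hsep i hi j hj hij)) F H
    (fun _ _ => ind_nonneg _) (fun _ _ => ind_nonneg _)
    (fun i hi η b => ind_congr (E0_congr hUL (hrem i hi η b)))
    (fun i hi η b => by
      have h2 : (↑(η ∪ b) : Set (Ed d)) \ inn L =
          (↑((η \ Ub K ρ (u i)) ∪ b) : Set (Ed d)) \ inn L := by
        ext f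
        simp only [Set.mem_sdiff, mem_coe, mem_union, Finset.mem_sdiff]
        constructor
        · rintro ⟨h1, h2⟩
          refine ⟨h1.imp (fun h3 => ⟨h3, fun h4 => h2 (hUL ⟨i, hi, h4⟩)⟩) id, h2⟩
        · rintro ⟨h1, h2⟩
          exact ⟨h1.imp (fun h3 => h3.1) id, h2⟩
      simp only [hH]
      rw [h2])
    (fun i n1 n2 c => ind (u i ∈ BadG K a l lo hi g (n1 ∪ n2 ∪ c) (n1 ∆ n2)))
    (fun _ _ _ _ _ => ind_nonneg _) hε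
    (fun i hiJ S1 S2 hS1 hS2 => by
      obtain ⟨_, h3, h4⟩ := hpos i (Finset.mem_Icc.1 (hJ hiJ)).1 (Finset.mem_Icc.1 (hJ hiJ)).2
      exact hB lo hi (u i) h3 h4 S1 S2 hS1 hS2)
  have h2 : (fun n1 n2 c b1 b2 : Finset (Ed d) =>
        ind (Big K ρ a m k (blk K e.1) u X Z (↑(n1 ∪ b1) : Set (Ed d)) (↑(n2 ∪ b2) : Set (Ed d))) *
          ∏ i ∈ J, ind (u i ∈ BadG K a l lo hi g (n1 ∪ n2 ∪ c) (n1 ∆ n2))) =
      (fun n1 n2 c b1 b2 => F n1 b1 * H n2 b2 * ∏ i ∈ J,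
        (fun i n1 n2 c => ind (u i ∈ BadG K a l lo hi g (n1 ∪ n2 ∪ c) (n1 ∆ n2))) i
          (n1 ∩ Ub K ρ (u i)) (n2 ∩ Ub K ρ (u i)) (c ∩ Ub K ρ (u i))) := by
    funext n1 n2 c b1 b2
    rw [bad_eq hK hρ hg]
    unfold Big
    rw [ind_and]
  rw [h2]
  refine h1.trans (mul_le_mul_of_nonneg_left ?_ (pow_nonneg hε _))
  have hm0 : 0 ≤ (loopM x).a := hx
  have hm1 : 0 ≤ (loopM x).b := zero_le_one
  have hEL0 : ∀ f : Finset (Ed d) → Finset (Ed d) → ℝ, (∀ η b, 0 ≤ f η b) →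
      0 ≤ EL (loopM x) (boxE d N) 0 (fun η => EB s (boxE d N) (f η)) := by
    intro f hf
    refine EL_nonneg _ hm0 hm1 _ _ _ fun η _ => ?_
    have h := EB_mono s hs hs1 (boxE d N) (fun _ => 0) (f η) (fun b _ => hf η b)
    rwa [EB_const] at h
  refine mul_le_mul ?_ ?_ (hEL0 _ fun _ _ => ind_nonneg _) (hEL0 _ fun _ _ => ind_nonneg _)
  · refine EL_mono _ hm0 hm1 _ _ _ _ fun η _ => EB_mono s hs hs1 _ _ _ fun b _ => ind_mono ?_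
    intro h
    obtain ⟨h3, ⟨y4, hy4, h4⟩, ⟨y5, hy5, h5⟩⟩ := E0_out (UU_VV hK' ρ u J) h
    have hy4' := LL_cube hK ρ a m e.1 y4 hy4
    have hy5' := LL_cube hK ρ a m e.1 y5 hy5
    rcases hXZ with ⟨rfl, rfl⟩ | ⟨rfl, rfl⟩
    · refine ⟨?_, ⟨y4, hy4', ?_⟩, ⟨y5, hy5', ?_⟩⟩
      · rintro ⟨v, hv, i, hi⟩
        exact h3 v ⟨i, by simpa using hi⟩ ⟨0, rfl, hv⟩
      · obtain ⟨z, hz, h6⟩ := h4
        rw [Set.mem_singleton_iff] at hz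
        subst hz
        exact h6
      · obtain ⟨z, hz, h6⟩ := h5
        exact ⟨z, hz, conn_symm h6⟩
    · refine ⟨?_, ⟨y5, hy5', ?_⟩, ⟨y4, hy4', ?_⟩⟩
      · rintro ⟨v, hv, i, hi⟩
        exact h3 0 rfl ⟨v, ⟨i, by simpa using hi⟩, conn_symm hv⟩
      · obtain ⟨z, hz, h6⟩ := h5
        rw [Set.mem_singleton_iff] at hz
        subst hz
        exact h6
      · obtain ⟨z, hz, h6⟩ := h4
        exact ⟨z, hz, conn_symm h6⟩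
  · refine EL_mono _ hm0 hm1 _ _ _ _ fun η _ => EB_mono s hs hs1 _ _ _ fun b _ => ind_mono ?_
    rintro ⟨y, hy, z, hz, h3⟩
    exact ⟨y, LL_cube hK ρ a m e.1 y hy, z, conn_symm (conn_mono (fun _ h => h.1) h3), nm_sph hz⟩

theorem tail_le (hx : 0 ≤ x) (hx1 : x ≤ 1) (hs : 0 ≤ s) (hs1 : s ≤ 1) (hK : 0 < K)
    (hρ : 2 * (a + 1) ≤ ρ) (hg : LocG K ρ g) (hε : 0 ≤ ε) (hB : BGH d x K a l ρ g ε)
    (e : Ed d) {u : ℕ → Vx d} (hu : u ∈ CH a (blk K e.1) m)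
    (hpos : ∀ i, 1 ≤ i → i ≤ m → Pos K ρ N lo hi (u i)) :
    QQ x s (boxE d N) (fun n1 n2 c _ _ =>
        ∏ i ∈ JJ ρ m u, ind (u i ∈ BadG K a l lo hi g (n1 ∪ n2 ∪ c) (n1 ∆ n2))) ≤
      ε ^ (JJ ρ m u).card * ZZ (loopM x) (boxE d N) 0 ^ 2 := by
  have hK' : (0 : ℤ) < K := by exact_mod_cast hK
  unfold CH at hu
  rw [mem_fl] at hu
  obtain ⟨_, hinj, hnear⟩ := hu
  obtain ⟨hJ, _, hsep⟩ := JJ_spec ρ m u hinj
  set J := JJ ρ m u with hJdef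
  have h1 := QQ_prod (x := x) (s := s) hx hx1 hs hs1 (boxE d N) J (fun i => Ub K ρ (u i))
    (fun i hiJ => (hpos i (Finset.mem_Icc.1 (hJ hiJ)).1 (Finset.mem_Icc.1 (hJ hiJ)).2).1)
    (fun i hi j hj hij => Ub_disj hK' ρ (hsep i hi j hj hij)) (fun _ _ => 1) (fun _ _ => 1)
    (fun _ _ => zero_le_one) (fun _ _ => zero_le_one) (fun _ _ _ _ => rfl) (fun _ _ _ _ => rfl)
    (fun i n1 n2 c => ind (u i ∈ BadG K a l lo hi g (n1 ∪ n2 ∪ c) (n1 ∆ n2)))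
    (fun _ _ _ _ _ => ind_nonneg _) hε
    (fun i hiJ S1 S2 hS1 hS2 => by
      obtain ⟨_, h3, h4⟩ := hpos i (Finset.mem_Icc.1 (hJ hiJ)).1 (Finset.mem_Icc.1 (hJ hiJ)).2
      exact hB lo hi (u i) h3 h4 S1 S2 hS1 hS2)
  have h2 : (fun n1 n2 c _ _ : Finset (Ed d) =>
          ∏ i ∈ J, ind (u i ∈ BadG K a l lo hi g (n1 ∪ n2 ∪ c) (n1 ∆ n2))) =
      (fun n1 n2 c _ _ => 1 * 1 * ∏ i ∈ J,
        (fun i n1 n2 c => ind (u i ∈ BadG K a l lo hi g (n1 ∪ n2 ∪ c) (n1 ∆ n2))) i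
          (n1 ∩ Ub K ρ (u i)) (n2 ∩ Ub K ρ (u i)) (c ∩ Ub K ρ (u i))) := by
    funext n1 n2 c b1 b2
    rw [bad_eq hK hρ hg, mul_one, one_mul]
  rw [h2]
  refine h1.trans (le_of_eq ?_)
  have h3 : EL (loopM x) (boxE d N) 0 (fun _ => EB s (boxE d N) (fun _ => 1)) =
      ZZ (loopM x) (boxE d N) 0 := by
    unfold ZZ
    congr 1
    funext η
    exact EB_const _ _ _
  rw [h3, sq]

end terms

end Pool.Agent.Drt
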