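import Pool.Agent.Drt.H1

/-! `Inv.H1` from (BG): the sum. -/

namespace Pool.Agent.Drt

open Finset Pool.Agent.SRC Pool.Agent.Lcg

open scoped symmDiff

variable {d : ℕ}

section edge

variable {x s : ℝ} {K : ℕ} {a ρ : ℕ} {l : ℤ} {g : Finset (Ed d) → Vx d → Vx d}
  {N n k R : ℕ}

/-- the base of the geometric series -/
noncomputable def dl (d : ℕ) : ℝ := 1 / (2 * 3 ^ d)

theorem dl_pos (d : ℕ) : 0 < dl d := by
  unfold dl
  positivity

theorem dl_le (d : ℕ) : dl d ≤ 1 := by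
  unfold dl
  rw [div_le_one (by positivity)]
  have : (1 : ℝ) ≤ 3 ^ d := one_le_pow₀ (by norm_num)
  linarith

theorem card_CH (a m : ℕ) (w : Vx d) :
    ((CH a w m).card : ℝ) * dl d ^ m ≤ (2 * a + 3) ^ d * (1 / 2) ^ m := by
  have h1 : (CH a w m).card ≤ (2 * a + 3) ^ d * (3 ^ d) ^ m := by
    unfold CH
    refine (card_le_card (fl_subset _ _)).trans ((Inv.card_chn a w m).trans ?_)
    exact Nat.mul_le_mul_left _ (Nat.pow_le_pow_right (by positivity) (Nat.sub_le m 1))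
  have h2 : ((CH a w m).card : ℝ) ≤ (2 * a + 3) ^ d * (3 ^ d) ^ m := by exact_mod_cast h1
  calc ((CH a w m).card : ℝ) * dl d ^ m ≤ (2 * a + 3) ^ d * (3 ^ d) ^ m * dl d ^ m :=
        mul_le_mul_of_nonneg_right h2 (pow_nonneg (dl_pos d).le _)
    _ = (2 * a + 3) ^ d * (3 ^ d * dl d) ^ m := by rw [mul_assoc, ← mul_pow]
    _ = _ := by
      congr 2
      unfold dl
      field_simp

theorem eps_pow {M c m : ℕ} (h : m ≤ M * c) : (dl d ^ M) ^ c ≤ dl d ^ m := by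
  rw [← pow_mul]
  exact pow_le_pow_of_le_one (dl_pos d).le (dl_le d) h

theorem edge_le (hx : 0 ≤ x) (hx1 : x ≤ 1) (hs : 0 ≤ s) (hs1 : s ≤ 1) (hK : 0 < K)
    (hρ : 2 * (a + 1) ≤ ρ) (hg : LocG K ρ g)
    (hB : BGH d x K a l ρ g (dl d ^ ((2 * (2 * ρ) + 1) ^ d)))
    (hN : K * (n + a + R + ρ + 2) ≤ N)
    (G : Finset (Ed d) → Finset (Ed d) → Finset (Finset (Ed d)))
    (hG : ∀ om De, om ⊆ boxE d N → De ⊆ om → bd De = 0 →
        (∀ h ∈ G om De, h ⊆ om ∧ bd h = 0) ∧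
        (∀ e, (e ∈ De ↔ Odd ((G om De).filter (fun h => e ∈ h)).card)) ∧
        ∀ h ∈ G om De, ∃ z ∈ Finset.Icc (fun _ => -(N : ℤ) / K : Vx d) (fun _ => (N : ℤ) / K),
          ∀ e ∈ h,
          (∃ u, SC (BadG K a l (fun _ => -(N : ℤ) / K : Vx d) (fun _ => (N : ℤ) / K) g om De) z u ∧
            Lcg.near ((a : ℤ) + 1) u (blk K e.1)) ∧
          ∃ u, SC (BadG K a l (fun _ => -(N : ℤ) / K : Vx d) (fun _ => (N : ℤ) / K) g om De) z u ∧
            Lcg.near ((a : ℤ) + 1) u (blk K (tip e)))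
    (e : Ed d) (he : e ∈ boxE d n) :
    QQ x s (boxE d N) (fun n1 n2 c b1 b2 => ind (Ev2 n k G e n1 n2 (n1 ∪ n2 ∪ c) b1 b2)) ≤
      ∑ m ∈ Finset.range R, 2 * (2 * a + 3) ^ d * (1 / 2) ^ m *
        (EL (loopM x) (boxE d N) 0 (fun η => EB s (boxE d N)
            (Inv.em n (K * (ρ + a + 2) * (m + 1)) e.1 η)) *
          EL (loopM x) (boxE d N) 0 (fun η => EB s (boxE d N)
            (Inv.hb k (K * (ρ + a + 2) * (m + 1)) e.1 η))) +
      (2 * a + 3) ^ d * (1 / 2) ^ R * ZZ (loopM x) (boxE d N) 0 ^ 2 := by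
  classical
  have hK' : (0 : ℤ) < K := by exact_mod_cast hK
  set lo : Vx d := fun _ => -(N : ℤ) / K with hlo
  set hi : Vx d := fun _ => (N : ℤ) / K with hhi
  set ε := dl d ^ ((2 * (2 * ρ) + 1) ^ d) with hε
  have hε0 : 0 ≤ ε := pow_nonneg (dl_pos d).le _
  -- position of the chains
  have he' : ∀ i, |e.1 i| ≤ (n : ℤ) := by
    intro i
    unfold boxE bx at he
    rw [mem_edg] at he
    have h1 := Finset.mem_Icc.1 he.1
    rw [Pi.le_def, Pi.le_def] at h1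
    exact abs_le.2 ⟨h1.1 i, h1.2 i⟩
  have hpos : ∀ m ≤ R, ∀ u ∈ CH a (blk K e.1) m, ∀ i, 1 ≤ i → i ≤ m →
      Pos K ρ N lo hi (u i) := by
    intro m hm u hu i hi1 hi2
    unfold CH at hu
    rw [mem_fl] at hu
    have h1 := hu.2.2 i hi1 hi2
    have hN' : (K : ℤ) * (n + a + R + ρ + 2) ≤ N := by exact_mod_cast hN
    have h2 : ∀ j, |u i j| ≤ n + a + R := by
      intro j
      have h3 := blk_abs hK' he' j
      have h4 := h1 j
      have h5 : (i : ℤ) ≤ R := by exact_mod_cast hi2.trans hm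
      have h6 : |u i j| ≤ |blk K e.1 j| + |blk K e.1 j - u i j| := by
        have := abs_sub_abs_le_abs_sub (u i j) (blk K e.1 j)
        rw [abs_sub_comm] at this
        linarith
      linarith
    have h3 : (0 : ℤ) ≤ ρ := Int.natCast_nonneg ρ
    refine ⟨Ub_box hK' ρ N fun j => ?_, in_box hK' fun j => ?_, fun t => in_box hK' fun j => ?_⟩
    · refine le_trans (mul_le_mul_of_nonneg_left ?_ hK'.le) hN'
      have := h2 j
      linarith
    · refine le_trans (mul_le_mul_of_nonneg_left ?_ hK'.le) hN'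
      have := h2 j
      linarith
    · refine le_trans (mul_le_mul_of_nonneg_left ?_ hK'.le) hN'
      have h4 := h2 j
      have h5 : |(u i + uv t) j| ≤ |u i j| + |(uv t : Vx d) j| := by
        rw [Pi.add_apply]
        exact abs_add_le _ _
      have h6 := uv_abs t j
      linarith
  -- pointwise
  have hpt : QQ x s (boxE d N) (fun n1 n2 c b1 b2 => ind (Ev2 n k G e n1 n2 (n1 ∪ n2 ∪ c) b1 b2)) ≤
      QQ x s (boxE d N) (fun n1 n2 c b1 b2 =>
        (∑ m ∈ Finset.range R, ∑ u ∈ CH a (blk K e.1) m,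
          (ind (Big K ρ a m k (blk K e.1) u {0} (TT d n) (↑(n1 ∪ b1) : Set (Ed d))
              (↑(n2 ∪ b2) : Set (Ed d))) *
            ∏ i ∈ JJ ρ m u, ind (u i ∈ BadG K a l lo hi g (n1 ∪ n2 ∪ c) (n1 ∆ n2)) +
          ind (Big K ρ a m k (blk K e.1) u (TT d n) {0} (↑(n1 ∪ b1) : Set (Ed d))
              (↑(n2 ∪ b2) : Set (Ed d))) *
            ∏ i ∈ JJ ρ m u, ind (u i ∈ BadG K a l lo hi g (n1 ∪ n2 ∪ c) (n1 ∆ n2)))) +
        ∑ u ∈ CH a (blk K e.1) R,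
          ∏ i ∈ JJ ρ R u, ind (u i ∈ BadG K a l lo hi g (n1 ∪ n2 ∪ c) (n1 ∆ n2))) := by
    refine QQ_mono hx hx1 hs hs1 _ ?_
    intro n1 n2 c b1 b2 h1 h2 h3 _ _ h4 h5
    have hprod0 : ∀ (J : Finset ℕ) (u : ℕ → Vx d),
        0 ≤ ∏ i ∈ J, ind (u i ∈ BadG K a l lo hi g (n1 ∪ n2 ∪ c) (n1 ∆ n2)) := fun J u =>
      prod_nonneg fun _ _ => ind_nonneg _
    have hT0 : ∀ m u, 0 ≤ (ind (Big K ρ a m k (blk K e.1) u {0} (TT d n) (↑(n1 ∪ b1) : Set (Ed d))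
              (↑(n2 ∪ b2) : Set (Ed d))) *
            ∏ i ∈ JJ ρ m u, ind (u i ∈ BadG K a l lo hi g (n1 ∪ n2 ∪ c) (n1 ∆ n2)) +
          ind (Big K ρ a m k (blk K e.1) u (TT d n) {0} (↑(n1 ∪ b1) : Set (Ed d))
              (↑(n2 ∪ b2) : Set (Ed d))) *
            ∏ i ∈ JJ ρ m u, ind (u i ∈ BadG K a l lo hi g (n1 ∪ n2 ∪ c) (n1 ∆ n2))) :=
      fun m u => add_nonneg (mul_nonneg (ind_nonneg _) (hprod0 _ _))
        (mul_nonneg (ind_nonneg _) (hprod0 _ _))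
    have hA0 : 0 ≤ ∑ m ∈ Finset.range R, ∑ u ∈ CH a (blk K e.1) m,
          (ind (Big K ρ a m k (blk K e.1) u {0} (TT d n) (↑(n1 ∪ b1) : Set (Ed d))
              (↑(n2 ∪ b2) : Set (Ed d))) *
            ∏ i ∈ JJ ρ m u, ind (u i ∈ BadG K a l lo hi g (n1 ∪ n2 ∪ c) (n1 ∆ n2)) +
          ind (Big K ρ a m k (blk K e.1) u (TT d n) {0} (↑(n1 ∪ b1) : Set (Ed d))
              (↑(n2 ∪ b2) : Set (Ed d))) *
            ∏ i ∈ JJ ρ m u, ind (u i ∈ BadG K a l lo hi g (n1 ∪ n2 ∪ c) (n1 ∆ n2))) :=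
      sum_nonneg fun m _ => sum_nonneg fun u _ => hT0 m u
    have hB0 : 0 ≤ ∑ u ∈ CH a (blk K e.1) R,
          ∏ i ∈ JJ ρ R u, ind (u i ∈ BadG K a l lo hi g (n1 ∪ n2 ∪ c) (n1 ∆ n2)) :=
      sum_nonneg fun u _ => hprod0 _ _
    by_cases hev : Ev2 n k G e n1 n2 (n1 ∪ n2 ∪ c) b1 b2
    swap
    · rw [ind_false hev]
      exact add_nonneg hA0 hB0
    rw [ind_true hev]
    obtain ⟨⟨v1, hv1, hk1⟩, hfar, ⟨e2, he2, hc2⟩, ⟨v3, hv3, e3, he3, hc3⟩⟩ := hev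
    set Bad := BadG K a l lo hi g (n1 ∪ n2 ∪ c) (n1 ∆ n2) with hBad
    have hom : n1 ∪ n2 ∪ c ⊆ boxE d N := union_subset (union_subset h1 h2) h3
    have hDe : n1 ∆ n2 ⊆ n1 ∪ n2 ∪ c := by
      intro f hf
      rw [mem_symmDiff] at hf
      rw [mem_union, mem_union]
      tauto
    have hbd : bd (n1 ∆ n2) = 0 := by
      rw [bd_symmDiff, h4, h5, add_zero]
    obtain ⟨_, _, hG3⟩ := hG _ _ hom hDe hbd
    -- an end of a member of `HH` is close, or close to bad blocks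
    have hclose : ∀ f ∈ HH G (n1 ∪ n2 ∪ c) (n1 ∆ n2) e, ∀ y, (y = f.1 ∨ y = tip f) →
        (Lcg.near (2 * ((a : ℤ) + 1)) (blk K e.1) (blk K y) ∨
      ∃ u ∈ Bad, ∃ v ∈ Bad, Lcg.near ((a : ℤ) + 1) (blk K e.1) u ∧ SC Bad u v ∧
        Lcg.near ((a : ℤ) + 1) v (blk K y)) := by
      intro f hf y hy
      rcases hf with rfl | ⟨h, hh, heh, hfh⟩
      · left
        have ha0 : (0 : ℤ) ≤ a := Int.natCast_nonneg a
        rcases hy with rfl | rfl
        · exact near_mono (by linarith) (near_refl le_rfl _)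
        · rcases blk_tip hK' f with h6 | h6
          · rw [h6]
            exact near_mono (by linarith) (near_refl le_rfl _)
          · rw [h6]
            exact near_mono (by linarith) (near_uv _ _)
      · obtain ⟨z, _, hz⟩ := hG3 h hh
        have h6 := (hz e heh).1
        rcases hy with rfl | rfl
        · exact reach h6 (hz f hfh).1
        · exact reach h6 (hz f hfh).2
    have hS : ∃ y, jn (↑(n1 ∪ b1) : Set (Ed d)) {0} y ∧
        (Lcg.near (2 * ((a : ℤ) + 1)) (blk K e.1) (blk K y) ∨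
      ∃ u ∈ Bad, ∃ v ∈ Bad, Lcg.near ((a : ℤ) + 1) (blk K e.1) u ∧ SC Bad u v ∧
        Lcg.near ((a : ℤ) + 1) v (blk K y)) := by
      rcases hc2 with hc2 | hc2
      · exact ⟨e2.1, ⟨0, rfl, hc2⟩, hclose e2 he2 _ (Or.inl rfl)⟩
      · exact ⟨tip e2, ⟨0, rfl, hc2⟩, hclose e2 he2 _ (Or.inr rfl)⟩
    have hT : ∃ y, jn (↑(n1 ∪ b1) : Set (Ed d)) (TT d n) y ∧
        (Lcg.near (2 * ((a : ℤ) + 1)) (blk K e.1) (blk K y) ∨
      ∃ u ∈ Bad, ∃ v ∈ Bad, Lcg.near ((a : ℤ) + 1) (blk K e.1) u ∧ SC Bad u v ∧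
        Lcg.near ((a : ℤ) + 1) v (blk K y)) := by
      rcases hc3 with hc3 | hc3
      · exact ⟨e3.1, ⟨v3, hv3, hc3⟩, hclose e3 he3 _ (Or.inl rfl)⟩
      · exact ⟨tip e3, ⟨v3, hv3, hc3⟩, hclose e3 he3 _ (Or.inr rfl)⟩
    have hfar' : ∀ y ∈ TT d n, ¬ jn (↑(n1 ∪ b1) : Set (Ed d)) {0} y := by
      rintro y ⟨i, hi⟩ ⟨z, hz, h6⟩
      rw [Set.mem_singleton_iff] at hz
      subst hz
      exact hfar ⟨y, h6, i, by simpa using hi⟩
    have hk' : ∃ y, (y = e.1 ∨ y = tip e) ∧ jn (↑(n2 ∪ b2) : Set (Ed d)) (sph d k) y := by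
      rcases hk1 with hk1 | hk1
      · exact ⟨_, Or.inl rfl, v1, hv1, hk1⟩
      · exact ⟨_, Or.inr rfl, v1, hv1, hk1⟩
    rcases cover hK' hρ hS hT hfar' hk' R with ⟨m, hm, u, hu, hbad, hbig⟩ | ⟨u, hu, hbad⟩
    · have hone : ∏ i ∈ JJ ρ m u, ind (u i ∈ Bad) = 1 :=
        prod_eq_one fun i hi => ind_true (hbad i hi)
      have h6 : (1 : ℝ) ≤ ind (Big K ρ a m k (blk K e.1) u {0} (TT d n)
              (↑(n1 ∪ b1) : Set (Ed d)) (↑(n2 ∪ b2) : Set (Ed d))) *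
            ∏ i ∈ JJ ρ m u, ind (u i ∈ Bad) +
          ind (Big K ρ a m k (blk K e.1) u (TT d n) {0} (↑(n1 ∪ b1) : Set (Ed d))
              (↑(n2 ∪ b2) : Set (Ed d))) * ∏ i ∈ JJ ρ m u, ind (u i ∈ Bad) := by
        rw [hone, mul_one, mul_one]
        rcases hbig with hbig | hbig
        · rw [ind_true hbig]
          have := ind_nonneg (Big K ρ a m k (blk K e.1) u (TT d n) {0}
            (↑(n1 ∪ b1) : Set (Ed d)) (↑(n2 ∪ b2) : Set (Ed d)))
          linarith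
        · rw [ind_true hbig]
          have := ind_nonneg (Big K ρ a m k (blk K e.1) u {0} (TT d n)
            (↑(n1 ∪ b1) : Set (Ed d)) (↑(n2 ∪ b2) : Set (Ed d)))
          linarith
      have h7 := single_le_sum (f := fun u => (ind (Big K ρ a m k (blk K e.1) u {0} (TT d n)
              (↑(n1 ∪ b1) : Set (Ed d)) (↑(n2 ∪ b2) : Set (Ed d))) *
            ∏ i ∈ JJ ρ m u, ind (u i ∈ Bad) +
          ind (Big K ρ a m k (blk K e.1) u (TT d n) {0} (↑(n1 ∪ b1) : Set (Ed d))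
              (↑(n2 ∪ b2) : Set (Ed d))) * ∏ i ∈ JJ ρ m u, ind (u i ∈ Bad)))
        (fun u _ => hT0 m u) hu
      have h8 := single_le_sum (f := fun m => ∑ u ∈ CH a (blk K e.1) m,
          (ind (Big K ρ a m k (blk K e.1) u {0} (TT d n)
              (↑(n1 ∪ b1) : Set (Ed d)) (↑(n2 ∪ b2) : Set (Ed d))) *
            ∏ i ∈ JJ ρ m u, ind (u i ∈ Bad) +
          ind (Big K ρ a m k (blk K e.1) u (TT d n) {0} (↑(n1 ∪ b1) : Set (Ed d))
              (↑(n2 ∪ b2) : Set (Ed d))) * ∏ i ∈ JJ ρ m u, ind (u i ∈ Bad)))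
        (fun m _ => sum_nonneg fun u _ => hT0 m u) (Finset.mem_range.2 hm)
      have h9 := (h6.trans h7).trans h8
      linarith
    · have hone : ∏ i ∈ JJ ρ R u, ind (u i ∈ Bad) = 1 :=
        prod_eq_one fun i hi => ind_true (hbad i hi)
      have h7 := single_le_sum (f := fun u => ∏ i ∈ JJ ρ R u, ind (u i ∈ Bad))
        (fun u _ => hprod0 _ u) hu
      have h8 : (1 : ℝ) ≤ ∑ u ∈ CH a (blk K e.1) R, ∏ i ∈ JJ ρ R u, ind (u i ∈ Bad) := by
        rw [← hone]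
        exact h7
      linarith
  refine hpt.trans ?_
  rw [QQ_add, QQ_sum, QQ_sum]
  refine add_le_add (sum_le_sum fun m hm => ?_) ?_
  · rw [QQ_sum]
    have hm' := (Finset.mem_range.1 hm).le
    set Xm := EL (loopM x) (boxE d N) 0 (fun η => EB s (boxE d N)
            (Inv.em n (K * (ρ + a + 2) * (m + 1)) e.1 η)) *
          EL (loopM x) (boxE d N) 0 (fun η => EB s (boxE d N)
            (Inv.hb k (K * (ρ + a + 2) * (m + 1)) e.1 η)) with hXm
    have hm0 : 0 ≤ (loopM x).a := hx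
    have hm1 : 0 ≤ (loopM x).b := zero_le_one
    have hEL0 : ∀ f : Finset (Ed d) → Finset (Ed d) → ℝ, (∀ η b, 0 ≤ f η b) →
        0 ≤ EL (loopM x) (boxE d N) 0 (fun η => EB s (boxE d N) (f η)) := by
      intro f hf
      refine EL_nonneg _ hm0 hm1 _ _ _ fun η _ => ?_
      have h := EB_mono s hs hs1 (boxE d N) (fun _ => 0) (f η) (fun b _ => hf η b)
      rwa [EB_const] at h
    have hX0 : 0 ≤ Xm := mul_nonneg (hEL0 _ fun _ _ => ind_nonneg _)
      (hEL0 _ fun _ _ => ind_nonneg _)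
    have h1 : ∀ u ∈ CH a (blk K e.1) m, QQ x s (boxE d N) (fun n1 n2 c b1 b2 =>
        (ind (Big K ρ a m k (blk K e.1) u {0} (TT d n) (↑(n1 ∪ b1) : Set (Ed d))
              (↑(n2 ∪ b2) : Set (Ed d))) *
            ∏ i ∈ JJ ρ m u, ind (u i ∈ BadG K a l lo hi g (n1 ∪ n2 ∪ c) (n1 ∆ n2)) +
          ind (Big K ρ a m k (blk K e.1) u (TT d n) {0} (↑(n1 ∪ b1) : Set (Ed d))
              (↑(n2 ∪ b2) : Set (Ed d))) *
            ∏ i ∈ JJ ρ m u, ind (u i ∈ BadG K a l lo hi g (n1 ∪ n2 ∪ c) (n1 ∆ n2)))) ≤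
        2 * (dl d ^ m * Xm) := by
      intro u hu
      rw [QQ_add]
      have h2 := term_le (k := k) (n := n) hx hx1 hs hs1 hK hρ hg hε0 hB e hu
        (hpos m hm' u hu) {0} (TT d n) (Or.inl ⟨rfl, rfl⟩)
      have h3 := term_le (k := k) (n := n) hx hx1 hs hs1 hK hρ hg hε0 hB e hu
        (hpos m hm' u hu) (TT d n) {0} (Or.inr ⟨rfl, rfl⟩)
      have hinj : ∀ i ∈ Finset.Icc 1 m, ∀ j ∈ Finset.Icc 1 m, u i = u j → i = j := by
        unfold CH at hu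
        rw [mem_fl] at hu
        exact hu.2.1
      have h4 := eps_pow (d := d) (JJ_spec ρ m u hinj).2.1
      have h5 := mul_le_mul_of_nonneg_right h4 hX0
      rw [← hε] at h5
      linarith
    refine (sum_le_sum h1).trans ?_
    rw [sum_const, nsmul_eq_mul]
    have h6 := mul_le_mul_of_nonneg_right (card_CH a m (blk K e.1)) (by positivity : 0 ≤ 2 * Xm)
    calc _ = ((CH a (blk K e.1) m).card : ℝ) * dl d ^ m * (2 * Xm) := by ring
      _ ≤ _ := h6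
      _ = _ := by ring
  · have h1 : ∀ u ∈ CH a (blk K e.1) R, QQ x s (boxE d N) (fun n1 n2 c _ _ =>
        ∏ i ∈ JJ ρ R u, ind (u i ∈ BadG K a l lo hi g (n1 ∪ n2 ∪ c) (n1 ∆ n2))) ≤
        dl d ^ R * ZZ (loopM x) (boxE d N) 0 ^ 2 := by
      intro u hu
      have h2 := tail_le hx hx1 hs hs1 hK hρ hg hε0 hB e hu (hpos R le_rfl u hu)
      have hinj : ∀ i ∈ Finset.Icc 1 R, ∀ j ∈ Finset.Icc 1 R, u i = u j → i = j := by
        unfold CH at hu
        rw [mem_fl] at hu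
        exact hu.2.1
      have h4 := eps_pow (d := d) (JJ_spec ρ R u hinj).2.1
      exact h2.trans (mul_le_mul_of_nonneg_right h4 (sq_nonneg _))
    refine (sum_le_sum h1).trans ?_
    rw [sum_const, nsmul_eq_mul]
    have h6 := mul_le_mul_of_nonneg_right (card_CH a R (blk K e.1))
      (sq_nonneg (ZZ (loopM x) (boxE d N) 0))
    calc _ = ((CH a (blk K e.1) R).card : ℝ) * dl d ^ R * ZZ (loopM x) (boxE d N) 0 ^ 2 := by
          ring
      _ ≤ _ := h6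

end edge

end Pool.Agent.Drt
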