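import Pool.Agent.Drt.H1b

/-! `Inv.H1` from (BG): the end. -/

namespace Pool.Agent.Drt

open Finset Filter Pool.Agent.SRC Pool.Agent.Lcg

open scoped symmDiff

variable {d : ℕ}

theorem sum_fiber (E : Finset (Ed d)) (F : Vx d → ℝ) (hF : ∀ w, 0 ≤ F w) :
    ∑ e ∈ E, F e.1 ≤ d * ∑ w ∈ E.image (fun e => e.1), F w := by
  classical
  rw [Finset.sum_comp (s := E) F (fun e => e.1), mul_sum]
  refine sum_le_sum fun w _ => ?_
  rw [nsmul_eq_mul]
  refine mul_le_mul_of_nonneg_right ?_ (hF w)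
  have h1 : (E.filter (fun e => e.1 = w)).card ≤ (Finset.univ : Finset (Fin d)).card := by
    refine Finset.card_le_card_of_injOn (fun e => e.2) (fun _ _ => mem_univ _) ?_
    intro e he e' he' h
    rw [mem_coe, mem_filter] at he he'
    exact Prod.ext (he.2.trans he'.2.symm) h
  rw [card_univ, Fintype.card_fin] at h1
  exact_mod_cast h1

/-- (BG) for one pair of parameters `a`, `ρ` and all `ε` -/
def BGall (d : ℕ) (x : ℝ) (a ρ : ℕ) : Prop :=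
  ∀ ε : ℝ, 0 < ε → ∃ (K : ℕ) (l : ℤ) (g : Finset (Ed d) → Vx d → Vx d), 0 < K ∧
    l ≤ K * ((a : ℤ) - 1) + 1 ∧ LocG K ρ g ∧ BGH d x K a l ρ g ε

/-- THE OUTPUT OF THE SWAP ARGUMENT -/
theorem H1_of {x a' b' : ℝ} (hx : 0 ≤ x) (hx1 : x ≤ 1) (ha' : 0 ≤ a') (hb' : b' ≤ 1)
    {a ρ : ℕ} (hρ : 2 * (a + 1) ≤ ρ) (h : BGall d x a ρ) : Inv.H1 d x a' b' := by
  classical
  obtain ⟨K, l, g, hK, hl, hg, hB⟩ := h (dl d ^ ((2 * (2 * ρ) + 1) ^ d)) (pow_pos (dl_pos d) _)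
  have hK' : (0 : ℤ) < K := by exact_mod_cast hK
  refine ⟨K * (ρ + a + 2), d * (2 * (2 * a + 3) ^ d), 1 / 2, 0, ?_, by positivity, by norm_num,
    by norm_num, ?_⟩
  · exact Nat.succ_le_of_lt (Nat.mul_pos hK (by omega))
  intro s hs n _ ε hε
  have hs0 : 0 ≤ s := ha'.trans hs.1
  have hs1 : s ≤ 1 := hs.2.trans hb'
  set T : ℝ := ((boxE d n).card : ℝ) * (2 * a + 3) ^ d with hT
  have hT0 : 0 ≤ T := by positivity
  obtain ⟨R, hR⟩ : ∃ R : ℕ, ((1 : ℝ) / 2) ^ R < ε / (T + 1) :=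
    exists_pow_lt_of_lt_one (by positivity) (by norm_num)
  have hR' : T * (1 / 2) ^ R ≤ ε := by
    rw [lt_div_iff₀ (by positivity)] at hR
    have h1 : (0 : ℝ) ≤ (1 / 2) ^ R := by positivity
    nlinarith
  refine ⟨R, (boxE d n).image (fun e => e.1), ?_⟩
  filter_upwards [eventually_ge_atTop (K * (n + a + R + ρ + 2))] with N hN
  intro k hk
  have hkn := (Finset.mem_Icc.1 hk).2
  obtain ⟨G, hG⟩ := exists_G (K := (K : ℤ)) (a := (a : ℤ)) (l := l) hK' (Int.natCast_nonneg a) hl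
    (fun _ => -(N : ℤ) / K : Vx d) (fun _ => (N : ℤ) / K) (boxE d N)
    (fun e he => blk_box hK' he) g
  have hDec : DecL (boxE d N) G := fun om De h1 h2 h3 =>
    ⟨(hG om De h1 h2 h3).1, (hG om De h1 h2 h3).2.1⟩
  have h1 := swap_box hx hx1 hs0 hs1 (boxE d N) G hDec hkn
  refine le_trans h1 ?_
  set Z := ZZ (loopM x) (boxE d N) 0 with hZ
  have hZpos : 0 < Z := lt_of_lt_of_le one_pos (ZZ_zero_ge x hx (boxE d N))
  rw [div_le_iff₀ (by positivity)]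
  set F : ℕ → Vx d → ℝ := fun m w =>
    EL (loopM x) (boxE d N) 0 (fun η => EB s (boxE d N)
            (Inv.em n (K * (ρ + a + 2) * (m + 1)) w η)) *
          EL (loopM x) (boxE d N) 0 (fun η => EB s (boxE d N)
            (Inv.hb k (K * (ρ + a + 2) * (m + 1)) w η)) with hF
  have hm0 : 0 ≤ (loopM x).a := hx
  have hm1 : 0 ≤ (loopM x).b := zero_le_one
  have hEL0 : ∀ f : Finset (Ed d) → Finset (Ed d) → ℝ, (∀ η b, 0 ≤ f η b) →
      0 ≤ EL (loopM x) (boxE d N) 0 (fun η => EB s (boxE d N) (f η)) := by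
    intro f hf
    refine EL_nonneg _ hm0 hm1 _ _ _ fun η _ => ?_
    have h := EB_mono s hs0 hs1 (boxE d N) (fun _ => 0) (f η) (fun b _ => hf η b)
    rwa [EB_const] at h
  have hF0 : ∀ m w, 0 ≤ F m w := fun m w =>
    mul_nonneg (hEL0 _ fun _ _ => ind_nonneg _) (hEL0 _ fun _ _ => ind_nonneg _)
  have h2 : ∑ e ∈ boxE d n, QQ x s (boxE d N) (fun n1 n2 c b1 b2 =>
      ind (Ev2 n k G e n1 n2 (n1 ∪ n2 ∪ c) b1 b2)) ≤
      ∑ e ∈ boxE d n, (fun w => ∑ m ∈ Finset.range R, 2 * (2 * a + 3) ^ d * (1 / 2) ^ m * F m w)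
        e.1 + ∑ e ∈ boxE d n, (2 * a + 3) ^ d * (1 / 2) ^ R * Z ^ 2 := by
    rw [← sum_add_distrib]
    exact sum_le_sum fun e he => edge_le hx hx1 hs0 hs1 hK hρ hg hB hN G hG e he
  refine h2.trans ?_
  have h3 := sum_fiber (boxE d n)
    (fun w => ∑ m ∈ Finset.range R, 2 * (2 * a + 3) ^ d * (1 / 2) ^ m * F m w)
    (fun w => sum_nonneg fun m _ => mul_nonneg (by positivity) (hF0 m w))
  rw [add_mul, sum_mul]
  refine add_le_add (h3.trans (le_of_eq ?_)) ?_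
  · rw [mul_sum]
    refine sum_congr rfl fun w _ => ?_
    rw [mul_sum, sum_mul]
    refine sum_congr rfl fun m _ => ?_
    simp only [hF]
    unfold Inv.PE
    rw [← hZ]
    field_simp
  · rw [sum_const, nsmul_eq_mul]
    have h4 : 0 ≤ Z ^ 2 := sq_nonneg Z
    have h5 := mul_le_mul_of_nonneg_right hR' h4
    calc _ = T * (1 / 2) ^ R * Z ^ 2 := by rw [hT]; ring
      _ ≤ _ := h5

end Pool.Agent.Drt
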