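import Pool.Agent.Drt.Swap

/-!
The swap family for the loop O(1) model (uniform even subgraphs of FK-Ising), any boundary
condition: `C` is any family of edge sets closed under symmetric difference.
-/

namespace Pool.Agent.Drt

open Finset

open scoped symmDiff

set_option linter.unusedSectionVars false

variable {E : Type*} [Fintype E] [DecidableEq E]

/-- sum mod 2 of a finite family of edge sets -/
def xsum (S : Finset (Finset E)) : Finset E :=
  univ.filter (fun e => Odd (S.filter (fun g => e ∈ g)).card)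

theorem mem_xsum {S : Finset (Finset E)} {e : E} :
    e ∈ xsum S ↔ Odd (S.filter (fun g => e ∈ g)).card := by
  simp [xsum]

theorem xsum_empty : xsum (∅ : Finset (Finset E)) = ∅ := by
  ext e
  simp [mem_xsum]

theorem xsum_insert {S : Finset (Finset E)} {g : Finset E} (hg : g ∉ S) :
    xsum (insert g S) = g ∆ xsum S := by
  ext e
  rw [mem_symmDiff, mem_xsum, mem_xsum, filter_insert]
  by_cases h : e ∈ g
  · rw [if_pos h, card_insert_of_notMem (by simp [hg]), Nat.odd_add_one]
    simp [h]
  · rw [if_neg h]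
    simp [h]

/-- families closed under symmetric difference -/
structure Closed (C : Finset E → Prop) : Prop where
  empty : C ∅
  symm : ∀ s t, C s → C t → C (s ∆ t)

theorem Closed.xsum {C : Finset E → Prop} (hC : Closed C) {S : Finset (Finset E)}
    (h : ∀ g ∈ S, C g) : C (xsum S) := by
  induction S using Finset.induction_on with
  | empty => rw [xsum_empty]; exact hC.empty
  | insert g S hg ih =>
    rw [xsum_insert hg]
    exact hC.symm _ _ (h g (mem_insert_self _ _)) (ih fun g' hg' => h g' (mem_insert_of_mem hg'))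

theorem xsum_subset {S : Finset (Finset E)} {om : Finset E} (h : ∀ g ∈ S, g ⊆ om) :
    xsum S ⊆ om := by
  induction S using Finset.induction_on with
  | empty => rw [xsum_empty]; exact empty_subset _
  | insert g S hg ih =>
    rw [xsum_insert hg]
    have h1 := h g (mem_insert_self _ _)
    have h2 := ih fun g' hg' => h g' (mem_insert_of_mem hg')
    intro e he
    rw [mem_symmDiff] at he
    rcases he with he | he
    · exact h1 he.1
    · exact h2 he.1

/-- the part of the family meeting `F` -/
def meet (S : Finset (Finset E)) (F : Finset E) : Finset (Finset E) :=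
  S.filter (fun g => ¬ Disjoint g F)

theorem xsum_meet {S : Finset (Finset E)} {F : Finset E} {e : E} (he : e ∈ F) :
    e ∈ xsum (meet S F) ↔ e ∈ xsum S := by
  rw [mem_xsum, mem_xsum]
  have : (meet S F).filter (fun g => e ∈ g) = S.filter (fun g => e ∈ g) := by
    ext g
    simp only [meet, mem_filter]
    constructor
    · rintro ⟨⟨h1, _⟩, h3⟩
      exact ⟨h1, h3⟩
    · rintro ⟨h1, h3⟩
      refine ⟨⟨h1, ?_⟩, h3⟩
      intro hd
      exact (Finset.disjoint_left.1 hd) h3 he
  rw [this]

/-- Bernoulli weight -/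
noncomputable def ber (s : ℝ) (b : Finset E) : ℝ := s ^ b.card * (1 - s) ^ (bᶜ).card

/-- one copy: `(η, b)` -/
abbrev Om (E : Type*) := Finset E × Finset E

open Classical in
/-- weight of one copy -/
noncomputable def mu (C : Finset E → Prop) (x s : ℝ) (u : Om E) : ℝ :=
  if C u.1 then x ^ u.1.card * ber s u.2 else 0

/-- pair space `(η1, η2, ω, b1, b2)` -/
abbrev Pr (E : Type*) := Finset E × Finset E × Finset E × Finset E × Finset E

open Classical in
/-- weight of the pair space -/
noncomputable def wt (C : Finset E → Prop) (x s : ℝ) (p : Pr E) : ℝ :=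
  if (C p.1 ∧ C p.2.1 ∧ p.1 ⊆ p.2.2.1 ∧ p.2.1 ⊆ p.2.2.1) then
    x ^ (p.1 ∆ p.2.1).card * ((x ^ 2) ^ (p.2.2.1 \ (p.1 ∆ p.2.1)).card *
      (1 - x ^ 2) ^ (p.2.2.1ᶜ).card) * (ber s p.2.2.2.1 * ber s p.2.2.2.2) else 0

/-- first copy -/
def c1 (p : Pr E) : Om E := (p.1, p.2.2.2.1)

/-- second copy -/
def c2 (p : Pr E) : Om E := (p.2.1, p.2.2.2.2)

/-- the current trace -/
def tr (u : Om E) (e : E) : Bool := decide (e ∈ u.1 ∪ u.2)

/-- take `b` on `F` and `b'` off `F` -/
def splice (F b b' : Finset E) : Finset E := (b ∩ F) ∪ (b' \ F)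

theorem mem_splice {F b b' : Finset E} {e : E} :
    e ∈ splice F b b' ↔ (e ∈ F ∧ e ∈ b) ∨ (e ∉ F ∧ e ∈ b') := by
  simp only [splice, mem_union, mem_inter, mem_sdiff]
  tauto

theorem splice_splice (F b b' : Finset E) : splice F (splice F b b') (splice F b' b) = b := by
  ext e
  simp only [mem_splice]
  tauto

theorem ber_splice (s : ℝ) (F b b' : Finset E) :
    ber s (splice F b b') * ber s (splice F b' b) = ber s b * ber s b' := by
  have h1 : ∀ b b' : Finset E, (splice F b b').card = (b ∩ F).card + (b' \ F).card := by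
    intro b b'
    refine card_union_of_disjoint ?_
    rw [Finset.disjoint_left]
    intro e h1 h2
    exact (mem_sdiff.1 h2).2 (mem_inter.1 h1).2
  have h2 : ∀ b b' : Finset E, (splice F b b')ᶜ = splice F bᶜ b'ᶜ := by
    intro b b'
    ext e
    simp only [mem_compl, mem_splice]
    tauto
  have h3 : ∀ b : Finset E, b.card = (b ∩ F).card + (b \ F).card := by
    intro b
    rw [← card_union_of_disjoint]
    · congr 1
      ext e
      simp only [mem_union, mem_inter, mem_sdiff]
      tauto
    · rw [Finset.disjoint_left]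
      intro e h1 h2
      exact (mem_sdiff.1 h2).2 (mem_inter.1 h1).2
  unfold ber
  rw [h2, h2, h1, h1, h1, h1, h3 b, h3 b', h3 bᶜ, h3 b'ᶜ]
  ring

/-- the swap on `F` with respect to the families `G ω Δ` -/
def swp (G : Finset E → Finset E → Finset (Finset E)) (F : Finset E) (p : Pr E) : Pr E :=
  (p.1 ∆ xsum (meet (G p.2.2.1 (p.1 ∆ p.2.1)) F), p.2.1 ∆ xsum (meet (G p.2.2.1 (p.1 ∆ p.2.1)) F),
    p.2.2.1, splice F p.2.2.2.2 p.2.2.2.1, splice F p.2.2.2.1 p.2.2.2.2)

theorem symm_cancel (s t h : Finset E) : (s ∆ h) ∆ (t ∆ h) = s ∆ t := by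
  ext e
  simp only [mem_symmDiff]
  tauto

theorem symm_symm (s h : Finset E) : (s ∆ h) ∆ h = s := by
  ext e
  simp only [mem_symmDiff]
  tauto

theorem swp_swp (G : Finset E → Finset E → Finset (Finset E)) (F : Finset E) (p : Pr E) :
    swp G F (swp G F p) = p := by
  obtain ⟨n1, n2, om, b1, b2⟩ := p
  simp only [swp, symm_cancel, symm_symm, splice_splice]

/-- the swap as a permutation -/
def sw (G : Finset E → Finset E → Finset (Finset E)) (F : Finset E) : Equiv.Perm (Pr E) :=
  (Function.Involutive.toPerm (swp G F) (swp_swp G F))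

theorem sw_apply (G : Finset E → Finset E → Finset (Finset E)) (F : Finset E) (p : Pr E) :
    sw G F p = swp G F p := rfl

/-- `G ω Δ` decomposes `Δ` into elements of `C` inside `ω` -/
structure Dec (C : Finset E → Prop) (G : Finset E → Finset E → Finset (Finset E)) : Prop where
  sum : ∀ om De, xsum (G om De) = De
  mem : ∀ om De, De ⊆ om → C De → ∀ g ∈ G om De, g ⊆ om ∧ C g

theorem sum_compl_pow (A : Finset E) (r : ℝ) :
    ∑ z ∈ A.powerset, r ^ z.card * (1 - r) ^ (A \ z).card = 1 := by
  have := Finset.prod_add (fun _ : E => r) (fun _ : E => 1 - r) A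
  simp only [prod_const] at this
  rw [← this]
  simp

open Classical in
theorem marg_om (C : Finset E → Prop) (x s : ℝ) (n1 n2 b1 b2 : Finset E) :
    ∑ om : Finset E, wt C x s (n1, n2, om, b1, b2) = mu C x s (n1, b1) * mu C x s (n2, b2) := by
  unfold wt mu
  simp only
  by_cases h : C n1 ∧ C n2
  · obtain ⟨h1, h2⟩ := h
    rw [if_pos h1, if_pos h2]
    set A := (n1 ∪ n2)ᶜ with hA
    have hsum : ∑ om : Finset E, (if (C n1 ∧ C n2 ∧ n1 ⊆ om ∧ n2 ⊆ om) then
        x ^ (n1 ∆ n2).card * ((x ^ 2) ^ (om \ (n1 ∆ n2)).card *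
          (1 - x ^ 2) ^ (omᶜ).card) * (ber s b1 * ber s b2) else 0) =
        ∑ z ∈ A.powerset, x ^ (n1 ∆ n2).card * ((x ^ 2) ^ ((n1 ∩ n2).card + z.card) *
          (1 - x ^ 2) ^ (A \ z).card) * (ber s b1 * ber s b2) := by
      rw [← sum_filter]
      symm
      refine sum_bij' (fun z _ => z ∪ (n1 ∪ n2)) (fun om _ => om \ (n1 ∪ n2)) ?_ ?_ ?_ ?_ ?_
      · intro z _
        rw [mem_filter]
        refine ⟨mem_univ _, h1, h2, ?_, ?_⟩
        · exact subset_union_left.trans subset_union_right
        · exact subset_union_right.trans subset_union_right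
      · intro om _
        rw [mem_powerset, hA]
        intro e he
        rw [mem_compl]
        exact (mem_sdiff.1 he).2
      · intro z hz
        rw [mem_powerset, hA] at hz
        ext e
        simp only [mem_sdiff, mem_union]
        constructor
        · rintro ⟨h3 | h3, h4⟩
          · exact h3
          · exact absurd h3 h4
        · intro h3
          have := hz h3
          rw [mem_compl, mem_union] at this
          exact ⟨Or.inl h3, this⟩
      · intro om hom
        rw [mem_filter] at hom
        ext e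
        simp only [mem_sdiff, mem_union]
        have h3 : e ∈ n1 → e ∈ om := fun h => hom.2.2.2.1 h
        have h4 : e ∈ n2 → e ∈ om := fun h => hom.2.2.2.2 h
        tauto
      · intro z hz
        rw [mem_powerset, hA] at hz
        have hz' : ∀ e ∈ z, e ∉ n1 ∧ e ∉ n2 := by
          intro e he
          have := hz he
          rw [mem_compl, mem_union] at this
          tauto
        have h3 : (z ∪ (n1 ∪ n2)) \ (n1 ∆ n2) = (n1 ∩ n2) ∪ z := by
          ext e
          simp only [mem_sdiff, mem_union, mem_symmDiff, mem_inter]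
          constructor
          · rintro ⟨h4, h5⟩
            by_cases h6 : e ∈ z
            · exact Or.inr h6
            · left
              tauto
          · rintro (h4 | h4)
            · tauto
            · have := hz' e h4
              tauto
        have h4 : ((n1 ∩ n2) ∪ z).card = (n1 ∩ n2).card + z.card := by
          refine card_union_of_disjoint ?_
          rw [Finset.disjoint_left]
          intro e he1 he2
          exact (hz' e he2).1 (mem_inter.1 he1).1
        have h5 : (z ∪ (n1 ∪ n2))ᶜ = A \ z := by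
          ext e
          simp only [hA, mem_compl, mem_union, mem_sdiff]
          tauto
        rw [h3, h4, h5]
    rw [hsum]
    have h3 : ∀ z : Finset E, x ^ (n1 ∆ n2).card * ((x ^ 2) ^ ((n1 ∩ n2).card + z.card) *
          (1 - x ^ 2) ^ (A \ z).card) * (ber s b1 * ber s b2) =
        (x ^ (n1 ∆ n2).card * (x ^ 2) ^ (n1 ∩ n2).card * (ber s b1 * ber s b2)) *
          ((x ^ 2) ^ z.card * (1 - x ^ 2) ^ (A \ z).card) := by
      intro z
      rw [pow_add]
      ring
    rw [sum_congr rfl fun z _ => h3 z, ← mul_sum, sum_compl_pow, mul_one]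
    have h4 : n1.card + n2.card = (n1 ∆ n2).card + 2 * (n1 ∩ n2).card := by
      have h5 : n1.card = (n1 \ n2).card + (n1 ∩ n2).card := by
        rw [add_comm, card_inter_add_card_sdiff]
      have h6 : n2.card = (n2 \ n1).card + (n1 ∩ n2).card := by
        rw [inter_comm, add_comm, card_inter_add_card_sdiff]
      have h7 : (n1 ∆ n2).card = (n1 \ n2).card + (n2 \ n1).card := by
        have : n1 ∆ n2 = (n1 \ n2) ∪ (n2 \ n1) := rfl
        rw [this]
        refine card_union_of_disjoint ?_
        rw [Finset.disjoint_left]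
        intro e he1 he2
        exact (mem_sdiff.1 he2).2 (mem_sdiff.1 he1).1
      omega
    have h8 : x ^ (n1 ∆ n2).card * (x ^ 2) ^ (n1 ∩ n2).card = x ^ n1.card * x ^ n2.card := by
      rw [← pow_mul, ← pow_add, ← pow_add, h4]
    rw [h8]
    ring
  · have h3 : ∀ om : Finset E, ¬ (C n1 ∧ C n2 ∧ n1 ⊆ om ∧ n2 ⊆ om) := by
      intro om h4
      exact h ⟨h4.1, h4.2.1⟩
    simp only [h3, if_false, sum_const_zero]
    by_cases h1 : C n1
    · have h2 : ¬ C n2 := fun h2 => h ⟨h1, h2⟩
      simp [h2]
    · simp [h1]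

theorem meet_empty (S : Finset (Finset E)) : meet S ∅ = ∅ := by
  simp [meet]

theorem splice_empty (b b' : Finset E) : splice ∅ b b' = b' := by
  simp [splice]

theorem swapFam {C : Finset E → Prop} (hC : Closed C)
    {G : Finset E → Finset E → Finset (Finset E)} (hG : Dec C G) (x s : ℝ) :
    SwapFam (mu C x s) (wt C x s) c1 c2 tr (sw G) where
  marg := by
    intro F
    have h1 : ∑ p : Pr E, wt C x s p * F (c1 p) (c2 p) =
        ∑ n1 : Finset E, ∑ n2 : Finset E, ∑ om : Finset E, ∑ b1 : Finset E, ∑ b2 : Finset E,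
          wt C x s (n1, n2, om, b1, b2) * F (n1, b1) (n2, b2) := by
      simp only [Fintype.sum_prod_type]
      rfl
    have h2 : ∑ u : Om E, ∑ v : Om E, mu C x s u * mu C x s v * F u v =
        ∑ n1 : Finset E, ∑ b1 : Finset E, ∑ n2 : Finset E, ∑ b2 : Finset E,
          mu C x s (n1, b1) * mu C x s (n2, b2) * F (n1, b1) (n2, b2) := by
      simp only [Fintype.sum_prod_type]
    rw [h1, h2]
    refine sum_congr rfl fun n1 _ => ?_
    have h3 : ∑ b1 : Finset E, ∑ n2 : Finset E, ∑ b2 : Finset E,
          mu C x s (n1, b1) * mu C x s (n2, b2) * F (n1, b1) (n2, b2) =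
        ∑ n2 : Finset E, ∑ b1 : Finset E, ∑ b2 : Finset E,
          mu C x s (n1, b1) * mu C x s (n2, b2) * F (n1, b1) (n2, b2) := sum_comm
    rw [h3]
    refine sum_congr rfl fun n2 _ => ?_
    have h4 : ∑ om : Finset E, ∑ b1 : Finset E, ∑ b2 : Finset E,
          wt C x s (n1, n2, om, b1, b2) * F (n1, b1) (n2, b2) =
        ∑ b1 : Finset E, ∑ om : Finset E, ∑ b2 : Finset E,
          wt C x s (n1, n2, om, b1, b2) * F (n1, b1) (n2, b2) := sum_comm
    rw [h4]
    refine sum_congr rfl fun b1 _ => ?_
    have h5 : ∑ om : Finset E, ∑ b2 : Finset E,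
          wt C x s (n1, n2, om, b1, b2) * F (n1, b1) (n2, b2) =
        ∑ b2 : Finset E, ∑ om : Finset E,
          wt C x s (n1, n2, om, b1, b2) * F (n1, b1) (n2, b2) := sum_comm
    rw [h5]
    refine sum_congr rfl fun b2 _ => ?_
    rw [← sum_mul, marg_om]
  weight := by
    rintro F ⟨n1, n2, om, b1, b2⟩
    rw [sw_apply]
    unfold wt swp
    simp only [symm_cancel]
    set h := xsum (meet (G om (n1 ∆ n2)) F) with hh
    by_cases hadm : n1 ∆ n2 ⊆ om ∧ C (n1 ∆ n2)
    · have hmem := hG.mem om (n1 ∆ n2) hadm.1 hadm.2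
      have hCh : C h := hC.xsum fun g hg => (hmem g (mem_filter.1 hg).1).2
      have hsub : h ⊆ om := xsum_subset fun g hg => (hmem g (mem_filter.1 hg).1).1
      have e1 : ∀ n : Finset E, C (n ∆ h) ↔ C n := by
        intro n
        constructor
        · intro h1
          have := hC.symm _ _ h1 hCh
          rwa [symm_symm] at this
        · intro h1
          exact hC.symm _ _ h1 hCh
      have e2' : ∀ n : Finset E, n ⊆ om → n ∆ h ⊆ om := by
        intro n hn e he
        rw [mem_symmDiff] at he
        rcases he with he | he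
        · exact hn he.1
        · exact hsub he.1
      have e2 : ∀ n : Finset E, n ∆ h ⊆ om ↔ n ⊆ om := by
        intro n
        constructor
        · intro h1
          have := e2' _ h1
          rwa [symm_symm] at this
        · exact e2' n
      have hiff : (C (n1 ∆ h) ∧ C (n2 ∆ h) ∧ n1 ∆ h ⊆ om ∧ n2 ∆ h ⊆ om) ↔
          (C n1 ∧ C n2 ∧ n1 ⊆ om ∧ n2 ⊆ om) := by rw [e1, e1, e2, e2]
      by_cases hc : C n1 ∧ C n2 ∧ n1 ⊆ om ∧ n2 ⊆ om
      · rw [if_pos hc, if_pos (hiff.2 hc), ber_splice, mul_comm (ber s b2)]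
      · rw [if_neg hc, if_neg (fun h1 => hc (hiff.1 h1))]
    · rw [if_neg, if_neg]
      · rintro ⟨h1, h2, h3, h4⟩
        refine hadm ⟨?_, hC.symm _ _ h1 h2⟩
        intro e he
        rw [mem_symmDiff] at he
        rcases he with he | he
        · exact h3 he.1
        · exact h4 he.1
      · rintro ⟨h1, h2, h3, h4⟩
        refine hadm ⟨?_, ?_⟩
        · intro e he
          rw [← symm_cancel n1 n2 h, mem_symmDiff] at he
          rcases he with he | he
          · exact h3 he.1
          · exact h4 he.1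
        · have := hC.symm _ _ h1 h2
          rwa [symm_cancel] at this
  val_eq := by
    rintro F ⟨n1, n2, om, b1, b2⟩ e he
    rw [sw_apply]
    unfold swp tr c1 c2
    simp only
    have h1 := xsum_meet (S := G om (n1 ∆ n2)) he
    rw [hG.sum om (n1 ∆ n2), mem_symmDiff] at h1
    rw [decide_eq_decide]
    simp only [mem_union, mem_symmDiff, mem_splice]
    rw [h1]
    tauto
  empty := by
    rintro ⟨n1, n2, om, b1, b2⟩
    rw [sw_apply]
    unfold swp
    simp only [meet_empty, xsum_empty, splice_empty]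
    have : ∀ n : Finset E, n ∆ ∅ = n := by
      intro n
      ext e
      simp [mem_symmDiff]
    rw [this, this]

/-- changing `u` by a subfamily of the cycles through `e` and the bit `b e` leads into `A` -/
def Rel (A : Om E → Prop) (G : Finset E → Finset E → Finset (Finset E)) (e : E) (p : Pr E) :
    Prop :=
  ∃ S ⊆ (G p.2.2.1 (p.1 ∆ p.2.1)).filter (fun g => e ∈ g), ∃ b' : Finset E,
    (∀ e', e' ≠ e → (e' ∈ b' ↔ e' ∈ p.2.2.2.1)) ∧ A (p.1 ∆ xsum S, b')

theorem xsum_diff {S T : Finset (Finset E)} (h : S ⊆ T) : xsum S ∆ xsum T = xsum (T \ S) := by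
  ext e
  rw [mem_symmDiff, mem_xsum, mem_xsum, mem_xsum]
  have h1 : (T.filter (fun g => e ∈ g)).card =
      (S.filter (fun g => e ∈ g)).card + ((T \ S).filter (fun g => e ∈ g)).card := by
    rw [← card_union_of_disjoint]
    · congr 1
      ext g
      simp only [mem_filter, mem_union, mem_sdiff]
      have := @h g
      tauto
    · rw [Finset.disjoint_left]
      intro g h1 h2
      exact (mem_sdiff.1 (mem_filter.1 h2).1).2 (mem_filter.1 h1).1
  rw [h1]
  simp only [Nat.odd_add, ← Nat.not_odd_iff_even]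
  tauto

theorem rel_of_swap {G : Finset E → Finset E → Finset (Finset E)}
    (A : Om E → Prop) (F : Finset E) (e : E) (p : Pr E)
    (h1 : A (c1 (sw G F p))) : Rel A G e (sw G (insert e F) p) := by
  obtain ⟨n1, n2, om, b1, b2⟩ := p
  rw [sw_apply] at h1 ⊢
  unfold Rel
  unfold swp at h1 ⊢
  unfold c1 at h1
  simp only [symm_cancel] at h1 ⊢
  set S := G om (n1 ∆ n2) with hS
  refine ⟨meet S (insert e F) \ meet S F, ?_, splice F b2 b1, ?_, ?_⟩
  · intro g hg
    simp only [meet, mem_sdiff, mem_filter, not_and, not_not] at hg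
    obtain ⟨⟨hg1, hg2⟩, hg3⟩ := hg
    rw [mem_filter]
    refine ⟨hg1, ?_⟩
    have hg4 := hg3 hg1
    by_contra hcon
    apply hg2
    rw [disjoint_insert_right]
    exact ⟨hcon, hg4⟩
  · intro e' he'
    have hi : e' ∈ insert e F ↔ e' ∈ F := by simp [he']
    rw [mem_splice, mem_splice, hi]
  · have hsub : meet S F ⊆ meet S (insert e F) := by
      intro g hg
      simp only [meet, mem_filter] at hg ⊢
      refine ⟨hg.1, fun hd => hg.2 ?_⟩
      rw [disjoint_insert_right] at hd
      exact hd.2
    have h2 : (n1 ∆ xsum (meet S (insert e F))) ∆ xsum (meet S (insert e F) \ meet S F) =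
        n1 ∆ xsum (meet S F) := by
      rw [← xsum_diff hsub]
      generalize xsum (meet S (insert e F)) = u
      generalize xsum (meet S F) = v
      rw [symmDiff_comm v u, symmDiff_assoc, symmDiff_symmDiff_cancel_left]
    rw [h2]
    exact h1

open Classical in
/-- The swap inequality for loop O(1) plus Bernoulli. -/
theorem loop_ineq {C : Finset E → Prop} (hC : Closed C)
    {G : Finset E → Finset E → Finset (Finset E)} (hG : Dec C G) {x s : ℝ} (hx : 0 ≤ x)
    (hx1 : x ≤ 1) (hs : 0 ≤ s) (hs1 : s ≤ 1) {Q : ℕ → Om E → Finset E} (hQ : Tree tr Q) (N : ℕ)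
    (A : Om E → Prop) (hA : ∀ u v, (∀ e ∈ Q N u, tr u e = tr v e) → (A u ↔ A v)) :
    (∑ u : Om E, if A u then mu C x s u else 0) * (∑ u : Om E, if A u then 0 else mu C x s u) ≤
      ∑ e : E, ∑ p : Pr E,
        if (e ∈ Q N (c2 p) ∧ ¬ A (c1 p) ∧ Rel A G e p) then wt C x s p else 0 := by
  refine swap_ineq hQ (swapFam hC hG x s) ?_ A N hA (Rel A G) ?_
  · intro p
    have hber : ∀ b : Finset E, 0 ≤ ber s b := fun b =>
      mul_nonneg (pow_nonneg hs _) (pow_nonneg (by linarith) _)
    unfold wt
    split_ifs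
    · have h1 : 0 ≤ 1 - x ^ 2 := by nlinarith
      have := hber p.2.2.2.1
      have := hber p.2.2.2.2
      positivity
    · exact le_rfl
  · intro F e p _ h1 _
    exact rel_of_swap A F e p h1

end Pool.Agent.Drt
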