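import Mathlib

/-!
The analytic lemma of Duminil-Copin, Raoufi and Tassion, in the form needed for `S1`.
-/

namespace Pool.Agent.Drt

open Set Filter Topology

/-- partial sums in the first index -/
noncomputable def S (f : ℕ → ℝ → ℝ) (n : ℕ) (x : ℝ) : ℝ := ∑ k ∈ Finset.range n, f k x

structure Hyp (f g : ℕ → ℝ → ℝ) (a b c : ℝ) : Prop where
  hab : a < b
  hc : 0 < c
  pos : ∀ n, ∀ x ∈ Icc a b, 0 < f n x
  le_one : ∀ n, ∀ x ∈ Icc a b, f n x ≤ 1
  anti : ∀ n, ∀ x ∈ Icc a b, f (n + 1) x ≤ f n x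
  der : ∀ n, ∀ x ∈ Icc a b, HasDerivAt (f n) (g n x) x
  ineq : ∀ n, ∀ x ∈ Icc a b, c * n * f n x / S f n x ≤ g n x

variable {f g : ℕ → ℝ → ℝ} {a b c : ℝ}

theorem S_nonneg (h : Hyp f g a b c) (n : ℕ) {x : ℝ} (hx : x ∈ Icc a b) : 0 ≤ S f n x :=
  Finset.sum_nonneg fun k _ => (h.pos k x hx).le

theorem S_pos (h : Hyp f g a b c) {n : ℕ} (hn : 1 ≤ n) {x : ℝ} (hx : x ∈ Icc a b) :
    0 < S f n x :=
  Finset.sum_pos (fun k _ => h.pos k x hx) ⟨0, Finset.mem_range.2 hn⟩

theorem g_nonneg (h : Hyp f g a b c) (n : ℕ) {x : ℝ} (hx : x ∈ Icc a b) : 0 ≤ g n x := by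
  refine le_trans ?_ (h.ineq n x hx)
  have := h.hc
  have h1 := h.pos n x hx
  have h2 := S_nonneg h n hx
  positivity

theorem contOn (h : Hyp f g a b c) (n : ℕ) : ContinuousOn (f n) (Icc a b) := fun x hx =>
  (h.der n x hx).continuousAt.continuousWithinAt

theorem mono (h : Hyp f g a b c) (n : ℕ) {x y : ℝ} (hx : x ∈ Icc a b) (hy : y ∈ Icc a b)
    (hxy : x ≤ y) : f n x ≤ f n y := by
  have : MonotoneOn (f n) (Icc a b) := by
    refine monotoneOn_of_deriv_nonneg (convex_Icc a b) (contOn h n) ?_ ?_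
    · intro z hz
      rw [interior_Icc] at hz
      exact (h.der n z (Ioo_subset_Icc_self hz)).differentiableAt.differentiableWithinAt
    · intro z hz
      rw [interior_Icc] at hz
      rw [(h.der n z (Ioo_subset_Icc_self hz)).deriv]
      exact g_nonneg h n (Ioo_subset_Icc_self hz)
  exact this hx hy hxy

theorem S_mono (h : Hyp f g a b c) (n : ℕ) {x y : ℝ} (hx : x ∈ Icc a b) (hy : y ∈ Icc a b)
    (hxy : x ≤ y) : S f n x ≤ S f n y :=
  Finset.sum_le_sum fun k _ => mono h k hx hy hxy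

theorem anti_le (h : Hyp f g a b c) {x : ℝ} (hx : x ∈ Icc a b) {m n : ℕ} (hmn : m ≤ n) :
    f n x ≤ f m x := by
  induction n, hmn using Nat.le_induction with
  | base => exact le_rfl
  | succ n _ ih => exact (h.anti n x hx).trans ih

/-- general mean value inequality on a subinterval -/
theorem growth {F G : ℝ → ℝ} {x y K : ℝ} (hxy : x ≤ y)
    (hder : ∀ t ∈ Icc x y, HasDerivAt F (G t) t) (hK : ∀ t ∈ Icc x y, K ≤ G t) :
    K * (y - x) ≤ F y - F x := by
  have hmono : MonotoneOn (fun t => F t - K * t) (Icc x y) := by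
    refine monotoneOn_of_deriv_nonneg (convex_Icc x y) ?_ ?_ ?_
    · intro t ht
      exact (((hder t ht).sub ((hasDerivAt_id t).const_mul K)).continuousAt).continuousWithinAt
    · intro t ht
      rw [interior_Icc] at ht
      exact ((hder t (Ioo_subset_Icc_self ht)).sub
        ((hasDerivAt_id t).const_mul K)).differentiableAt.differentiableWithinAt
    · intro t ht
      rw [interior_Icc] at ht
      have h1 := ((hder t (Ioo_subset_Icc_self ht)).sub ((hasDerivAt_id t).const_mul K))
      have h2 : deriv (fun t => F t - K * t) t = G t - K * 1 := h1.deriv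
      rw [h2]
      have := hK t (Ioo_subset_Icc_self ht)
      linarith
  have := hmono (left_mem_Icc.2 hxy) (right_mem_Icc.2 hxy) hxy
  simp only at this
  linarith

/-- Step A, one length: a small partial sum forces a large logarithmic growth. -/
theorem stepA_aux (h : Hyp f g a b c) {x : ℝ} (hx : x ∈ Icc a b) {n : ℕ} (hn : 1 ≤ n) {M : ℝ}
    (hM : S f n x ≤ M) : c * n / M * (x - a) ≤ Real.log (f n x) - Real.log (f n a) := by
  have hS := S_pos h hn hx
  have hM0 : 0 < M := lt_of_lt_of_le hS hM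
  refine growth (F := fun t => Real.log (f n t)) (G := fun t => g n t / f n t) hx.1 ?_ ?_
  · intro t ht
    have ht' : t ∈ Icc a b := ⟨ht.1, ht.2.trans hx.2⟩
    exact (h.der n t ht').log (h.pos n t ht').ne'
  · intro t ht
    have ht' : t ∈ Icc a b := ⟨ht.1, ht.2.trans hx.2⟩
    have hf := h.pos n t ht'
    rw [le_div_iff₀ hf]
    refine le_trans ?_ (h.ineq n t ht')
    have h1 : S f n t ≤ M := (S_mono h n ht' hx ht.2).trans hM
    have h2 := S_pos h hn ht'
    rw [div_mul_eq_mul_div]
    have := h.hc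
    exact div_le_div_of_nonneg_left (by positivity) h2 h1

/-- Step A: for every `x > a` the partial sums are at least `n ^ (1 - α)` infinitely often. -/
theorem stepA (h : Hyp f g a b c) {C : ℝ}
    (hlow : ∀ᶠ n : ℕ in atTop, (n : ℝ) ^ (-C) ≤ f n a)
    {x : ℝ} (hx : x ∈ Icc a b) (hax : a < x) {α : ℝ} (hα : 0 < α) (N : ℕ) :
    ∃ n, N ≤ n ∧ (n : ℝ) ^ (1 - α) ≤ S f n x := by
  by_contra hcon
  push Not at hcon
  have hc := h.hc
  have hK : 0 < c * (x - a) := mul_pos hc (by linarith)
  -- for all large n: c (x - a) n ^ α ≤ C log n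
  have key : ∀ᶠ n : ℕ in atTop, c * (x - a) * (n : ℝ) ^ α ≤ C * Real.log n := by
    filter_upwards [eventually_ge_atTop (max N 1), hlow] with n hn hlow'
    have hn1 : 1 ≤ n := le_trans (le_max_right _ _) hn
    have hnN : N ≤ n := le_trans (le_max_left _ _) hn
    have hn0 : (0 : ℝ) < n := by exact_mod_cast hn1
    have h1 := stepA_aux h hx hn1 (hcon n hnN).le
    have h2 : Real.log (f n x) ≤ 0 :=
      Real.log_nonpos (h.pos n x hx).le (h.le_one n x hx)
    have ha : a ∈ Icc a b := left_mem_Icc.2 h.hab.le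
    have h3 : -C * Real.log n ≤ Real.log (f n a) := by
      rw [← Real.log_rpow hn0]
      exact Real.log_le_log (Real.rpow_pos_of_pos hn0 _) hlow'
    have h4 : c * n / (n : ℝ) ^ (1 - α) = c * (n : ℝ) ^ α := by
      have h5 : (n : ℝ) = (n : ℝ) ^ (1 - α) * (n : ℝ) ^ α := by
        rw [← Real.rpow_add hn0]
        norm_num
      rw [div_eq_iff (Real.rpow_pos_of_pos hn0 _).ne', mul_assoc, mul_comm ((n : ℝ) ^ α), ← h5]
    rw [h4] at h1
    have h6 : c * (x - a) * (n : ℝ) ^ α = c * (n : ℝ) ^ α * (x - a) := by ring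
    rw [h6]
    linarith
  have hlim : Tendsto (fun n : ℕ => Real.log n / (n : ℝ) ^ α) atTop (𝓝 0) :=
    ((isLittleO_log_rpow_atTop hα).tendsto_div_nhds_zero).comp tendsto_natCast_atTop_atTop
  have hlim2 : Tendsto (fun n : ℕ => C * (Real.log n / (n : ℝ) ^ α)) atTop (𝓝 0) := by
    simpa using hlim.const_mul C
  have hev := hlim2.eventually (gt_mem_nhds hK)
  obtain ⟨n, hn1, hn2, hn3⟩ := (key.and (hev.and (eventually_ge_atTop 1))).exists
  have hn0 : (0 : ℝ) < n := by exact_mod_cast hn3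
  have hp := Real.rpow_pos_of_pos hn0 α
  have : C * (Real.log n / (n : ℝ) ^ α) * (n : ℝ) ^ α < c * (x - a) * (n : ℝ) ^ α :=
    mul_lt_mul_of_pos_right hn2 hp
  rw [mul_assoc, div_mul_cancel₀ _ hp.ne'] at this
  linarith

/-- logarithmic telescoping -/
theorem log_tele (h : Hyp f g a b c) {x : ℝ} (hx : x ∈ Icc a b) (n : ℕ) :
    Real.log (S f (n + 1) x) ≤ ∑ i ∈ Finset.range n, f (i + 1) x / S f (i + 1) x := by
  induction n with
  | zero =>
    simp only [Finset.range_zero, Finset.sum_empty]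
    have : S f (0 + 1) x = f 0 x := by simp [S]
    rw [this]
    exact Real.log_nonpos (h.pos 0 x hx).le (h.le_one 0 x hx)
  | succ n ih =>
    rw [Finset.sum_range_succ]
    have hS : 0 < S f (n + 1) x := S_pos h (by omega) hx
    have hf := h.pos (n + 1) x hx
    have h1 : S f (n + 1 + 1) x = S f (n + 1) x * (1 + f (n + 1) x / S f (n + 1) x) := by
      rw [mul_add, mul_one, mul_div_cancel₀ _ hS.ne']
      simp [S, Finset.sum_range_succ]
    rw [h1, Real.log_mul hS.ne' (by positivity)]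
    have h2 : Real.log (1 + f (n + 1) x / S f (n + 1) x) ≤ f (n + 1) x / S f (n + 1) x := by
      have := Real.log_le_sub_one_of_pos (x := 1 + f (n + 1) x / S f (n + 1) x) (by positivity)
      linarith
    linarith

/-- the harmonic averages -/
noncomputable def T (f : ℕ → ℝ → ℝ) (n : ℕ) (x : ℝ) : ℝ :=
  ∑ i ∈ Finset.range n, f (i + 1) x / ((i : ℝ) + 1)

theorem T_growth (h : Hyp f g a b c) {x y : ℝ} (hx : x ∈ Icc a b) (hy : y ∈ Icc a b)
    (hxy : x ≤ y) (n : ℕ) :
    c * Real.log (S f (n + 1) x) * (y - x) ≤ T f n y - T f n x := by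
  refine growth (F := T f n)
    (G := fun t => ∑ i ∈ Finset.range n, g (i + 1) t / ((i : ℝ) + 1)) hxy ?_ ?_
  · intro t ht
    have ht' : t ∈ Icc a b := ⟨hx.1.trans ht.1, ht.2.trans hy.2⟩
    unfold T
    exact HasDerivAt.fun_sum fun i _ => (h.der (i + 1) t ht').div_const _
  · intro t ht
    have ht' : t ∈ Icc a b := ⟨hx.1.trans ht.1, ht.2.trans hy.2⟩
    have h1 : Real.log (S f (n + 1) x) ≤ Real.log (S f (n + 1) t) :=
      Real.log_le_log (S_pos h (by omega) hx) (S_mono h _ hx ht' ht.1)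
    have h2 := log_tele h ht' n
    have hc := h.hc
    calc c * Real.log (S f (n + 1) x)
        ≤ c * ∑ i ∈ Finset.range n, f (i + 1) t / S f (i + 1) t := by
          exact mul_le_mul_of_nonneg_left (h1.trans h2) hc.le
      _ ≤ ∑ i ∈ Finset.range n, g (i + 1) t / ((i : ℝ) + 1) := by
          rw [Finset.mul_sum]
          refine Finset.sum_le_sum fun i _ => ?_
          have hi : (0 : ℝ) < (i : ℝ) + 1 := by positivity
          rw [le_div_iff₀ hi]
          refine le_trans (le_of_eq ?_) (h.ineq (i + 1) t ht')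
          push_cast
          ring

theorem T_nonneg (h : Hyp f g a b c) {x : ℝ} (hx : x ∈ Icc a b) (n : ℕ) : 0 ≤ T f n x :=
  Finset.sum_nonneg fun i _ => div_nonneg (h.pos _ x hx).le (by positivity)

/-- upper bound of the harmonic average by one late value -/
theorem T_le (h : Hyp f g a b c) {x : ℝ} (hx : x ∈ Icc a b) (m n : ℕ) :
    T f n x ≤ (m : ℝ) + f m x * (1 + Real.log n) := by
  have h1 : ∀ i : ℕ, f (i + 1) x / ((i : ℝ) + 1) ≤
      (if i < m then 1 else 0) + f m x * (1 / ((i : ℝ) + 1)) := by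
    intro i
    have hi : (0 : ℝ) < (i : ℝ) + 1 := by positivity
    have hfm := h.pos m x hx
    split_ifs with him
    · have h2 : f (i + 1) x / ((i : ℝ) + 1) ≤ 1 := by
        rw [div_le_one hi]
        have := h.le_one (i + 1) x hx
        have h3 : (0 : ℝ) ≤ i := Nat.cast_nonneg i
        linarith
      have h3 : 0 ≤ f m x * (1 / ((i : ℝ) + 1)) := by positivity
      linarith
    · have h2 : f (i + 1) x ≤ f m x := anti_le h hx (by omega)
      rw [zero_add, mul_one_div]
      exact div_le_div_of_nonneg_right h2 hi.le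
  have h2 : T f n x ≤ ∑ i ∈ Finset.range n, ((if i < m then (1 : ℝ) else 0) +
      f m x * (1 / ((i : ℝ) + 1))) := Finset.sum_le_sum fun i _ => h1 i
  refine h2.trans ?_
  rw [Finset.sum_add_distrib, ← Finset.mul_sum]
  have h3 : ∑ i ∈ Finset.range n, (if i < m then (1 : ℝ) else 0) ≤ m := by
    rw [← Finset.sum_filter, Finset.sum_const, nsmul_eq_mul, mul_one]
    have : (Finset.filter (fun i => i < m) (Finset.range n)).card ≤ m := by
      calc (Finset.filter (fun i => i < m) (Finset.range n)).card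
          ≤ (Finset.range m).card := Finset.card_le_card (by
            intro i hi
            rw [Finset.mem_filter] at hi
            exact Finset.mem_range.2 hi.2)
        _ = m := Finset.card_range m
    exact_mod_cast this
  have h4 : ∑ i ∈ Finset.range n, (1 / ((i : ℝ) + 1)) ≤ 1 + Real.log n := by
    have := harmonic_le_one_add_log n
    refine le_trans (le_of_eq ?_) this
    unfold harmonic
    push_cast
    refine Finset.sum_congr rfl fun i _ => ?_
    rw [one_div]
  have hfm := h.pos m x hx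
  have h5 := mul_le_mul_of_nonneg_left h4 hfm.le
  linarith

/-- The lemma of Duminil-Copin, Raoufi and Tassion in the form needed. -/
theorem main (h : Hyp f g a b c) {C : ℝ}
    (hlow : ∀ᶠ n : ℕ in atTop, (n : ℝ) ^ (-C) ≤ f n a) (m : ℕ) : c * (b - a) ≤ f m b := by
  have hb : b ∈ Icc a b := right_mem_Icc.2 h.hab.le
  have hc := h.hc
  -- first for every x in (a, b) and α in (0, 1)
  have key : ∀ x, a < x → x < b → ∀ α, 0 < α → α < 1 → c * (1 - α) * (b - x) ≤ f m b := by
    intro x hax hxb α hα hα1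
    have hx : x ∈ Icc a b := ⟨hax.le, hxb.le⟩
    have hinf : ∃ᶠ n : ℕ in atTop, (n : ℝ) ^ (1 - α) ≤ S f n x := by
      rw [frequently_atTop]
      intro N
      obtain ⟨n, hn, hn2⟩ := stepA h hlow hx hax hα N
      exact ⟨n, hn, hn2⟩
    by_contra hlt
    push Not at hlt
    set δ := c * (1 - α) * (b - x) - f m b with hδ
    have hδ0 : 0 < δ := by linarith
    have hlog : Tendsto (fun n : ℕ => Real.log (n : ℝ)) atTop atTop :=
      Real.tendsto_log_atTop.comp tendsto_natCast_atTop_atTop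
    have hev : ∀ᶠ n : ℕ in atTop, ((m : ℝ) + f m b) / δ + 1 < Real.log n :=
      hlog.eventually (eventually_gt_atTop _)
    obtain ⟨n, hn1, hn2, hn3⟩ := (hinf.and_eventually (hev.and (eventually_ge_atTop 2))).exists
    obtain ⟨k, rfl⟩ : ∃ k, n = k + 1 := ⟨n - 1, by omega⟩
    have hk1 : 1 ≤ k := by omega
    have hn0 : (0 : ℝ) < ((k + 1 : ℕ) : ℝ) := by positivity
    have h1 := T_growth h hx hb hxb.le k
    have h2 := T_nonneg h hx k
    have h3 := T_le h hb m k
    have h4 : (1 - α) * Real.log ((k + 1 : ℕ) : ℝ) ≤ Real.log (S f (k + 1) x) := by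
      rw [← Real.log_rpow hn0]
      exact Real.log_le_log (Real.rpow_pos_of_pos hn0 _) hn1
    have h5 : Real.log (k : ℝ) ≤ Real.log ((k + 1 : ℕ) : ℝ) := by
      apply Real.log_le_log
      · exact_mod_cast hk1
      · push_cast; linarith
    have hfm := h.pos m b hb
    have h6 : c * ((1 - α) * Real.log ((k + 1 : ℕ) : ℝ)) * (b - x) ≤
        c * Real.log (S f (k + 1) x) * (b - x) := by
      apply mul_le_mul_of_nonneg_right _ (by linarith)
      exact mul_le_mul_of_nonneg_left h4 hc.le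
    have h7 : c * ((1 - α) * Real.log ((k + 1 : ℕ) : ℝ)) * (b - x) ≤
        (m : ℝ) + f m b * (1 + Real.log ((k + 1 : ℕ) : ℝ)) := by
      have h8 : f m b * (1 + Real.log (k : ℝ)) ≤ f m b * (1 + Real.log ((k + 1 : ℕ) : ℝ)) :=
        mul_le_mul_of_nonneg_left (by linarith) hfm.le
      linarith
    have h9 : δ * Real.log ((k + 1 : ℕ) : ℝ) ≤ (m : ℝ) + f m b := by
      rw [hδ]
      nlinarith [h7]
    have h10 : ((m : ℝ) + f m b) < δ * Real.log ((k + 1 : ℕ) : ℝ) := by
      have h11 : ((m : ℝ) + f m b) / δ < Real.log ((k + 1 : ℕ) : ℝ) := by linarith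
      rw [div_lt_iff₀ hδ0] at h11
      linarith
    linarith
  -- let x tend to a and α to 0
  have hlim : Tendsto (fun t : ℝ => c * (1 - t) * (b - (a + t))) (𝓝[>] 0)
      (𝓝 (c * (1 - 0) * (b - (a + 0)))) := by
    apply Tendsto.mono_left _ nhdsWithin_le_nhds
    apply Continuous.tendsto
    fun_prop
  have hle : ∀ᶠ t : ℝ in 𝓝[>] 0, c * (1 - t) * (b - (a + t)) ≤ f m b := by
    have h1 : ∀ᶠ t : ℝ in 𝓝[>] 0, t < min 1 (b - a) := by
      apply eventually_nhdsWithin_of_eventually_nhds
      apply Iio_mem_nhds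
      exact lt_min one_pos (by linarith [h.hab])
    filter_upwards [h1, self_mem_nhdsWithin] with t ht ht0
    have ht0' : 0 < t := ht0
    have ht1 : t < 1 := lt_of_lt_of_le ht (min_le_left _ _)
    have ht2 : t < b - a := lt_of_lt_of_le ht (min_le_right _ _)
    exact key (a + t) (by linarith) (by linarith) t ht0' ht1
  have := le_of_tendsto hlim hle
  simpa using this

end Pool.Agent.Drt
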