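import Pool.Agent.Drt.Explore
import Pool.Agent.Drt.Loop
import Pool.Agent.SRC.Bern
import Pool.Agent.SRC.Block

/-!
The swap inequality on the lattice, in the definitions of `SRC`.
-/

namespace Pool.Agent.Drt

open Finset Pool.Agent.SRC

open scoped symmDiff

set_option linter.unusedSectionVars false

section transfer

variable {α : Type*} [DecidableEq α]

/-- from subsets of the type `E` to finsets -/
def em {E : Finset α} (s : Finset {e // e ∈ E}) : Finset α := s.map (Function.Embedding.subtype _)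

/-- back -/
def dn {E : Finset α} (s : Finset α) : Finset {e // e ∈ E} := s.subtype (fun e => e ∈ E)

theorem mem_em {E : Finset α} {s : Finset {e // e ∈ E}} {e : α} :
    e ∈ em s ↔ ∃ h : e ∈ E, (⟨e, h⟩ : {e // e ∈ E}) ∈ s := by
  simp [em]

theorem coe_mem_em {E : Finset α} {s : Finset {e // e ∈ E}} {e : {e // e ∈ E}} :
    (e : α) ∈ em s ↔ e ∈ s := by
  rw [mem_em]
  exact ⟨fun ⟨_, h⟩ => h, fun h => ⟨e.2, h⟩⟩

theorem mem_dn {E : Finset α} {s : Finset α} {e : {e // e ∈ E}} :
    e ∈ (dn s : Finset {e // e ∈ E}) ↔ (e : α) ∈ s := by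
  simp [dn]

theorem em_subset {E : Finset α} (s : Finset {e // e ∈ E}) : em s ⊆ E := by
  intro e he
  rw [mem_em] at he
  exact he.1

theorem dn_em {E : Finset α} (s : Finset {e // e ∈ E}) : dn (em s) = s := by
  ext e
  rw [mem_dn, coe_mem_em]

theorem em_dn {E : Finset α} {s : Finset α} (h : s ⊆ E) : em (dn s : Finset {e // e ∈ E}) = s := by
  ext e
  rw [mem_em]
  constructor
  · rintro ⟨h1, h2⟩
    rw [mem_dn] at h2
    exact h2
  · intro h1
    refine ⟨h h1, ?_⟩
    rw [mem_dn]
    exact h1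

theorem em_union {E : Finset α} (s t : Finset {e // e ∈ E}) : em (s ∪ t) = em s ∪ em t := by
  ext e
  simp only [mem_em, mem_union]
  constructor
  · rintro ⟨h1, h2 | h2⟩
    · exact Or.inl ⟨h1, h2⟩
    · exact Or.inr ⟨h1, h2⟩
  · rintro (⟨h1, h2⟩ | ⟨h1, h2⟩)
    · exact ⟨h1, Or.inl h2⟩
    · exact ⟨h1, Or.inr h2⟩

theorem em_symm {E : Finset α} (s t : Finset {e // e ∈ E}) : em (s ∆ t) = em s ∆ em t := by
  ext e
  simp only [mem_em, mem_symmDiff]
  constructor
  · rintro ⟨h1, h2 | h2⟩
    · exact Or.inl ⟨⟨h1, h2.1⟩, fun ⟨_, h⟩ => h2.2 h⟩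
    · exact Or.inr ⟨⟨h1, h2.1⟩, fun ⟨_, h⟩ => h2.2 h⟩
  · rintro (⟨⟨h1, h2⟩, h3⟩ | ⟨⟨h1, h2⟩, h3⟩)
    · exact ⟨h1, Or.inl ⟨h2, fun h => h3 ⟨h1, h⟩⟩⟩
    · exact ⟨h1, Or.inr ⟨h2, fun h => h3 ⟨h1, h⟩⟩⟩

theorem em_mono {E : Finset α} {s t : Finset {e // e ∈ E}} (h : s ⊆ t) : em s ⊆ em t := by
  intro e he
  rw [mem_em] at he ⊢
  exact ⟨he.1, h he.2⟩

theorem card_em {E : Finset α} (s : Finset {e // e ∈ E}) : (em s).card = s.card := by
  simp [em]

theorem card_em_compl {E : Finset α} (s : Finset {e // e ∈ E}) : (E \ em s).card = (sᶜ).card := by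
  rw [← card_em sᶜ]
  congr 1
  ext e
  simp only [mem_sdiff, mem_em, mem_compl]
  constructor
  · rintro ⟨h1, h2⟩
    exact ⟨h1, fun h => h2 ⟨h1, h⟩⟩
  · rintro ⟨h1, h2⟩
    exact ⟨h1, fun ⟨_, h⟩ => h2 h⟩

theorem sum_em (E : Finset α) (F : Finset α → ℝ) :
    ∑ s ∈ E.powerset, F s = ∑ s : Finset {e // e ∈ E}, F (em s) := by
  refine sum_bij' (fun s _ => (dn s : Finset {e // e ∈ E})) (fun s _ => em s) ?_ ?_ ?_ ?_ ?_
  · intro s _
    exact mem_univ _
  · intro s _
    rw [mem_powerset]
    exact em_subset s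
  · intro s hs
    exact em_dn (mem_powerset.1 hs)
  · intro s _
    exact dn_em s
  · intro s hs
    rw [em_dn (mem_powerset.1 hs)]

end transfer

section fiber

variable {E : Type*} [Fintype E] [DecidableEq E]

/-- union with an independent Bernoulli set -/
theorem ber_union (q : ℝ) (A : Finset E) (h : Finset E → ℝ) :
    ∑ c : Finset E, ber q c * h (A ∪ c) =
      ∑ om : Finset E, if A ⊆ om then q ^ (om \ A).card * (1 - q) ^ (omᶜ).card * h om else 0 := by
  have h1 : ∑ c : Finset E, ber q c * h (A ∪ c) =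
      ∑ om : Finset E, ∑ c ∈ univ.filter (fun c : Finset E => A ∪ c = om),
        ber q c * h (A ∪ c) := (sum_fiberwise _ _ _).symm
  rw [h1]
  refine sum_congr rfl fun om _ => ?_
  split_ifs with hA
  · have h2 : ∑ c ∈ univ.filter (fun c : Finset E => A ∪ c = om), ber q c * h (A ∪ c) =
        ∑ z ∈ A.powerset, (q ^ (om \ A).card * (1 - q) ^ (omᶜ).card * h om) *
          (q ^ z.card * (1 - q) ^ (A \ z).card) := by
      symm
      refine sum_bij' (fun z _ => z ∪ (om \ A)) (fun c _ => c ∩ A) ?_ ?_ ?_ ?_ ?_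
      · intro z hz
        rw [mem_powerset] at hz
        rw [mem_filter]
        refine ⟨mem_univ _, ?_⟩
        ext e
        simp only [mem_union, mem_sdiff]
        constructor
        · rintro (h3 | h3 | h3)
          · exact hA h3
          · exact hA (hz h3)
          · exact h3.1
        · intro h3
          by_cases h4 : e ∈ A
          · exact Or.inl h4
          · exact Or.inr (Or.inr ⟨h3, h4⟩)
      · intro c _
        rw [mem_powerset]
        exact inter_subset_right
      · intro z hz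
        rw [mem_powerset] at hz
        ext e
        simp only [mem_inter, mem_union, mem_sdiff]
        constructor
        · rintro ⟨h3 | h3, h4⟩
          · exact h3
          · exact absurd h4 h3.2
        · intro h3
          exact ⟨Or.inl h3, hz h3⟩
      · intro c hc
        rw [mem_filter] at hc
        rw [← hc.2]
        ext e
        simp only [mem_inter, mem_union, mem_sdiff]
        tauto
      · intro z hz
        rw [mem_powerset] at hz
        have h3 : A ∪ (z ∪ (om \ A)) = om := by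
          ext e
          simp only [mem_union, mem_sdiff]
          constructor
          · rintro (h3 | h3 | h3)
            · exact hA h3
            · exact hA (hz h3)
            · exact h3.1
          · intro h3
            by_cases h4 : e ∈ A
            · exact Or.inl h4
            · exact Or.inr (Or.inr ⟨h3, h4⟩)
        have h4 : (z ∪ (om \ A)).card = z.card + (om \ A).card := by
          refine card_union_of_disjoint ?_
          rw [Finset.disjoint_left]
          intro e he1 he2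
          exact (mem_sdiff.1 he2).2 (hz he1)
        have h5 : ((z ∪ (om \ A))ᶜ).card = (A \ z).card + (omᶜ).card := by
          rw [← card_union_of_disjoint]
          · congr 1
            ext e
            simp only [mem_compl, mem_union, mem_sdiff]
            have := @hA e
            tauto
          · rw [Finset.disjoint_left]
            intro e he1 he2
            exact (mem_compl.1 he2) (hA (mem_sdiff.1 he1).1)
        unfold ber
        rw [h3, h4, h5, pow_add, pow_add]
        ring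
    rw [h2, ← mul_sum, sum_compl_pow, mul_one]
  · apply sum_eq_zero
    intro c hc
    rw [mem_filter] at hc
    exfalso
    apply hA
    rw [← hc.2]
    exact subset_union_left

end fiber


section lattice

variable {d : ℕ}

/-- first end of an edge of `E` -/
def ea {E : Finset (Ed d)} (e : {e // e ∈ E}) : Vx d := e.1.1

/-- second end -/
def eb {E : Finset (Ed d)} (e : {e // e ∈ E}) : Vx d := tip e.1

/-- the trace as a finset of lattice edges -/
def trc {E : Finset (Ed d)} (u : Om {e // e ∈ E}) : Finset (Ed d) := em u.1 ∪ em u.2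

theorem adj_iff {E : Finset (Ed d)} (u : Om {e // e ∈ E}) (p q : Vx d) :
    Adj ea eb Set.univ (tr u) p q ↔ adj (↑(trc u) : Set (Ed d)) p q := by
  constructor
  · rintro ⟨e, _, hy, h⟩
    have hmem : (e : Ed d) ∈ trc u := by
      unfold tr at hy
      rw [decide_eq_true_eq] at hy
      unfold trc
      rw [← em_union, coe_mem_em]
      exact hy
    obtain ⟨⟨v, i⟩, he⟩ := e
    refine ⟨i, ?_⟩
    rcases h with ⟨h1, h2⟩ | ⟨h1, h2⟩
    · left
      have h1' : v = p := h1
      subst h1'
      exact ⟨hmem, h2.symm⟩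
    · right
      have h1' : v = q := h1
      subst h1'
      exact ⟨hmem, h2.symm⟩
  · rintro ⟨i, h | h⟩
    · obtain ⟨h1, h2⟩ := h
      have h1' : (p, i) ∈ trc u := h1
      unfold trc at h1'
      rw [← em_union, mem_em] at h1'
      obtain ⟨hE, h3⟩ := h1'
      refine ⟨⟨(p, i), hE⟩, Set.mem_univ _, ?_, Or.inl ⟨rfl, h2.symm⟩⟩
      unfold tr
      rw [decide_eq_true_eq]
      exact h3
    · obtain ⟨h1, h2⟩ := h
      have h1' : (q, i) ∈ trc u := h1
      unfold trc at h1'
      rw [← em_union, mem_em] at h1'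
      obtain ⟨hE, h3⟩ := h1'
      refine ⟨⟨(q, i), hE⟩, Set.mem_univ _, ?_, Or.inr ⟨rfl, h2.symm⟩⟩
      unfold tr
      rw [decide_eq_true_eq]
      exact h3

theorem conn_iff {E : Finset (Ed d)} (u : Om {e // e ∈ E}) (p q : Vx d) :
    Conn ea eb Set.univ (tr u) p q ↔ conn (↑(trc u) : Set (Ed d)) p q := by
  unfold Conn conn
  have : Adj ea eb Set.univ (tr u) = adj (↑(trc u) : Set (Ed d)) := by
    funext p q
    exact propext (adj_iff u p q)
  rw [this]

/-- the sphere of radius `k` round the origin -/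
def sph (d k : ℕ) : Set (Vx d) := {v | (∀ i, |v i| ≤ k) ∧ ∃ i, |v i| = k}

theorem uv_abs (i j : Fin d) : |(uv i : Vx d) j| ≤ 1 := by
  unfold uv
  by_cases h : j = i
  · subst h
    simp
  · rw [Pi.single_eq_of_ne h]
    simp

theorem adj_dist {ω : Set (Ed d)} {p q : Vx d} (h : adj ω p q) (j : Fin d) :
    |q j| ≤ |p j| + 1 := by
  obtain ⟨i, ⟨_, h1⟩ | ⟨_, h1⟩⟩ := h
  · rw [h1, Pi.add_apply]
    have := abs_add_le (p j) ((uv i : Vx d) j)
    have := uv_abs i j
    linarith
  · have h2 : q j = p j - (uv i : Vx d) j := by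
      rw [h1, Pi.add_apply]
      ring
    rw [h2]
    have := abs_sub (p j) ((uv i : Vx d) j)
    have := uv_abs i j
    linarith

/-- a path from the origin to a far vertex crosses the sphere -/
theorem cross {ω : Set (Ed d)} {v : Vx d} {k : ℕ} (h : conn ω 0 v) (hv : ∃ i, (k : ℤ) ≤ |v i|) :
    ∃ u ∈ sph d k, conn ω u 0 ∧ conn ω u v := by
  unfold conn at h
  induction h with
  | refl =>
    obtain ⟨i, hi⟩ := hv
    have hk : (k : ℤ) = 0 := by
      have h1 : (k : ℤ) ≤ 0 := by simpa using hi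
      have h2 : (0 : ℤ) ≤ k := Int.natCast_nonneg k
      linarith
    refine ⟨0, ⟨fun j => ?_, i, ?_⟩, conn_refl _ _, conn_refl _ _⟩
    · rw [hk]; simp
    · rw [hk]; simp
  | @tail p q h1 h2 ih =>
    by_cases hp : ∃ i, (k : ℤ) ≤ |p i|
    · obtain ⟨u, hu, h3, h4⟩ := ih hp
      exact ⟨u, hu, h3, Relation.ReflTransGen.tail h4 h2⟩
    · push Not at hp
      have h5 : conn ω 0 q := Relation.ReflTransGen.tail h1 h2
      refine ⟨q, ⟨fun j => ?_, ?_⟩, conn_symm h5, conn_refl _ _⟩
      · have := adj_dist h2 j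
        have := hp j
        linarith
      · obtain ⟨i, hi⟩ := hv
        refine ⟨i, le_antisymm ?_ hi⟩
        have := adj_dist h2 i
        have := hp i
        linarith

theorem far_iff {n k : ℕ} (hk : k ≤ n) (ω : Set (Ed d)) :
    Far (n : ℤ) ω 0 ↔ ∃ v : Vx d, (∃ i, (n : ℤ) ≤ |v i|) ∧ ∃ u ∈ sph d k, conn ω u 0 ∧
      conn ω u v := by
  unfold Far
  constructor
  · rintro ⟨v, h1, i, hi⟩
    have hi' : (n : ℤ) ≤ |v i| := by simpa using hi
    have hk' : (k : ℤ) ≤ |v i| := by
      have : (k : ℤ) ≤ n := by exact_mod_cast hk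
      linarith
    exact ⟨v, ⟨i, hi'⟩, cross h1 ⟨i, hk'⟩⟩
  · rintro ⟨v, ⟨i, hi⟩, u, _, h1, h2⟩
    exact ⟨v, conn_trans (conn_symm h1) h2, i, by simpa using hi⟩

/-- adding the edges of `H`: either nothing changes or both ends of the path touch `H` -/
theorem conn_split {ω : Set (Ed d)} {H : Set (Ed d)} {p q : Vx d} (h : conn (ω ∪ H) p q) :
    conn ω p q ∨ ((∃ e ∈ H, conn ω p e.1 ∨ conn ω p (tip e)) ∧
      ∃ e ∈ H, conn ω e.1 q ∨ conn ω (tip e) q) := by
  unfold conn at h
  induction h with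
  | refl => exact Or.inl (conn_refl _ _)
  | @tail r t h1 h2 ih =>
    obtain ⟨i, hi⟩ := h2
    -- the step is in ω or in H
    by_cases hω : adj ω r t
    · rcases ih with ih | ⟨ih1, e, he, ih2⟩
      · exact Or.inl (Relation.ReflTransGen.tail ih hω)
      · refine Or.inr ⟨ih1, e, he, ?_⟩
        rcases ih2 with ih2 | ih2
        · exact Or.inl (Relation.ReflTransGen.tail ih2 hω)
        · exact Or.inr (Relation.ReflTransGen.tail ih2 hω)
    · right
      rcases hi with ⟨h3, h4⟩ | ⟨h3, h4⟩
      · have hH : (r, i) ∈ H := by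
          rcases h3 with h3 | h3
          · exact absurd ⟨i, Or.inl ⟨h3, h4⟩⟩ hω
          · exact h3
        have htip : tip (r, i) = t := by
          rw [h4]; rfl
        refine ⟨?_, (r, i), hH, Or.inr (by rw [htip]; exact conn_refl _ _)⟩
        rcases ih with ih | ih
        · exact ⟨(r, i), hH, Or.inl ih⟩
        · exact ih.1
      · have hH : (t, i) ∈ H := by
          rcases h3 with h3 | h3
          · exact absurd ⟨i, Or.inr ⟨h3, h4⟩⟩ hω
          · exact h3
        have htip : tip (t, i) = r := by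
          rw [h4]; rfl
        refine ⟨?_, (t, i), hH, Or.inl (conn_refl _ _)⟩
        rcases ih with ih | ih
        · exact ⟨(t, i), hH, Or.inr (by rw [htip]; exact ih)⟩
        · exact ih.1

theorem far_split {n : ℤ} {ω ω' H : Set (Ed d)} (hsub : ω' ⊆ ω ∪ H) (h1 : ¬ Far n ω 0)
    (h2 : Far n ω' 0) : (∃ e ∈ H, conn ω 0 e.1 ∨ conn ω 0 (tip e)) ∧
      ∃ v : Vx d, (∃ i, n ≤ |v i|) ∧ ∃ e ∈ H, conn ω v e.1 ∨ conn ω v (tip e) := by
  obtain ⟨v, h3, i, hi⟩ := h2
  have h4 := conn_split (conn_mono hsub h3)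
  rcases h4 with h4 | ⟨h4, e, he, h5⟩
  · exact absurd ⟨v, h4, i, hi⟩ h1
  · refine ⟨h4, v, ⟨i, by simpa using hi⟩, e, he, ?_⟩
    exact h5.imp conn_symm conn_symm

end lattice


section final

variable {d : ℕ}

/-- even subgraphs -/
def Ev (E : Finset (Ed d)) (s : Finset {e // e ∈ E}) : Prop := bd (em s) = 0

theorem bd_symmDiff (η ζ : Finset (Ed d)) : bd (η ∆ ζ) = bd η + bd ζ := by
  have h1 : bd η = bd (η \ ζ) + bd (η ∩ ζ) := by
    unfold bd
    rw [← Finset.sum_union (Finset.disjoint_sdiff_inter η ζ), Finset.sdiff_union_inter]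
  have h2 : bd ζ = bd (ζ \ η) + bd (η ∩ ζ) := by
    unfold bd
    rw [Finset.inter_comm, ← Finset.sum_union (Finset.disjoint_sdiff_inter ζ η),
      Finset.sdiff_union_inter]
  have h3 : bd (η ∆ ζ) = bd (η \ ζ) + bd (ζ \ η) := by
    have h4 : η ∆ ζ = (η \ ζ) ∪ (ζ \ η) := rfl
    rw [h4]
    unfold bd
    rw [Finset.sum_union]
    rw [Finset.disjoint_left]
    intro e he1 he2
    exact (mem_sdiff.1 he2).2 (mem_sdiff.1 he1).1
  have h5 : bd (η ∩ ζ) + bd (η ∩ ζ) = 0 := by
    funext v
    exact CharTwo.add_self_eq_zero _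
  rw [h3, h1, h2]
  calc bd (η \ ζ) + bd (ζ \ η) = bd (η \ ζ) + bd (ζ \ η) + 0 := by rw [add_zero]
    _ = bd (η \ ζ) + bd (ζ \ η) + (bd (η ∩ ζ) + bd (η ∩ ζ)) := by rw [h5]
    _ = _ := by abel

theorem closed_Ev (E : Finset (Ed d)) : Closed (Ev E) where
  empty := by
    unfold Ev
    have : em (∅ : Finset {e // e ∈ E}) = ∅ := by simp [em]
    rw [this]
    exact Finset.sum_empty
  symm := by
    intro s t hs ht
    unfold Ev at *
    rw [em_symm, bd_symmDiff, hs, ht, add_zero]

open Classical in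
theorem EL_em (x : ℝ) (E : Finset (Ed d)) (F : Finset (Ed d) → ℝ) :
    EL (loopM x) E 0 F =
      ∑ η : Finset {e // e ∈ E}, (if Ev E η then x ^ η.card * F (em η) else 0) := by
  unfold EL loopM
  rw [sum_em]
  refine sum_congr rfl fun η _ => ?_
  simp only [one_smul, one_pow, mul_one, card_em]
  by_cases h : Ev E η
  · have h' : bd (em η) = 0 := h
    rw [if_pos h, ind_true h', one_mul]
  · have h' : ¬ bd (em η) = 0 := h
    rw [if_neg h, ind_false h', zero_mul, zero_mul]

theorem EB_em (s : ℝ) (E : Finset (Ed d)) (F : Finset (Ed d) → ℝ) :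
    EB s E F = ∑ b : Finset {e // e ∈ E}, ber s b * F (em b) := by
  unfold EB ber
  rw [sum_em]
  refine sum_congr rfl fun b _ => ?_
  rw [card_em, card_em_compl]

/-- unnormalised expectation of the pair of copies with the coins `c` -/
noncomputable def QQ (x s : ℝ) (E : Finset (Ed d))
    (f : Finset (Ed d) → Finset (Ed d) → Finset (Ed d) → Finset (Ed d) → Finset (Ed d) → ℝ) : ℝ :=
  EL (loopM x) E 0 (fun n1 => EL (loopM x) E 0 (fun n2 => EB (x ^ 2) E (fun c =>
    EB s E (fun b1 => EB s E (fun b2 => f n1 n2 c b1 b2)))))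

theorem wt_eq {F : Type*} [Fintype F] [DecidableEq F] (x : ℝ) {n1 n2 om : Finset F}
    (h1 : n1 ⊆ om) (h2 : n2 ⊆ om) :
    x ^ (n1 ∆ n2).card * (x ^ 2) ^ (om \ (n1 ∆ n2)).card =
      x ^ n1.card * x ^ n2.card * (x ^ 2) ^ (om \ (n1 ∪ n2)).card := by
  have h3 : (om \ (n1 ∆ n2)).card = (n1 ∩ n2).card + (om \ (n1 ∪ n2)).card := by
    rw [← card_union_of_disjoint]
    · congr 1
      ext e
      simp only [mem_sdiff, mem_union, mem_symmDiff, mem_inter]
      have := @h1 e
      have := @h2 e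
      tauto
    · rw [Finset.disjoint_left]
      intro e he1 he2
      exact (mem_sdiff.1 he2).2 (mem_union_left _ (mem_inter.1 he1).1)
  have h4 : n1.card + n2.card = (n1 ∆ n2).card + 2 * (n1 ∩ n2).card := by
    have h5 : n1.card = (n1 \ n2).card + (n1 ∩ n2).card := by
      rw [add_comm, card_inter_add_card_sdiff]
    have h6 : n2.card = (n2 \ n1).card + (n1 ∩ n2).card := by
      rw [inter_comm, add_comm, card_inter_add_card_sdiff]
    have h7 : (n1 ∆ n2).card = (n1 \ n2).card + (n2 \ n1).card := by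
      have : n1 ∆ n2 = (n1 \ n2) ∪ (n2 \ n1) := rfl
      rw [this]
      refine card_union_of_disjoint ?_
      rw [Finset.disjoint_left]
      intro e he1 he2
      exact (mem_sdiff.1 he2).2 (mem_sdiff.1 he1).1
    omega
  rw [h3, ← pow_mul, ← pow_mul, ← pow_add, ← pow_add, ← pow_add]
  congr 1
  omega

theorem QQ_eq (x s : ℝ) (E : Finset (Ed d))
    (g : Finset (Ed d) → Finset (Ed d) → Finset (Ed d) → Finset (Ed d) → Finset (Ed d) → ℝ) :
    QQ x s E (fun n1 n2 c b1 b2 => g n1 n2 (n1 ∪ n2 ∪ c) b1 b2) =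
      ∑ p : Pr {e // e ∈ E}, wt (Ev E) x s p *
        g (em p.1) (em p.2.1) (em p.2.2.1) (em p.2.2.2.1) (em p.2.2.2.2) := by
  classical
  unfold QQ
  rw [EL_em]
  simp only [Fintype.sum_prod_type]
  refine sum_congr rfl fun n1 _ => ?_
  rw [EL_em]
  by_cases h1 : Ev E n1
  · rw [if_pos h1, mul_sum]
    refine sum_congr rfl fun n2 _ => ?_
    by_cases h2 : Ev E n2
    · rw [if_pos h2, EB_em]
      have h3 : ∀ c : Finset {e // e ∈ E}, em n1 ∪ em n2 ∪ em c = em ((n1 ∪ n2) ∪ c) := by
        intro c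
        rw [em_union, em_union]
      simp only [h3]
      rw [ber_union (x ^ 2) (n1 ∪ n2) (fun om => EB s E (fun b1 => EB s E (fun b2 =>
        g (em n1) (em n2) (em om) b1 b2))), mul_sum, mul_sum]
      refine sum_congr rfl fun om _ => ?_
      by_cases h4 : n1 ∪ n2 ⊆ om
      · rw [if_pos h4, EB_em]
        have h5 : n1 ⊆ om := subset_union_left.trans h4
        have h6 : n2 ⊆ om := subset_union_right.trans h4
        simp only [EB_em, mul_sum]
        refine sum_congr rfl fun b1 _ => sum_congr rfl fun b2 _ => ?_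
        have h7 : wt (Ev E) x s (n1, n2, om, b1, b2) = x ^ (n1 ∆ n2).card *
            ((x ^ 2) ^ (om \ (n1 ∆ n2)).card * (1 - x ^ 2) ^ (omᶜ).card) *
              (ber s b1 * ber s b2) := by
          unfold wt
          exact if_pos ⟨h1, h2, h5, h6⟩
        have h8 := wt_eq x h5 h6
        rw [h7]
        calc _ = (x ^ n1.card * x ^ n2.card * (x ^ 2) ^ (om \ (n1 ∪ n2)).card) *
              (1 - x ^ 2) ^ (omᶜ).card * (ber s b1 * ber s b2) *
                g (em n1) (em n2) (em om) (em b1) (em b2) := by ring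
          _ = _ := by rw [← h8]; ring
      · rw [if_neg h4, mul_zero, mul_zero]
        symm
        apply sum_eq_zero
        intro b1 _
        apply sum_eq_zero
        intro b2 _
        have h7 : wt (Ev E) x s (n1, n2, om, b1, b2) = 0 := by
          unfold wt
          exact if_neg fun h => h4 (union_subset h.2.2.1 h.2.2.2)
        rw [h7, zero_mul]
    · rw [if_neg h2, mul_zero]
      symm
      apply sum_eq_zero
      intro om _
      apply sum_eq_zero
      intro b1 _
      apply sum_eq_zero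
      intro b2 _
      have h7 : wt (Ev E) x s (n1, n2, om, b1, b2) = 0 := by
        unfold wt
        exact if_neg fun h => h2 h.2.1
      rw [h7, zero_mul]
  · rw [if_neg h1]
    symm
    apply sum_eq_zero
    intro n2 _
    apply sum_eq_zero
    intro om _
    apply sum_eq_zero
    intro b1 _
    apply sum_eq_zero
    intro b2 _
    have h7 : wt (Ev E) x s (n1, n2, om, b1, b2) = 0 := by
      unfold wt
      exact if_neg fun h => h1 h.1
    rw [h7, zero_mul]


/-- expectation of `f η b` -/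
noncomputable def PE (x s : ℝ) (E : Finset (Ed d))
    (f : Finset (Ed d) → Finset (Ed d) → ℝ) : ℝ :=
  EL (loopM x) E 0 (fun η => EB s E (f η)) / ZZ (loopM x) E 0

/-- `G om De` is a finite family of even subsets of `om` with sum (mod 2) `De`. -/
def DecL (E : Finset (Ed d)) (G : Finset (Ed d) → Finset (Ed d) → Finset (Finset (Ed d))) : Prop :=
  ∀ om De, om ⊆ E → De ⊆ om → bd De = 0 → (∀ g ∈ G om De, g ⊆ om ∧ bd g = 0) ∧
    ∀ e, (e ∈ De ↔ Odd ((G om De).filter (fun g => e ∈ g)).card)

/-- the local set of `e`: `e` and all members of the family through `e` -/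
def HH (G : Finset (Ed d) → Finset (Ed d) → Finset (Finset (Ed d))) (om De : Finset (Ed d))
    (e : Ed d) : Set (Ed d) :=
  {e' | e' = e ∨ ∃ g ∈ G om De, e ∈ g ∧ e' ∈ g}

open Classical in
/-- the transported family -/
noncomputable def GG (E : Finset (Ed d))
    (G : Finset (Ed d) → Finset (Ed d) → Finset (Finset (Ed d)))
    (om De : Finset {e // e ∈ E}) : Finset (Finset {e // e ∈ E}) :=
  if De ⊆ om ∧ Ev E De then (G (em om) (em De)).image dn else {De}

theorem dec_GG {E : Finset (Ed d)} {G : Finset (Ed d) → Finset (Ed d) → Finset (Finset (Ed d))}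
    (hG : DecL E G) : Dec (Ev E) (GG E G) where
  sum := by
    classical
    intro om De
    unfold GG
    split_ifs with h
    · obtain ⟨h1, h2⟩ := hG (em om) (em De) (em_subset _) (em_mono h.1) h.2
      ext e
      rw [mem_xsum, ← coe_mem_em, h2 e]
      have h3 : (((G (em om) (em De)).image dn).filter (fun g : Finset {e // e ∈ E} => e ∈ g)) =
          ((G (em om) (em De)).filter (fun g => (e : Ed d) ∈ g)).image dn := by
        ext g
        simp only [mem_filter, mem_image]
        constructor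
        · rintro ⟨⟨g', h4, h5⟩, h6⟩
          refine ⟨g', ⟨h4, ?_⟩, h5⟩
          rw [← h5, mem_dn] at h6
          exact h6
        · rintro ⟨g', ⟨h4, h5⟩, h6⟩
          refine ⟨⟨g', h4, h6⟩, ?_⟩
          rw [← h6, mem_dn]
          exact h5
      rw [h3, card_image_of_injOn]
      intro g hg g' hg' hgg
      have h4 : g ⊆ E := (h1 g (mem_filter.1 hg).1).1.trans (em_subset _)
      have h5 : g' ⊆ E := (h1 g' (mem_filter.1 hg').1).1.trans (em_subset _)
      have hgg' : (dn g : Finset {e // e ∈ E}) = dn g' := hgg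
      rw [← em_dn h4, ← em_dn h5, hgg']
    · have : ({De} : Finset (Finset {e // e ∈ E})) = insert De ∅ := rfl
      rw [this, xsum_insert (notMem_empty _), xsum_empty]
      ext e
      simp [mem_symmDiff]
  mem := by
    intro om De h1 h2 g hg
    unfold GG at hg
    rw [if_pos ⟨h1, h2⟩, mem_image] at hg
    obtain ⟨g', h3, h4⟩ := hg
    obtain ⟨h5, h6⟩ := (hG (em om) (em De) (em_subset _) (em_mono h1) h2).1 g' h3
    have h7 : g' ⊆ E := h5.trans (em_subset _)
    have h8 : em g = g' := by rw [← h4, em_dn h7]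
    refine ⟨?_, ?_⟩
    · intro e he
      rw [← coe_mem_em, h8] at he
      have := h5 he
      rwa [coe_mem_em] at this
    · unfold Ev
      rw [h8]
      exact h6

theorem xsum_sub {F : Type*} [Fintype F] [DecidableEq F] {S : Finset (Finset F)} {e : F}
    (h : e ∈ xsum S) : ∃ g ∈ S, e ∈ g := by
  rw [mem_xsum] at h
  have h1 : (S.filter (fun g => e ∈ g)).Nonempty := by
    rw [nonempty_iff_ne_empty]
    intro h2
    rw [h2, card_empty] at h
    exact absurd h (by decide)
  obtain ⟨g, hg⟩ := h1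
  exact ⟨g, (mem_filter.1 hg).1, (mem_filter.1 hg).2⟩

/-- the event on the right hand side of the swap inequality -/
def Ev2 (n k : ℕ) (G : Finset (Ed d) → Finset (Ed d) → Finset (Finset (Ed d))) (e : Ed d)
    (n1 n2 om b1 b2 : Finset (Ed d)) : Prop :=
  (∃ v ∈ sph d k, conn (↑(n2 ∪ b2) : Set (Ed d)) v e.1 ∨
      conn (↑(n2 ∪ b2) : Set (Ed d)) v (tip e)) ∧
    ¬ Far (n : ℤ) (↑(n1 ∪ b1) : Set (Ed d)) 0 ∧
    (∃ e' ∈ HH G om (n1 ∆ n2) e, conn (↑(n1 ∪ b1) : Set (Ed d)) 0 e'.1 ∨
      conn (↑(n1 ∪ b1) : Set (Ed d)) 0 (tip e')) ∧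
    ∃ v : Vx d, (∃ i, (n : ℤ) ≤ |v i|) ∧ ∃ e' ∈ HH G om (n1 ∆ n2) e,
      conn (↑(n1 ∪ b1) : Set (Ed d)) v e'.1 ∨ conn (↑(n1 ∪ b1) : Set (Ed d)) v (tip e')

/-- THE SWAP INEQUALITY on a finite set `E` of lattice edges. -/
theorem swap_out {x s : ℝ} (hx : 0 ≤ x) (hx1 : x ≤ 1) (hs : 0 ≤ s) (hs1 : s ≤ 1)
    (E : Finset (Ed d)) (G : Finset (Ed d) → Finset (Ed d) → Finset (Finset (Ed d)))
    (hG : DecL E G) {n k : ℕ} (hk : k ≤ n) :
    PE x s E (fun η b => ind (Far (n : ℤ) (↑(η ∪ b) : Set (Ed d)) 0)) *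
        (1 - PE x s E (fun η b => ind (Far (n : ℤ) (↑(η ∪ b) : Set (Ed d)) 0))) ≤
      (∑ e ∈ E, QQ x s E (fun n1 n2 c b1 b2 => ind (Ev2 n k G e n1 n2 (n1 ∪ n2 ∪ c) b1 b2))) /
        ZZ (loopM x) E 0 ^ 2 := by
  classical
  set A : Om {e // e ∈ E} → Prop := fun u => Far (n : ℤ) (↑(trc u) : Set (Ed d)) 0 with hAdef
  set Z := ZZ (loopM x) E 0 with hZ
  have hZpos : 0 < Z := lt_of_lt_of_le one_pos (ZZ_zero_ge x hx E)
  set P1 := EL (loopM x) E 0 (fun η => EB s E (fun b =>
    ind (Far (n : ℤ) (↑(η ∪ b) : Set (Ed d)) 0))) with hP1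
  have hmu : ∀ u : Om {e // e ∈ E}, mu (Ev E) x s u =
      if Ev E u.1 then x ^ u.1.card * ber s u.2 else 0 := fun u => rfl
  have hS1 : (∑ u : Om {e // e ∈ E}, if A u then mu (Ev E) x s u else 0) = P1 := by
    rw [hP1, EL_em]
    simp only [Fintype.sum_prod_type, EB_em]
    refine sum_congr rfl fun η _ => ?_
    by_cases h : Ev E η
    · rw [if_pos h, mul_sum]
      refine sum_congr rfl fun b _ => ?_
      rw [hmu, if_pos h]
      have hA' : A (η, b) ↔ Far (n : ℤ) (↑(em η ∪ em b) : Set (Ed d)) 0 := Iff.rfl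
      by_cases h2 : A (η, b)
      · rw [if_pos h2, ind_true (hA'.1 h2), mul_one]
      · rw [if_neg h2, ind_false (fun h3 => h2 (hA'.2 h3)), mul_zero, mul_zero]
    · rw [if_neg h]
      apply sum_eq_zero
      intro b _
      rw [hmu, if_neg h]
      split_ifs <;> rfl
  have hS0 : (∑ u : Om {e // e ∈ E}, mu (Ev E) x s u) = Z := by
    have h1 : Z = EL (loopM x) E 0 (fun η => EB s E (fun _ => 1)) := by
      rw [hZ]
      unfold ZZ
      congr 1
      funext η
      rw [EB_const]
    rw [h1, EL_em]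
    simp only [Fintype.sum_prod_type, EB_em]
    refine sum_congr rfl fun η _ => ?_
    by_cases h : Ev E η
    · rw [if_pos h, mul_sum]
      refine sum_congr rfl fun b _ => ?_
      rw [hmu, if_pos h, mul_one]
    · rw [if_neg h]
      apply sum_eq_zero
      intro b _
      rw [hmu, if_neg h]
  have hS2 : (∑ u : Om {e // e ∈ E}, if A u then 0 else mu (Ev E) x s u) = Z - P1 := by
    rw [← hS0, ← hS1, ← sum_sub_distrib]
    refine sum_congr rfl fun u _ => ?_
    split_ifs <;> ring
  have hPE : PE x s E (fun η b => ind (Far (n : ℤ) (↑(η ∪ b) : Set (Ed d)) 0)) = P1 / Z := rfl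
  have hlhs : P1 / Z * (1 - P1 / Z) = P1 * (Z - P1) / Z ^ 2 := by
    field_simp
  rw [hPE, hlhs]
  refine div_le_div_of_nonneg_right ?_ (by positivity)
  -- the inequality of Loop
  have htree := tree_expl (Ω := Om {e // e ∈ E}) ea eb (sph d k) tr
  have hA : ∀ u v : Om {e // e ∈ E},
      (∀ e ∈ expl ea eb (sph d k) (tr u) (Fintype.card {e // e ∈ E}), tr u e = tr v e) →
      (A u ↔ A v) := by
    intro u v huv
    show Far (n : ℤ) _ 0 ↔ Far (n : ℤ) _ 0
    rw [far_iff hk, far_iff hk]
    refine exists_congr fun w => and_congr_right fun _ => ?_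
    have := expl_decides ea eb (sph d k) (tr u) (tr v) le_rfl huv 0 w
    simp only [conn_iff] at this
    exact this
  have hineq := loop_ineq (closed_Ev E) (dec_GG hG) hx hx1 hs hs1 htree
    (Fintype.card {e // e ∈ E}) A hA
  rw [hS1, hS2] at hineq
  refine hineq.trans ?_
  have hsumE : ∑ e ∈ E, QQ x s E (fun n1 n2 c b1 b2 =>
        ind (Ev2 n k G e n1 n2 (n1 ∪ n2 ∪ c) b1 b2)) =
      ∑ e : {e // e ∈ E}, QQ x s E (fun n1 n2 c b1 b2 =>
        ind (Ev2 n k G (e : Ed d) n1 n2 (n1 ∪ n2 ∪ c) b1 b2)) := by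
    rw [← Finset.sum_attach]
    rfl
  rw [hsumE]
  refine sum_le_sum fun e _ => ?_
  rw [QQ_eq x s E (fun n1 n2 om b1 b2 => ind (Ev2 n k G (e : Ed d) n1 n2 om b1 b2))]
  refine sum_le_sum fun p _ => ?_
  have hwt0 : 0 ≤ wt (Ev E) x s p := by
    have hber : ∀ b : Finset {e // e ∈ E}, 0 ≤ ber s b := fun b =>
      mul_nonneg (pow_nonneg hs _) (pow_nonneg (by linarith) _)
    unfold wt
    split_ifs
    · have h1 : 0 ≤ 1 - x ^ 2 := by nlinarith
      have := hber p.2.2.2.1
      have := hber p.2.2.2.2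
      positivity
    · exact le_rfl
  split_ifs with hc
  · by_cases hz : wt (Ev E) x s p = 0
    · rw [hz, zero_mul]
    · obtain ⟨hc1, hc2, S, hS, b', hb', hA2⟩ := hc
      -- admissibility
      have hadm : Ev E p.1 ∧ Ev E p.2.1 ∧ p.1 ⊆ p.2.2.1 ∧ p.2.1 ⊆ p.2.2.1 := by
        by_contra hn
        apply hz
        unfold wt
        exact if_neg hn
      have hDe : (p.1 ∆ p.2.1) ⊆ p.2.2.1 := by
        intro e' he'
        rw [mem_symmDiff] at he'
        rcases he' with he' | he'
        · exact hadm.2.2.1 he'.1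
        · exact hadm.2.2.2 he'.1
      have hDe2 : Ev E (p.1 ∆ p.2.1) := (closed_Ev E).symm _ _ hadm.1 hadm.2.1
      have hgood : Ev2 n k G (e : Ed d) (em p.1) (em p.2.1) (em p.2.2.1) (em p.2.2.2.1)
          (em p.2.2.2.2) := by
        refine ⟨?_, hc2, ?_⟩
        · obtain ⟨v, hv, h1⟩ := expl_touch ea eb (sph d k) (tr (c2 p)) _ e hc1
          rw [conn_iff, conn_iff] at h1
          exact ⟨v, hv, h1⟩
        · refine far_split (ω' := (↑(trc (p.1 ∆ xsum S, b')) : Set (Ed d))) ?_ hc2 hA2
          intro e' he'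
          have he'' : e' ∈ em (p.1 ∆ xsum S) ∪ em b' := he'
          rw [mem_union] at he''
          -- the set H
          have hxs : e' ∈ em (xsum S) → e' ∈ HH G (em p.2.2.1) (em p.1 ∆ em p.2.1) (e : Ed d) := by
            intro h1
            rw [mem_em] at h1
            obtain ⟨hE, h2⟩ := h1
            obtain ⟨g, hg, hg2⟩ := xsum_sub h2
            have hg3 := hS hg
            rw [mem_filter] at hg3
            obtain ⟨hg4, hg5⟩ := hg3
            unfold GG at hg4
            rw [if_pos ⟨hDe, hDe2⟩, mem_image] at hg4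
            obtain ⟨g', hg6, hg7⟩ := hg4
            right
            refine ⟨g', ?_, ?_, ?_⟩
            · rw [← em_symm]
              exact hg6
            · rw [← hg7, mem_dn] at hg5
              exact hg5
            · rw [← hg7, mem_dn] at hg2
              exact hg2
          rcases he'' with he'' | he''
          · rw [em_symm, mem_symmDiff] at he''
            rcases he'' with he'' | he''
            · left
              exact mem_coe.2 (mem_union_left _ he''.1)
            · right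
              exact hxs he''.1
          · rw [mem_em] at he''
            obtain ⟨hE, h2⟩ := he''
            by_cases h3 : (⟨e', hE⟩ : {e // e ∈ E}) = e
            · right
              left
              rw [← h3]
            · left
              have h4 := (hb' _ h3).1 h2
              exact mem_coe.2 (mem_union_right _ (mem_em.2 ⟨hE, h4⟩))
      rw [ind_true hgood, mul_one]
  · exact mul_nonneg hwt0 (ind_nonneg _)

end final

end Pool.Agent.Drt
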