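import Pool.Agent.Lcg.Out

/-!
Shortest chains of bad blocks from a block to two sets of blocks.
-/

namespace Pool.Agent.Drt

open Finset Pool.Agent.SRC Pool.Agent.Lcg

variable {d : ℕ}

/-- a chain of `m` bad blocks which starts near `w` -/
def Chn (a : ℤ) (Bad : Finset (Vx d)) (w : Vx d) (m : ℕ) (u : ℕ → Vx d) : Prop :=
  (∀ i, 1 ≤ i → i ≤ m → u i ∈ Bad) ∧ (1 ≤ m → near (a + 1) w (u 1)) ∧
    ∀ i, 1 ≤ i → i < m → near 1 (u i) (u (i + 1))

theorem Chn.mono {a : ℤ} {Bad : Finset (Vx d)} {w : Vx d} {m m' : ℕ} {u : ℕ → Vx d}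
    (h : Chn a Bad w m u) (hm : m' ≤ m) : Chn a Bad w m' u :=
  ⟨fun i h1 h2 => h.1 i h1 (h2.trans hm), fun h1 => h.2.1 (h1.trans hm),
    fun i h1 h2 => h.2.2 i h1 (lt_of_lt_of_le h2 hm)⟩

theorem Chn.near {a : ℤ} {Bad : Finset (Vx d)} {w : Vx d} {m : ℕ} {u : ℕ → Vx d}
    (h : Chn a Bad w m u) (i : ℕ) (h1 : 1 ≤ i) (h2 : i ≤ m) : near (a + i) w (u i) := by
  induction i, h1 using Nat.le_induction with
  | base => exact_mod_cast h.2.1 h2
  | succ i hi ih =>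
    have h3 := ih (Nat.le_of_succ_le h2)
    have h4 := near_trans h3 (h.2.2 i hi h2)
    push_cast
    rwa [add_assoc] at h4

/-- the set `P` of blocks is reached by a chain of `r` bad blocks -/
def Rch (a ρ : ℤ) (Bad : Finset (Vx d)) (w : Vx d) (P : Set (Vx d)) (r : ℕ) : Prop :=
  (r = 0 ∧ ∃ p ∈ P, near ρ w p) ∨ (1 ≤ r ∧ ∃ u, Chn a Bad w r u ∧ ∃ p ∈ P, near ρ (u r) p)

theorem chain_of_SC {Bad : Finset (Vx d)} {u v : Vx d} (hu : u ∈ Bad) (h : SC Bad u v) :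
    ∃ m : ℕ, 1 ≤ m ∧ ∃ c : ℕ → Vx d, c 1 = u ∧ c m = v ∧ (∀ i, 1 ≤ i → i ≤ m → c i ∈ Bad) ∧
      ∀ i, 1 ≤ i → i < m → near 1 (c i) (c (i + 1)) := by
  unfold SC at h
  induction h with
  | refl =>
    refine ⟨1, le_rfl, fun _ => u, rfl, rfl, fun _ _ _ => hu, fun i h1 h2 => ?_⟩
    omega
  | @tail p q h1 h2 ih =>
    obtain ⟨m, hm, c, hc1, hc2, hc3, hc4⟩ := ih
    refine ⟨m + 1, by omega, fun i => if i ≤ m then c i else q, ?_, ?_, ?_, ?_⟩
    · dsimp only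
      rw [if_pos hm]
      exact hc1
    · dsimp only
      rw [if_neg (by omega)]
    · intro i h3 h4
      dsimp only
      split_ifs with h5
      · exact hc3 i h3 h5
      · exact h2.2.1
    · intro i h3 h4
      dsimp only
      rw [if_pos (by omega : i ≤ m)]
      split_ifs with h5
      · exact hc4 i h3 (by omega)
      · have h6 : i = m := by omega
        rw [h6, hc2]
        exact h2.2.2

theorem exists_level {a ρ : ℤ} (ha : 0 ≤ a) (hρ : 2 * (a + 1) ≤ ρ) {Bad : Finset (Vx d)}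
    {w p : Vx d} {P : Set (Vx d)} (hp : p ∈ P)
    (h : near (2 * (a + 1)) w p ∨ ∃ u ∈ Bad, ∃ v ∈ Bad, near (a + 1) w u ∧ SC Bad u v ∧
      near (a + 1) v p) : ∃ r, Rch a ρ Bad w P r := by
  rcases h with h | ⟨u, hu, v, _, h1, h2, h3⟩
  · exact ⟨0, Or.inl ⟨rfl, p, hp, near_mono hρ h⟩⟩
  · obtain ⟨m, hm, c, hc1, hc2, hc3, hc4⟩ := chain_of_SC hu h2
    refine ⟨m, Or.inr ⟨hm, c, ⟨hc3, fun _ => ?_, hc4⟩, p, hp, ?_⟩⟩
    · rw [hc1]
      exact h1
    · rw [hc2]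
      exact near_mono (by linarith) h3

/-- the conclusion for one set -/
theorem shortest {a ρ : ℤ} {Bad : Finset (Vx d)} {w : Vx d} {P : Set (Vx d)} {r : ℕ}
    (h : Rch a ρ Bad w P (r + 1)) (hmin : ∀ r' < r + 1, ¬ Rch a ρ Bad w P r') :
    ∃ u, Chn a Bad w r u ∧ (∀ i, 1 ≤ i → i ≤ r → ∀ j, 1 ≤ j → j ≤ r → u i = u j → i = j) ∧
      ∀ i, 1 ≤ i → i ≤ r → ∀ p ∈ P, ¬ near ρ (u i) p := by
  rcases h with ⟨h, _⟩ | ⟨_, u, hu, p, hp, hpr⟩
  · omega
  refine ⟨u, hu.mono (Nat.le_succ r), ?_, ?_⟩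
  · -- injectivity
    have key : ∀ i, 1 ≤ i → i ≤ r → ∀ j, 1 ≤ j → j ≤ r → u i = u j → ¬ i < j := by
      intro i hi1 hi2 j hj1 hj2 hij hlt
      set t := j - i with ht
      refine hmin (r + 1 - t) (by omega) (Or.inr ⟨by omega,
        fun k => if k ≤ i then u k else u (k + t), ⟨?_, ?_, ?_⟩, p, hp, ?_⟩)
      · intro k hk1 hk2
        dsimp only
        split_ifs with h1
        · exact hu.1 k hk1 (by omega)
        · exact hu.1 (k + t) (by omega) (by omega)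
      · intro _
        dsimp only
        rw [if_pos hi1]
        exact hu.2.1 (by omega)
      · intro k hk1 hk2
        dsimp only
        by_cases h1 : k + 1 ≤ i
        · rw [if_pos h1, if_pos (by omega)]
          exact hu.2.2 k hk1 (by omega)
        · rw [if_neg h1]
          by_cases h2 : k ≤ i
          · rw [if_pos h2]
            have h3 : k = i := by omega
            have h4 : k + 1 + t = j + 1 := by omega
            rw [h4, h3, hij]
            exact hu.2.2 j hj1 (by omega)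
          · rw [if_neg h2]
            have h4 : k + 1 + t = (k + t) + 1 := by omega
            rw [h4]
            exact hu.2.2 (k + t) (by omega) (by omega)
      · dsimp only
        rw [if_neg (by omega)]
        have h4 : r + 1 - t + t = r + 1 := by omega
        rw [h4]
        exact hpr
    intro i hi1 hi2 j hj1 hj2 hij
    have h1 := key i hi1 hi2 j hj1 hj2 hij
    have h2 := key j hj1 hj2 i hi1 hi2 hij.symm
    omega
  · intro i hi1 hi2 q hq hn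
    exact hmin i (by omega) (Or.inr ⟨hi1, u, hu.mono (by omega), q, hq, hn⟩)

theorem Rch.close {a ρ : ℤ} (ha : 0 ≤ a) {Bad : Finset (Vx d)} {w : Vx d}
    {P : Set (Vx d)} {r m : ℕ} (h : Rch a ρ Bad w P r) (hr : r ≤ m + 1) :
    ∃ p ∈ P, near (ρ + a + 1 + m) w p := by
  rcases h with ⟨_, p, hp, h1⟩ | ⟨h1, u, hu, p, hp, h2⟩
  · refine ⟨p, hp, near_mono ?_ h1⟩
    have : (0 : ℤ) ≤ m := Int.natCast_nonneg m
    linarith
  · refine ⟨p, hp, near_mono ?_ (near_trans (hu.near r h1 le_rfl) h2)⟩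
    have : (r : ℤ) ≤ m + 1 := by exact_mod_cast hr
    linarith

/-- THE DETERMINISTIC PART: two sets of blocks, both reached from `w` through bad blocks. -/
theorem rstar {a ρ : ℤ} (ha : 0 ≤ a) {Bad : Finset (Vx d)} {w : Vx d} {P Q : Set (Vx d)}
    (hP : ∃ r, Rch a ρ Bad w P r) (hQ : ∃ r, Rch a ρ Bad w Q r) :
    ∃ (m : ℕ) (u : ℕ → Vx d), Chn a Bad w m u ∧
      (∀ i, 1 ≤ i → i ≤ m → ∀ j, 1 ≤ j → j ≤ m → u i = u j → i = j) ∧
      ((∀ i, 1 ≤ i → i ≤ m → ∀ p ∈ P, ¬ near ρ (u i) p) ∨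
        (∀ i, 1 ≤ i → i ≤ m → ∀ p ∈ Q, ¬ near ρ (u i) p)) ∧
      (∃ p ∈ P, near (ρ + a + 1 + m) w p) ∧ ∃ p ∈ Q, near (ρ + a + 1 + m) w p := by
  classical
  have hP1 := Nat.find_spec hP
  have hP2 : ∀ r' < Nat.find hP, ¬ Rch a ρ Bad w P r' := fun r' h => Nat.find_min hP h
  have hQ1 := Nat.find_spec hQ
  have hQ2 : ∀ r' < Nat.find hQ, ¬ Rch a ρ Bad w Q r' := fun r' h => Nat.find_min hQ h
  generalize Nat.find hP = r at hP1 hP2
  generalize Nat.find hQ = t at hQ1 hQ2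
  by_cases h0 : r = 0 ∧ t = 0
  · refine ⟨0, fun _ => 0, ⟨fun i h1 h2 => by omega, fun h1 => by omega,
      fun i h1 h2 => by omega⟩, fun i h1 h2 => by omega, Or.inl fun i h1 h2 => by omega, ?_, ?_⟩
    · exact hP1.close ha (by omega)
    · exact hQ1.close ha (by omega)
  · rcases le_total r t with h | h
    · obtain ⟨m, rfl⟩ : ∃ m, t = m + 1 := ⟨t - 1, by omega⟩
      obtain ⟨u, h1, h2, h3⟩ := shortest hQ1 hQ2
      exact ⟨m, u, h1, h2, Or.inr h3, hP1.close ha h, hQ1.close ha le_rfl⟩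
    · obtain ⟨m, rfl⟩ : ∃ m, r = m + 1 := ⟨r - 1, by omega⟩
      obtain ⟨u, h1, h2, h3⟩ := shortest hP1 hP2
      exact ⟨m, u, h1, h2, Or.inl h3, hP1.close ha le_rfl, hQ1.close ha h⟩

end Pool.Agent.Drt
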