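import Mathlib

/-!
Abstract swap inequality (helper43): a decision tree is run on copy 1, the revealed part is swapped
between two independent copies by weight preserving bijections of a pair space `P`
(pairs of configurations, possibly with additional variables).
-/

namespace Pool.Agent.Drt

open Finset

set_option linter.unusedSectionVars false

variable {Ω P E : Type*} [Fintype Ω] [Fintype P] [Fintype E] [DecidableEq E]

/-- A decision tree: `Q t u` is the set of edges queried in `u` up to time `t`. -/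
structure Tree (val : Ω → E → Bool) (Q : ℕ → Ω → Finset E) : Prop where
  zero : ∀ u, Q 0 u = ∅
  step : ∀ t u, Q (t + 1) u = Q t u ∨ ∃ e, e ∉ Q t u ∧ Q (t + 1) u = insert e (Q t u)
  loc : ∀ t u v, (∀ e ∈ Q t u, val u e = val v e) → Q (t + 1) v = Q (t + 1) u

/-- A family of weight preserving bijections of the pairs, `sw F` exchanges the two copies
`p1 p`, `p2 p` on `F`. -/
structure SwapFam (μ : Ω → ℝ) (w : P → ℝ) (p1 p2 : P → Ω) (val : Ω → E → Bool)
    (sw : Finset E → Equiv.Perm P) : Prop where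
  marg : ∀ F : Ω → Ω → ℝ, ∑ p : P, w p * F (p1 p) (p2 p) = ∑ u : Ω, ∑ v : Ω, μ u * μ v * F u v
  weight : ∀ F p, w (sw F p) = w p
  val_eq : ∀ F p, ∀ e ∈ F, val (p2 (sw F p)) e = val (p1 p) e
  empty : ∀ p, sw ∅ p = p

variable {val : Ω → E → Bool} {Q : ℕ → Ω → Finset E} {μ : Ω → ℝ} {w : P → ℝ} {p1 p2 : P → Ω}
  {sw : Finset E → Equiv.Perm P}

theorem Tree.mono_step (h : Tree val Q) (t : ℕ) (u : Ω) : Q t u ⊆ Q (t + 1) u := by
  rcases h.step t u with h1 | ⟨e, _, h1⟩
  · rw [h1]
  · rw [h1]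
    exact subset_insert _ _

theorem Tree.mono (h : Tree val Q) (u : Ω) {s t : ℕ} (hst : s ≤ t) : Q s u ⊆ Q t u := by
  induction t, hst using Nat.le_induction with
  | base => exact Subset.rfl
  | succ n _ ih => exact ih.trans (h.mono_step n u)

theorem Tree.loc' (h : Tree val Q) (t : ℕ) (u v : Ω) (huv : ∀ e ∈ Q t u, val u e = val v e)
    {s : ℕ} (hs : s ≤ t + 1) : Q s v = Q s u := by
  cases s with
  | zero => rw [h.zero, h.zero]
  | succ s =>
    refine h.loc s u v fun e he => huv e (h.mono u (by omega) he)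

/-- the swapped pair after `t` steps -/
def Phi (sw : Finset E → Equiv.Perm P) (p1 : P → Ω) (Q : ℕ → Ω → Finset E) (t : ℕ) (p : P) : P :=
  sw (Q t (p1 p)) p

theorem Phi_Q (h : Tree val Q) (hs : SwapFam μ w p1 p2 val sw) (t : ℕ) (p : P) {s : ℕ}
    (hst : s ≤ t + 1) : Q s (p2 (Phi sw p1 Q t p)) = Q s (p1 p) := by
  refine h.loc' t (p1 p) _ (fun e he => ?_) hst
  exact (hs.val_eq _ p e he).symm

theorem Phi_inj (h : Tree val Q) (hs : SwapFam μ w p1 p2 val sw) (t : ℕ) :
    Function.Injective (Phi sw p1 Q t) := by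
  intro p p' hpp
  have h1 := Phi_Q h hs t p (s := t) (by omega)
  have h2 := Phi_Q h hs t p' (s := t) (by omega)
  rw [hpp, h2] at h1
  unfold Phi at hpp
  rw [h1] at hpp
  exact (sw (Q t (p1 p))).injective hpp

theorem Phi_bij (h : Tree val Q) (hs : SwapFam μ w p1 p2 val sw) (t : ℕ) :
    Function.Bijective (Phi sw p1 Q t) :=
  Finite.injective_iff_bijective.1 (Phi_inj h hs t)

theorem sum_Phi (h : Tree val Q) (hs : SwapFam μ w p1 p2 val sw) (t : ℕ) (F : P → ℝ) :
    ∑ p : P, w p * F (Phi sw p1 Q t p) = ∑ p : P, w p * F p := by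
  rw [← (Phi_bij h hs t).sum_comp (fun p => w p * F p)]
  refine sum_congr rfl fun p _ => ?_
  have : w (Phi sw p1 Q t p) = w p := hs.weight _ _
  rw [this]

open Classical in
/-- The swap inequality: `P(A) P(not A)` is at most the expected number of edges `e` queried in
the second copy such that the first copy is not in `A` and `R e` holds for the pair, where `R e`
holds whenever swapping back the single edge `e` leads into `A`. -/
theorem swap_ineq (h : Tree val Q) (hs : SwapFam μ w p1 p2 val sw) (hw : ∀ p, 0 ≤ w p)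
    (A : Ω → Prop) (N : ℕ)
    (hA : ∀ u v, (∀ e ∈ Q N u, val u e = val v e) → (A u ↔ A v))
    (R : E → P → Prop)
    (hR : ∀ (F : Finset E) (e : E) (p : P), e ∉ F → A (p1 (sw F p)) →
      ¬ A (p1 (sw (insert e F) p)) → R e (sw (insert e F) p)) :
    (∑ u : Ω, if A u then μ u else 0) * (∑ u : Ω, if A u then 0 else μ u) ≤
      ∑ e : E, ∑ p : P, if (e ∈ Q N (p2 p) ∧ ¬ A (p1 p) ∧ R e p) then w p else 0 := by
  -- left hand side as a sum over pairs
  have hL : (∑ u : Ω, if A u then μ u else 0) * (∑ u : Ω, if A u then 0 else μ u) =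
      ∑ p : P, w p * (if A (p2 p) ∧ ¬ A (p1 p) then 1 else 0) := by
    have hm := hs.marg (fun u v => if A v ∧ ¬ A u then 1 else 0)
    rw [hm, mul_comm, sum_mul_sum]
    refine sum_congr rfl fun u _ => sum_congr rfl fun v _ => ?_
    by_cases h1 : A u <;> by_cases h2 : A v <;> simp [h1, h2]
  rw [hL, ← sum_Phi h hs N]
  -- pointwise telescoping
  have htel : ∀ p : P, ∀ n : ℕ, A (p1 p) → ¬ A (p1 (Phi sw p1 Q n p)) →
      ∃ t < n, A (p1 (Phi sw p1 Q t p)) ∧ ¬ A (p1 (Phi sw p1 Q (t + 1) p)) := by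
    intro p n h1 h2
    induction n with
    | zero =>
      exfalso
      apply h2
      unfold Phi
      rw [h.zero, hs.empty]
      exact h1
    | succ n ih =>
      by_cases h3 : A (p1 (Phi sw p1 Q n p))
      · exact ⟨n, Nat.lt_succ_self n, h3, h2⟩
      · obtain ⟨t, ht, h4⟩ := ih h3
        exact ⟨t, by omega, h4⟩
  have hpt : ∀ p : P, (if A (p2 (Phi sw p1 Q N p)) ∧ ¬ A (p1 (Phi sw p1 Q N p)) then (1 : ℝ)
      else 0) ≤ ∑ t ∈ range N, ∑ e : E, (fun q : P =>
        if (e ∈ Q (t + 1) (p2 q) \ Q t (p2 q) ∧ ¬ A (p1 q) ∧ R e q) then (1 : ℝ) else 0)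
          (Phi sw p1 Q (t + 1) p) := by
    intro p
    have hnn : ∀ t ∈ range N, 0 ≤ ∑ e : E, (fun q : P =>
        if (e ∈ Q (t + 1) (p2 q) \ Q t (p2 q) ∧ ¬ A (p1 q) ∧ R e q) then (1 : ℝ) else 0)
          (Phi sw p1 Q (t + 1) p) := by
      intro t _
      refine sum_nonneg fun e _ => ?_
      show (0 : ℝ) ≤ ite _ _ _
      split_ifs <;> norm_num
    split_ifs with hc
    · have hA1 : A (p1 p) := by
        refine (hA (p1 p) (p2 (Phi sw p1 Q N p)) fun e he => ?_).2 hc.1
        exact (hs.val_eq _ p e he).symm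
      obtain ⟨t, ht, h1, h2⟩ := htel p N hA1 hc.2
      rcases h.step t (p1 p) with h3 | ⟨e, he, h3⟩
      · exfalso
        apply h2
        have : Phi sw p1 Q (t + 1) p = Phi sw p1 Q t p := by
          unfold Phi
          rw [h3]
        rw [this]
        exact h1
      · have hRe : R e (Phi sw p1 Q (t + 1) p) := by
          have := hR (Q t (p1 p)) e p he h1
          unfold Phi at h2 ⊢
          rw [h3] at h2 ⊢
          exact this h2
        have hQ1 : Q (t + 1) (p2 (Phi sw p1 Q (t + 1) p)) = Q (t + 1) (p1 p) :=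
          Phi_Q h hs (t + 1) p (by omega)
        have hQ2 : Q t (p2 (Phi sw p1 Q (t + 1) p)) = Q t (p1 p) := Phi_Q h hs (t + 1) p (by omega)
        refine le_trans ?_ (single_le_sum hnn (mem_range.2 ht))
        refine le_trans ?_ (single_le_sum (f := fun e : E => (fun q : P =>
          if (e ∈ Q (t + 1) (p2 q) \ Q t (p2 q) ∧ ¬ A (p1 q) ∧ R e q) then (1 : ℝ) else 0)
            (Phi sw p1 Q (t + 1) p)) (fun e _ => ?_) (mem_univ e))
        · show (1 : ℝ) ≤ ite _ _ _
          rw [if_pos]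
          refine ⟨?_, h2, hRe⟩
          rw [hQ1, hQ2, h3]
          simp [he]
        · show (0 : ℝ) ≤ ite _ _ _
          split_ifs <;> norm_num
    · exact sum_nonneg hnn
  -- combine
  calc ∑ p : P, w p *
        (if A (p2 (Phi sw p1 Q N p)) ∧ ¬ A (p1 (Phi sw p1 Q N p)) then 1 else 0)
      ≤ ∑ p : P, w p * ∑ t ∈ range N, ∑ e : E, (fun q : P =>
        if (e ∈ Q (t + 1) (p2 q) \ Q t (p2 q) ∧ ¬ A (p1 q) ∧ R e q) then (1 : ℝ) else 0)
          (Phi sw p1 Q (t + 1) p) := by
        refine sum_le_sum fun p _ => ?_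
        exact mul_le_mul_of_nonneg_left (hpt p) (hw _)
    _ = ∑ t ∈ range N, ∑ e : E, ∑ p : P, w p * (fun q : P =>
        if (e ∈ Q (t + 1) (p2 q) \ Q t (p2 q) ∧ ¬ A (p1 q) ∧ R e q) then (1 : ℝ) else 0)
          (Phi sw p1 Q (t + 1) p) := by
        simp_rw [mul_sum]
        rw [sum_comm]
        refine sum_congr rfl fun t _ => ?_
        rw [sum_comm]
    _ = ∑ t ∈ range N, ∑ e : E, ∑ p : P, w p *
        (if (e ∈ Q (t + 1) (p2 p) \ Q t (p2 p) ∧ ¬ A (p1 p) ∧ R e p) then (1 : ℝ) else 0) := by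
        refine sum_congr rfl fun t _ => sum_congr rfl fun e _ => ?_
        exact sum_Phi h hs (t + 1) (fun q : P =>
          if (e ∈ Q (t + 1) (p2 q) \ Q t (p2 q) ∧ ¬ A (p1 q) ∧ R e q) then (1 : ℝ) else 0)
    _ = ∑ e : E, ∑ p : P, w p * ∑ t ∈ range N,
        (if (e ∈ Q (t + 1) (p2 p) \ Q t (p2 p) ∧ ¬ A (p1 p) ∧ R e p) then (1 : ℝ) else 0) := by
        rw [sum_comm]
        refine sum_congr rfl fun e _ => ?_
        rw [sum_comm]
        refine sum_congr rfl fun p _ => ?_
        rw [mul_sum]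
    _ ≤ ∑ e : E, ∑ p : P,
        if (e ∈ Q N (p2 p) ∧ ¬ A (p1 p) ∧ R e p) then w p else 0 := by
        refine sum_le_sum fun e _ => sum_le_sum fun p _ => ?_
        have hw' : 0 ≤ w p := hw p
        have hsum : ∀ n : ℕ, ∑ t ∈ range n,
            (if (e ∈ Q (t + 1) (p2 p) \ Q t (p2 p) ∧ ¬ A (p1 p) ∧ R e p) then (1 : ℝ) else 0) ≤
            if (e ∈ Q n (p2 p) ∧ ¬ A (p1 p) ∧ R e p) then 1 else 0 := by
          intro n
          induction n with
          | zero =>
            simp only [range_zero, sum_empty]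
            split_ifs <;> norm_num
          | succ n ih =>
            rw [sum_range_succ]
            by_cases h1 : e ∈ Q n (p2 p)
            · have h2 : ¬ (e ∈ Q (n + 1) (p2 p) \ Q n (p2 p) ∧ ¬ A (p1 p) ∧ R e p) := by
                intro h3
                exact (mem_sdiff.1 h3.1).2 h1
              rw [if_neg h2, add_zero]
              refine ih.trans ?_
              have h4 : e ∈ Q (n + 1) (p2 p) := h.mono_step n _ h1
              simp [h1, h4]
            · have h5 : ¬ (e ∈ Q n (p2 p) ∧ ¬ A (p1 p) ∧ R e p) := fun h3 => h1 h3.1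
              rw [if_neg h5] at ih
              have h6 : (if (e ∈ Q (n + 1) (p2 p) \ Q n (p2 p) ∧ ¬ A (p1 p) ∧ R e p)
                  then (1 : ℝ) else 0) ≤ if (e ∈ Q (n + 1) (p2 p) ∧ ¬ A (p1 p) ∧ R e p)
                  then 1 else 0 := by
                by_cases h7 : e ∈ Q (n + 1) (p2 p)
                · simp [h7, h1]
                · simp [h7]
              linarith
        have h8 := mul_le_mul_of_nonneg_left (hsum N) hw'
        refine h8.trans (le_of_eq ?_)
        split_ifs <;> simp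

end Pool.Agent.Drt
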